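import Mathlib

/-! Abstract group theory used for MP_f61096_al. -/

namespace DG

open Subgroup
open scoped commutatorElement

/-- In a soluble group, Thompson's relations force commutation. -/
theorem comm_of_thompson {G : Type*} [Group G] [hs : Group.IsSolvable G] (A B : G)
    (h1 : Commute (A * B * A⁻¹) (B⁻¹ * A))
    (h2 : Commute (A * (A * B * A⁻¹) * A⁻¹) (B⁻¹ * A)) : A * B = B * A := by
  set x2 := A * B * A⁻¹ with hx2
  set x3 := A * x2 * A⁻¹ with hx3
  set x4 := A * x3 * A⁻¹ with hx4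
  have r1 : B * x2 * B⁻¹ = x3 := by
    have h := h1.eq
    -- x2 * (B⁻¹ * A) = B⁻¹ * A * x2
    have h' : B * x2 * B⁻¹ * A = A * x2 := by
      calc B * x2 * B⁻¹ * A = B * (x2 * (B⁻¹ * A)) := by group
        _ = B * (B⁻¹ * A * x2) := by rw [h]
        _ = A * x2 := by group
    rw [hx3, ← h']; group
  have r2 : B * x3 * B⁻¹ = x4 := by
    have h := h2.eq
    have h' : B * x3 * B⁻¹ * A = A * x3 := by
      calc B * x3 * B⁻¹ * A = B * (x3 * (B⁻¹ * A)) := by group
        _ = B * (B⁻¹ * A * x3) := by rw [h]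
        _ = A * x3 := by group
    rw [hx4, ← h']; group
  have r3 : x2 * x3 * x2⁻¹ = x4 := by
    have e : ∀ y : G, (A * B * A⁻¹) * (A * y * A⁻¹) * (A * B * A⁻¹)⁻¹
        = A * (B * y * B⁻¹) * A⁻¹ := by intro y; group
    have h := e x2
    rw [← hx2, ← hx3, r1, ← hx4] at h
    exact h
  have key : ∀ n, B * x2⁻¹ ∈ derivedSeries G n := by
    intro n
    induction n with
    | zero => simp
    | succ n ih =>
      set D := derivedSeries G n with hD
      have hDn : D.Normal := by rw [hD]; infer_instance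
      have hc2 : x2 * x3⁻¹ ∈ D := by
        have := hDn.conj_mem _ ih A
        have e : A * (B * x2⁻¹) * A⁻¹ = x2 * x3⁻¹ := by rw [hx3, hx2]; group
        rwa [e] at this
      have hc3 : x3 * x4⁻¹ ∈ D := by
        have := hDn.conj_mem _ hc2 A
        have e : A * (x2 * x3⁻¹) * A⁻¹ = x3 * x4⁻¹ := by rw [hx4, hx3]; group
        rwa [e] at this
      have hg : x4⁻¹ * B ∈ D := by
        have h := D.mul_mem (D.mul_mem ih hc2) hc3
        have e : B * x2⁻¹ * (x2 * x3⁻¹) * (x3 * x4⁻¹) = B * x4⁻¹ := by group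
        rw [e] at h
        have := hDn.conj_mem _ h x4⁻¹
        have e2 : x4⁻¹ * (B * x4⁻¹) * x4⁻¹⁻¹ = x4⁻¹ * B := by group
        rwa [e2] at this
      have hcomm : ⁅x4⁻¹ * B, B * x2⁻¹⁆ ∈ derivedSeries G (n+1) := by
        rw [derivedSeries_succ]
        exact commutator_mem_commutator hg ih
      have hD'n : (derivedSeries G (n+1)).Normal := inferInstance
      -- x4 commutes with B * x2⁻¹
      have hx4c : x4 * (B * x2⁻¹) = (B * x2⁻¹) * x4 := by
        have e1 : x2⁻¹ * x4 = x3 * x2⁻¹ := by rw [← r3]; group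
        have e2 : B * x3 = x4 * B := by rw [← r2]; group
        calc x4 * (B * x2⁻¹) = (x4 * B) * x2⁻¹ := by group
          _ = (B * x3) * x2⁻¹ := by rw [e2]
          _ = B * (x3 * x2⁻¹) := by group
          _ = B * (x2⁻¹ * x4) := by rw [e1]
          _ = (B * x2⁻¹) * x4 := by group
      have hcomm2 : x4 * ⁅x4⁻¹ * B, B * x2⁻¹⁆ * x4⁻¹ ∈ derivedSeries G (n+1) :=
        hD'n.conj_mem _ hcomm _
      have e3 : x4 * ⁅x4⁻¹ * B, B * x2⁻¹⁆ * x4⁻¹ = B * x3⁻¹ * x2 * B⁻¹ := by
        rw [commutatorElement_def]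
        have e4 : x4 * (x4⁻¹ * B * (B * x2⁻¹) * (x4⁻¹ * B)⁻¹ * (B * x2⁻¹)⁻¹) * x4⁻¹
            = B * (B * x2⁻¹) * B⁻¹ * (x4 * (B * x2⁻¹)⁻¹ * x4⁻¹) := by group
        rw [e4]
        have e5 : x4 * (B * x2⁻¹)⁻¹ * x4⁻¹ = (B * x2⁻¹)⁻¹ := by
          have : x4 * (B * x2⁻¹)⁻¹ = (B * x2⁻¹)⁻¹ * x4 := by
            rw [mul_inv_eq_iff_eq_mul, mul_assoc, hx4c]; group
          rw [this]; group
        rw [e5]
        have e6 : B * x2⁻¹ * B⁻¹ = x3⁻¹ := by rw [← r1]; group
        calc B * (B * x2⁻¹) * B⁻¹ * (B * x2⁻¹)⁻¹ = B * (B * x2⁻¹ * B⁻¹) * x2 * B⁻¹ := by group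
          _ = B * x3⁻¹ * x2 * B⁻¹ := by rw [e6]
      rw [e3] at hcomm2
      have h7 : x3⁻¹ * x2 ∈ derivedSeries G (n+1) := by
        have := hD'n.conj_mem _ hcomm2 B⁻¹
        have e : B⁻¹ * (B * x3⁻¹ * x2 * B⁻¹) * B⁻¹⁻¹ = x3⁻¹ * x2 := by group
        rwa [e] at this
      have h8 : x2 * x3⁻¹ ∈ derivedSeries G (n+1) := by
        have := hD'n.conj_mem _ h7 x3
        have e : x3 * (x3⁻¹ * x2) * x3⁻¹ = x2 * x3⁻¹ := by group
        rwa [e] at this
      have h9 := hD'n.conj_mem _ h8 A⁻¹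
      have e : A⁻¹ * (x2 * x3⁻¹) * A⁻¹⁻¹ = B * x2⁻¹ := by rw [hx3, hx2]; group
      rwa [e] at h9
  obtain ⟨n, hn⟩ := hs.solvable
  have h := key n
  rw [hn, Subgroup.mem_bot] at h
  have h' : B = x2 := by
    have := mul_inv_eq_one.mp h
    exact this
  calc A * B = x2 * A := by rw [hx2]; group
    _ = B * A := by rw [← h']

/-! ### The two-cocycle extension -/

section Ext

variable {G V : Type*} [Group G] [MulAction G V]

/-- Integer valued cocycle on `G` with values in functions on `V`. -/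
structure Coc (G V : Type*) [Group G] [MulAction G V] where
  f : G → V → ℤ
  mul : ∀ g h x, f (g * h) x = f g x + f h (g⁻¹ • x)
  fin : ∀ g, {x | f g x ≠ 0}.Finite

namespace Coc

variable (c : Coc G V)

theorem one (x : V) : c.f 1 x = 0 := by
  have := c.mul 1 1 x
  simp at this
  exact this

theorem inv (g : G) (x : V) : c.f g⁻¹ x = - c.f g (g • x) := by
  have := c.mul g⁻¹ g x
  rw [inv_mul_cancel, c.one, inv_inv] at this
  omega

/-- The extension of `G` by functions on `V × V`. -/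
@[ext] structure E (c : Coc G V) where
  m : V → V → ℤ
  g : G

instance : Mul (E c) := ⟨fun a b => ⟨fun x y => a.m x y + b.m (a.g⁻¹ • x) (a.g⁻¹ • y)
  + c.f a.g x * c.f b.g (a.g⁻¹ • y), a.g * b.g⟩⟩
instance : One (E c) := ⟨⟨fun _ _ => 0, 1⟩⟩
instance : Inv (E c) := ⟨fun a => ⟨fun x y => - a.m (a.g • x) (a.g • y)
  - c.f a.g (a.g • x) * c.f a.g⁻¹ y, a.g⁻¹⟩⟩

theorem mul_m (a b : E c) (x y : V) : (a * b).m x y = a.m x y + b.m (a.g⁻¹ • x) (a.g⁻¹ • y)
  + c.f a.g x * c.f b.g (a.g⁻¹ • y) := rfl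
@[simp] theorem mul_g (a b : E c) : (a * b).g = a.g * b.g := rfl
@[simp] theorem one_m (x y : V) : (1 : E c).m x y = 0 := rfl
@[simp] theorem one_g : (1 : E c).g = 1 := rfl
theorem inv_m (a : E c) (x y : V) : (a⁻¹).m x y = - a.m (a.g • x) (a.g • y)
  - c.f a.g (a.g • x) * c.f a.g⁻¹ y := rfl
@[simp] theorem inv_g (a : E c) : (a⁻¹).g = a.g⁻¹ := rfl

instance : Group (E c) :=
  Group.ofLeftAxioms
    (by
      intro a b d
      ext x y
      · simp only [mul_m, mul_g, mul_inv_rev, mul_smul, c.mul]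
        ring
      · simp [mul_assoc])
    (by
      intro a
      ext x y
      · simp only [mul_m, one_m, one_g, inv_one, one_smul, c.one]
        ring
      · simp)
    (by
      intro a
      ext x y
      · simp only [mul_m, one_m, inv_m, inv_g, inv_inv, c.inv]
        ring
      · simp)

/-- Elements with finitely supported function part. -/
def finSub : Subgroup (E c) where
  carrier := {a | {p : V × V | a.m p.1 p.2 ≠ 0}.Finite}
  one_mem' := by
    show {p : V × V | (1 : E c).m p.1 p.2 ≠ 0}.Finite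
    simp
  mul_mem' := by
    intro a b ha hb
    show {p : V × V | (a * b).m p.1 p.2 ≠ 0}.Finite
    have hb' : {p : V × V | b.m (a.g⁻¹ • p.1) (a.g⁻¹ • p.2) ≠ 0}.Finite := by
      have : {p : V × V | b.m (a.g⁻¹ • p.1) (a.g⁻¹ • p.2) ≠ 0} =
          (fun p : V × V => (a.g⁻¹ • p.1, a.g⁻¹ • p.2)) ⁻¹' {p | b.m p.1 p.2 ≠ 0} := rfl
      rw [this]
      refine Set.Finite.preimage ?_ hb
      intro p _ q _ h
      simp only [Prod.mk.injEq] at h
      ext1
      · exact smul_left_cancel _ h.1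
      · exact smul_left_cancel _ h.2
    have h3 : {p : V × V | c.f a.g p.1 * c.f b.g (a.g⁻¹ • p.2) ≠ 0}.Finite := by
      have h4 : {y : V | c.f b.g (a.g⁻¹ • y) ≠ 0}.Finite := by
        have : {y : V | c.f b.g (a.g⁻¹ • y) ≠ 0} = (fun y => a.g⁻¹ • y) ⁻¹' {y | c.f b.g y ≠ 0} :=
          rfl
        rw [this]
        refine Set.Finite.preimage ?_ (c.fin b.g)
        intro p _ q _ h
        exact smul_left_cancel _ h
      refine ((c.fin a.g).prod h4).subset ?_
      intro p hp
      simp only [Set.mem_ofPred_eq] at hp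
      constructor
      · intro h; apply hp; simp [h]
      · intro h; apply hp; simp [h]
    refine ((ha.union hb').union h3).subset ?_
    intro p hp
    simp only [Set.mem_ofPred_eq, mul_m] at hp
    by_contra hcon
    simp only [Set.mem_union, Set.mem_ofPred_eq, not_or, not_not] at hcon
    apply hp
    rw [hcon.1.1, hcon.1.2, hcon.2]
    rfl
  inv_mem' := by
    intro a ha
    show {p : V × V | (a⁻¹).m p.1 p.2 ≠ 0}.Finite
    have hb' : {p : V × V | a.m (a.g • p.1) (a.g • p.2) ≠ 0}.Finite := by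
      have : {p : V × V | a.m (a.g • p.1) (a.g • p.2) ≠ 0} =
          (fun p : V × V => (a.g • p.1, a.g • p.2)) ⁻¹' {p | a.m p.1 p.2 ≠ 0} := rfl
      rw [this]
      refine Set.Finite.preimage ?_ ha
      intro p _ q _ h
      simp only [Prod.mk.injEq] at h
      ext1
      · exact smul_left_cancel _ h.1
      · exact smul_left_cancel _ h.2
    have h3 : {p : V × V | c.f a.g (a.g • p.1) * c.f a.g⁻¹ p.2 ≠ 0}.Finite := by
      have h4 : {y : V | c.f a.g (a.g • y) ≠ 0}.Finite := by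
        have : {y : V | c.f a.g (a.g • y) ≠ 0} = (fun y => a.g • y) ⁻¹' {y | c.f a.g y ≠ 0} :=
          rfl
        rw [this]
        refine Set.Finite.preimage ?_ (c.fin a.g)
        intro p _ q _ h
        exact smul_left_cancel _ h
      refine (h4.prod (c.fin a.g⁻¹)).subset ?_
      intro p hp
      simp only [Set.mem_ofPred_eq] at hp
      constructor
      · intro h; apply hp; simp [h]
      · intro h; apply hp; simp [h]
    refine (hb'.union h3).subset ?_
    intro p hp
    simp only [Set.mem_ofPred_eq, inv_m] at hp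
    by_contra hcon
    simp only [Set.mem_union, Set.mem_ofPred_eq, not_or, not_not] at hcon
    apply hp
    rw [hcon.1, hcon.2]
    rfl

/-- Finite presentability gives finitely many exceptional orbits of pairs. -/
theorem fp_pairs [hfp : Group.IsFinitelyPresented G] :
    ∃ P0 : Set (V × V), P0.Finite ∧ ∀ x y : V, (∀ g : G, (g • x, g • y) ∉ P0) →
      ∀ g h : G, Commute g h → g • x = x → g • y = y → h • x = x → h • y = y →
        c.f g x * c.f h y = c.f h x * c.f g y := by
  obtain ⟨n, φ, hφ, S, hS, hker⟩ := hfp.out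
  let Ψ : FreeGroup (Fin n) →* E c :=
    FreeGroup.lift (fun i => ⟨fun _ _ => 0, φ (FreeGroup.of i)⟩)
  have hΨg : ∀ x, (Ψ x).g = φ x := by
    intro x
    let pr : E c →* G := { toFun := fun a => a.g, map_one' := rfl, map_mul' := fun _ _ => rfl }
    have : pr.comp Ψ = φ := by
      ext i
      simp [Ψ, pr]
    have h2 := DFunLike.congr_fun this x
    exact h2
  have hfin : ∀ x, {p : V × V | (Ψ x).m p.1 p.2 ≠ 0}.Finite := by
    intro x
    have : Ψ x ∈ c.finSub := by
      have hr : Ψ.range ≤ c.finSub := by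
        rw [FreeGroup.range_lift_eq_closure, Subgroup.closure_le]
        rintro _ ⟨i, rfl⟩
        show {p : V × V | (0 : ℤ) ≠ 0}.Finite
        simp
      exact hr ⟨x, rfl⟩
    exact this
  refine ⟨⋃ s ∈ S, {p : V × V | (Ψ s).m p.1 p.2 ≠ 0}, hS.biUnion (fun s _ => hfin s), ?_⟩
  intro x y hxy g h hcomm hgx hgy hhx hhy
  -- the subgroup of elements of the kernel with support in the exceptional orbits
  let K : Subgroup (FreeGroup (Fin n)) :=
    { carrier := {z | φ z = 1 ∧ ∀ k : G, (Ψ z).m (k • x) (k • y) = 0}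
      one_mem' := by
        refine ⟨map_one _, fun k => ?_⟩
        rw [map_one]; rfl
      mul_mem' := by
        rintro a b ⟨ha, ha'⟩ ⟨hb, hb'⟩
        refine ⟨by rw [map_mul, ha, hb, one_mul], fun k => ?_⟩
        rw [map_mul, mul_m, hΨg, hΨg, ha, hb, ha' k]
        simp only [inv_one, one_smul, hb' k, c.one]
        ring
      inv_mem' := by
        rintro a ⟨ha, ha'⟩
        refine ⟨by rw [map_inv, ha, inv_one], fun k => ?_⟩
        rw [map_inv, inv_m, hΨg, ha]
        simp only [one_smul, ha' k, c.one]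
        ring }
  have hKn : K.Normal := by
    constructor
    rintro a ⟨ha, ha'⟩ z
    refine ⟨by rw [map_mul, map_mul, ha, mul_one, ← map_mul, mul_inv_cancel, map_one], fun k => ?_⟩
    have e1 : (Ψ (z * a * z⁻¹)).m (k • x) (k • y)
        = (Ψ (z * z⁻¹)).m (k • x) (k • y) + (Ψ a).m ((φ z)⁻¹ • k • x) ((φ z)⁻¹ • k • y) := by
      rw [mul_assoc, map_mul, mul_m, map_mul, mul_m, map_mul, mul_m, mul_g, hΨg, hΨg, hΨg, ha]
      simp only [inv_one, one_smul, c.one, one_mul]
      ring
    rw [e1, mul_inv_cancel, map_one, ← mul_smul, ← mul_smul, ha']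
    rfl
  have hle : φ.ker ≤ K := by
    rw [← hker]
    refine Subgroup.normalClosure_le_normal ?_
    intro s hs
    have hs1 : φ s = 1 := by
      have : s ∈ φ.ker := by rw [← hker]; exact Subgroup.subset_normalClosure hs
      exact this
    refine ⟨hs1, fun k => ?_⟩
    by_contra hne
    exact hxy k (Set.mem_biUnion hs hne)
  obtain ⟨z, rfl⟩ := hφ g
  obtain ⟨z', rfl⟩ := hφ h
  have hmem : z * z' * (z' * z)⁻¹ ∈ K := by
    apply hle
    rw [MonoidHom.mem_ker, map_mul, map_inv, map_mul, map_mul, hcomm.eq, mul_inv_cancel]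
  have h1 : (Ψ (z * z')).m x y = (Ψ z).m x y + (Ψ z').m x y + c.f (φ z) x * c.f (φ z') y := by
    rw [map_mul, mul_m, hΨg, hΨg]
    have e1 : (φ z)⁻¹ • x = x := by rw [inv_smul_eq_iff, hgx]
    have e2 : (φ z)⁻¹ • y = y := by rw [inv_smul_eq_iff, hgy]
    rw [e1, e2]
  have h2 : (Ψ (z' * z)).m x y = (Ψ z').m x y + (Ψ z).m x y + c.f (φ z') x * c.f (φ z) y := by
    rw [map_mul, mul_m, hΨg, hΨg]
    have e1 : (φ z')⁻¹ • x = x := by rw [inv_smul_eq_iff, hhx]
    have e2 : (φ z')⁻¹ • y = y := by rw [inv_smul_eq_iff, hhy]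
    rw [e1, e2]
  have h3 : (Ψ (z * z')).m x y = (Ψ (z' * z)).m x y := by
    have e : z * z' = (z * z' * (z' * z)⁻¹) * (z' * z) := by group
    conv_lhs => rw [e]
    rw [map_mul, mul_m, hΨg, hmem.1]
    have := hmem.2 1
    simp only [one_smul] at this
    rw [this]
    simp only [inv_one, one_smul, c.one]
    ring
  linarith

end Coc

end Ext

/-- Schur's theorem, from Hindman's theorem. -/
theorem schur {ι : Type*} [Finite ι] (c : ℕ → ι) :
    ∃ d1 d2 : ℕ, 1 ≤ d1 ∧ 1 ≤ d2 ∧ c d1 = c d2 ∧ c d1 = c (d1 + d2) := by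
  let s : Set (Set ℕ+) := Set.range (fun i : ι => {n : ℕ+ | c n = i})
  have hs : s.Finite := Set.finite_range _
  have hcov : (⊤ : Set ℕ+) ⊆ ⋃₀ s := by
    intro n _
    exact ⟨{m : ℕ+ | c m = c n}, ⟨c n, rfl⟩, rfl⟩
  obtain ⟨t, ⟨i, rfl⟩, a, ha⟩ := Hindman.exists_FS_of_finite_cover s hs hcov
  have h0 := ha (Hindman.FS.singleton a 0)
  have h1 := ha (Hindman.FS.singleton a 1)
  have h2 := ha (Hindman.FS.add_two a 0 1 Nat.zero_lt_one)
  simp only [Set.mem_ofPred_eq, PNat.add_coe] at h0 h1 h2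
  exact ⟨a.get 0, a.get 1, (a.get 0).pos, (a.get 1).pos, by rw [h0, h1], by rw [h0, h2]⟩

/-- The structural facts about cuts that are used. -/
structure CutSys (G V Θ : Type*) [Group G] [MulAction G V] where
  lt : V → V → Prop
  L : V → Set G
  R : V → Set G
  coc : Θ → Coc G V
  lt_trans : ∀ {u v w}, lt u v → lt v w → lt u w
  lt_irrefl : ∀ v, ¬ lt v v
  lt_smul : ∀ {u v} (g : G), lt u v → lt (g • u) (g • v)
  decomp : ∀ {g : G} {v : V}, g • v = v → ∃ l ∈ L v, ∃ r ∈ R v, g = l * r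
  comm : ∀ {l r : G} {v : V}, l ∈ L v → r ∈ R v → Commute l r
  R_fix : ∀ {r : G} {u v : V}, r ∈ R v → (lt u v ∨ u = v) → r • u = u
  L_fix : ∀ {l : G} {u v : V}, l ∈ L v → (lt v u ∨ u = v) → l • u = u
  L_inv : ∀ {l : G} {v : V}, l ∈ L v → l⁻¹ ∈ L v
  R_inv : ∀ {l : G} {v : V}, l ∈ R v → l⁻¹ ∈ R v
  R_mono : ∀ {u v : V}, lt u v → R v ⊆ R u
  R_conj : ∀ {r : G} {v : V} (g : G), r ∈ R v → g * r * g⁻¹ ∈ R (g • v)
  f_R : ∀ {r : G} {u v : V} (θ : Θ), r ∈ R v → lt u v → (coc θ).f r u = 0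
  key : ∀ a : G, a ≠ 1 → (∀ g, Commute a (g * a * g⁻¹)) → ∃ v θ, a ∈ R v ∧ (coc θ).f a v ≠ 0 ∧
    (∀ c, Commute c a → c • v = v) ∧ (∀ t : G, t • v = v ∨ lt v (t • v) ∨ lt (t • v) v)

namespace CutSys

variable {G V Θ : Type*} [Group G] [MulAction G V] (C : CutSys G V Θ)
include C

/-- No overlapping configuration in a soluble group. -/
theorem no_chain [Group.IsSolvable G] {v1 v2 v3 : V} (h12 : C.lt v1 v2) (h23 : C.lt v2 v3)
    {g1 g2 : G} (a1 : g1 • v1 = v1) (a2 : g1 • v2 = v3) (b1 : g2 • v1 = v2) (b2 : g2 • v3 = v3) :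
    False := by
  have h13 := C.lt_trans h12 h23
  obtain ⟨l, hl, h, hh, rfl⟩ := C.decomp a1
  obtain ⟨f, hf, r, hr, rfl⟩ := C.decomp b2
  have hv2 : h • v2 = v3 := by
    have e : l⁻¹ • v3 = v3 := C.L_fix (C.L_inv hl) (Or.inl h13)
    have : h • v2 = l⁻¹ • ((l * h) • v2) := by rw [mul_smul, inv_smul_smul]
    rw [this, a2, e]
  have hf1 : f • v1 = v2 := by
    have e : r • v1 = v1 := C.R_fix hr (Or.inl h13)
    rw [mul_smul, e] at b1
    exact b1
  have hh1 : h • v1 = v1 := C.R_fix hh (Or.inr rfl)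
  have hf3 : f • v3 = v3 := C.L_fix hf (Or.inr rfl)
  have hv3 : C.lt v3 (h • v3) := by
    have := C.lt_smul h h23
    rwa [hv2] at this
  have hcomm := comm_of_thompson (h * f) h
    (by
      have e : h⁻¹ * (h * f) = f := by group
      rw [e]
      refine (C.comm hf ?_).symm
      have := C.R_conj (h * f) hh
      rwa [mul_smul, hf1, hv2] at this)
    (by
      have e : h⁻¹ * (h * f) = f := by group
      rw [e]
      refine (C.comm hf ?_).symm
      have := C.R_conj (h * f) (C.R_conj (h * f) hh)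
      have e2 : (h * f) • (h * f) • v1 = h • v3 := by
        rw [mul_smul, mul_smul h f v1, hf1, hv2, hf3]
      rw [e2] at this
      exact C.R_mono hv3 this)
  have h5 : h * f = f * h := by
    have : h * (f * h) = h * (h * f) := by rw [← mul_assoc]; exact hcomm
    exact (mul_left_cancel this).symm
  have : v3 = v2 := by
    calc v3 = (h * f) • v1 := by rw [mul_smul, hf1, hv2]
      _ = (f * h) • v1 := by rw [h5]
      _ = v2 := by rw [mul_smul, hh1, hf1]
  rw [this] at h23
  exact C.lt_irrefl _ h23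

theorem comm_of_solvable_fp [hs : Group.IsSolvable G] [Group.IsFinitelyPresented G] (x y : G) :
    x * y = y * x := by
  by_contra hxy
  -- last nontrivial derived term
  classical
  have hex : ∃ n, derivedSeries G n = ⊥ := hs.solvable
  let n := Nat.find hex
  have hn : derivedSeries G n = ⊥ := Nat.find_spec hex
  have hd1 : derivedSeries G 1 ≠ ⊥ := by
    intro h
    apply hxy
    have : ⁅x, y⁆ ∈ derivedSeries G 1 := by
      rw [derivedSeries_succ, derivedSeries_zero]
      exact commutator_mem_commutator (Subgroup.mem_top _) (Subgroup.mem_top _)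
    rw [h, Subgroup.mem_bot, commutatorElement_eq_one_iff_mul_comm] at this
    exact this
  have hn2 : 2 ≤ n := by
    by_contra hlt
    have h01 : n ≤ 1 := by omega
    have : derivedSeries G 1 ≤ derivedSeries G n := derivedSeries_antitone G h01
    rw [hn, le_bot_iff] at this
    exact hd1 this
  obtain ⟨k, hk⟩ : ∃ k, n = k + 2 := ⟨n - 2, by omega⟩
  set A := derivedSeries G (k+1) with hA
  have hAne : A ≠ ⊥ := by
    intro h
    have := Nat.find_min hex (m := k + 1) (by show k + 1 < n; omega)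
    exact this h
  have hAab : ∀ a ∈ A, ∀ b ∈ A, Commute a b := by
    intro a ha b hb
    have : ⁅a, b⁆ ∈ derivedSeries G (k+2) := by
      rw [derivedSeries_succ]
      exact commutator_mem_commutator ha hb
    rw [← hk, hn, Subgroup.mem_bot, commutatorElement_eq_one_iff_mul_comm] at this
    exact this
  have hAn : A.Normal := by rw [hA]; infer_instance
  have hA1 : A ≤ commutator G := by
    have : A ≤ derivedSeries G 1 := derivedSeries_antitone G (by omega)
    rwa [derivedSeries_one] at this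
  obtain ⟨a, haA, ha1⟩ : ∃ a : G, a ∈ A ∧ a ≠ 1 := by
    by_contra hno
    push Not at hno
    exact hAne ((Subgroup.eq_bot_iff_forall A).mpr hno)
  obtain ⟨v, θ, haR, hfv, hcen, hcmp⟩ := C.key a ha1
    (fun g => hAab a haA _ (hAn.conj_mem a haA g))
  have hav : a • v = v := C.R_fix haR (Or.inr rfl)
  set c := C.coc θ with hc
  -- some element moves v
  have hmove : ∃ t : G, C.lt v (t • v) := by
    by_contra hno
    push Not at hno
    have hall : ∀ t : G, t • v = v := by
      intro t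
      rcases hcmp t with h | h | h
      · exact h
      · exact absurd h (hno t)
      · exfalso
        apply hno t⁻¹
        have := C.lt_smul t⁻¹ h
        rwa [inv_smul_smul] at this
    let χ : G →* Multiplicative ℤ :=
      { toFun := fun g => Multiplicative.ofAdd (c.f g v)
        map_one' := by rw [c.one]; rfl
        map_mul' := by
          intro g h
          rw [c.mul, hall g⁻¹, ofAdd_add] }
    have h1 : a ∈ χ.ker := Abelianization.commutator_subset_ker χ (hA1 haA)
    rw [MonoidHom.mem_ker] at h1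
    have h2 : c.f a v = 0 := by
      have : Multiplicative.ofAdd (c.f a v) = 1 := h1
      exact Multiplicative.ofAdd.injective this
    exact hfv h2
  obtain ⟨t, ht⟩ := hmove
  have hpow : ∀ n : ℕ, 1 ≤ n → C.lt v (t ^ n • v) := by
    intro n hn
    induction n, hn using Nat.le_induction with
    | base => simpa using ht
    | succ m _ ih =>
      have h1 := C.lt_smul (t ^ m) ht
      rw [← mul_smul, ← pow_succ] at h1
      exact C.lt_trans ih h1
  obtain ⟨P0, hP0, hP⟩ := c.fp_pairs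
  have hin : ∀ n : ℕ, 1 ≤ n → ∃ g : G, (g • v, g • t ^ n • v) ∈ P0 := by
    intro n hn
    by_contra hno
    push Not at hno
    set b := t ^ n * a * (t ^ n)⁻¹ with hb
    have hbA : b ∈ A := hAn.conj_mem a haA _
    have hbR : b ∈ C.R (t ^ n • v) := C.R_conj _ haR
    have hbv : b • v = v := C.R_fix hbR (Or.inl (hpow n hn))
    have hbw : b • t ^ n • v = t ^ n • v := C.R_fix hbR (Or.inr rfl)
    have haw : a • t ^ n • v = t ^ n • v := by
      have h1 : Commute ((t ^ n)⁻¹ * a * t ^ n) a := by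
        have := hAn.conj_mem a haA (t ^ n)⁻¹
        rw [inv_inv] at this
        exact hAab _ this _ haA
      have h2 := hcen _ h1
      have h3 : t ^ n • (((t ^ n)⁻¹ * a * t ^ n) • v) = t ^ n • v := by rw [h2]
      rw [← mul_smul] at h3
      have e : t ^ n * ((t ^ n)⁻¹ * a * t ^ n) = a * t ^ n := by group
      rw [e, mul_smul] at h3
      exact h3
    have hab : Commute a b := hAab a haA b hbA
    have h := hP v (t ^ n • v) hno a b hab hav haw hbv hbw
    have f1 : c.f b v = 0 := C.f_R θ hbR (hpow n hn)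
    have f2 : c.f b (t ^ n • v) = c.f a v := by
      rw [hb, c.mul, c.mul, c.inv, inv_smul_smul]
      have e : t ^ n • (t ^ n * a)⁻¹ • t ^ n • v = t ^ n • v := by
        rw [mul_inv_rev, mul_smul, inv_smul_smul, inv_smul_eq_iff.mpr hav.symm]
      rw [e]
      ring
    rw [f1, f2, zero_mul] at h
    exact hfv (mul_self_eq_zero.mp h)
  have : Finite P0 := hP0
  choose! γ hγ using hin
  have hne : Nonempty P0 := ⟨⟨_, hγ 1 le_rfl⟩⟩
  let col : ℕ → P0 := fun n => if h : 1 ≤ n then ⟨_, hγ n h⟩ else hne.some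
  obtain ⟨d1, d2, hd1', hd2', e1, e2⟩ := schur col
  have hc1 : col d1 = ⟨_, hγ d1 hd1'⟩ := dif_pos hd1'
  have hc2 : col d2 = ⟨_, hγ d2 hd2'⟩ := dif_pos hd2'
  have hc3 : col (d1 + d2) = ⟨_, hγ (d1 + d2) (by omega)⟩ := dif_pos (by omega)
  rw [hc1, hc3] at e2
  rw [hc1, hc2] at e1
  have e1' := congrArg Subtype.val e1
  have e2' := congrArg Subtype.val e2
  simp only [Prod.mk.injEq] at e1' e2'
  -- v1 = v, v2 = t^d1 v, v3 = t^(d1+d2) v
  have h12 := hpow d1 hd1'
  have h23 : C.lt (t ^ d1 • v) (t ^ (d1 + d2) • v) := by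
    have := C.lt_smul (t ^ d1) (hpow d2 hd2')
    rwa [← mul_smul, ← pow_add] at this
  refine C.no_chain h12 h23 (g1 := (γ (d1 + d2))⁻¹ * γ d1)
    (g2 := t ^ d1 * ((γ d2)⁻¹ * γ (d1 + d2))) ?_ ?_ ?_ ?_
  · rw [mul_smul, e2'.1, inv_smul_smul]
  · rw [mul_smul, e2'.2, inv_smul_smul]
  · rw [mul_smul, mul_smul, ← e2'.1, e1'.1, inv_smul_smul]
  · rw [mul_smul, mul_smul, ← e2'.2, e1'.2, inv_smul_smul, ← mul_smul, ← pow_add]

end CutSys

end DG
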