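import Mathlib

/-! Group actions on trees given by depth functions, used for MP_f61096_al. -/

namespace DG

/-- A tree, given by an adjacency relation and, for each root, a depth function. -/
structure RT (T : Type*) (Adj : T → T → Prop) where
  symm : ∀ {x y}, Adj x y → Adj y x
  dep : T → T → ℕ
  dep_self : ∀ x, dep x x = 0
  eq_of_dep : ∀ {x y}, dep x y = 0 → y = x
  dep_adj : ∀ {x y z}, Adj y z → dep x z = dep x y + 1 ∨ dep x y = dep x z + 1
  parent_unique : ∀ {x y z z'}, Adj y z → Adj y z' → dep x z < dep x y → dep x z' < dep x y →
    z = z'
  parent_exists : ∀ {x y}, y ≠ x → ∃ z, Adj y z ∧ dep x z + 1 = dep x y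

namespace RT

variable {T : Type*} {Adj : T → T → Prop} (R : RT T Adj)
include R

/-- A walk without backtracking. -/
def NB (Adj : T → T → Prop) (w : ℕ → T) (n : ℕ) : Prop :=
  (∀ i, i < n → Adj (w i) (w (i+1))) ∧ (∀ i, i + 2 ≤ n → w i ≠ w (i+2))

theorem nb_dep {w : ℕ → T} {n : ℕ} (h : NB Adj w n) : ∀ i, i ≤ n → R.dep (w 0) (w i) = i := by
  intro i
  induction i using Nat.strong_induction_on with
  | _ i ih =>
    intro hi
    match i, ih, hi with
    | 0, _, _ => exact R.dep_self _
    | 1, _, hi =>
      have := R.dep_adj (x := w 0) (h.1 0 (by omega))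
      rw [R.dep_self] at this
      simp only [zero_add] at this
      omega
    | j + 2, ih, hi =>
      have h1 := ih (j+1) (by omega) (by omega)
      have h0 := ih j (by omega) (by omega)
      rcases R.dep_adj (x := w 0) (h.1 (j+1) (by omega)) with h2 | h2
      · rw [h2, h1]
      · exfalso
        apply h.2 j hi
        apply R.parent_unique (x := w 0) (y := w (j+1)) (R.symm (h.1 j (by omega)))
          (h.1 (j+1) (by omega))
        · omega
        · show R.dep (w 0) (w (j+1+1)) < _
          omega

theorem dep_le {w : ℕ → T} {n : ℕ} (h : ∀ i, i < n → Adj (w i) (w (i+1))) :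
    R.dep (w 0) (w n) ≤ n := by
  induction n with
  | zero => rw [R.dep_self]
  | succ n ih =>
    have h1 := ih (fun i hi => h i (by omega))
    have := R.dep_adj (x := w 0) (h n (by omega))
    omega

theorem exists_geod (x : T) : ∀ n y, R.dep x y = n → ∃ w : ℕ → T, w 0 = x ∧ w n = y ∧
    (∀ i, i < n → Adj (w i) (w (i+1))) ∧ (∀ i, i ≤ n → R.dep x (w i) = i) := by
  intro n
  induction n with
  | zero =>
    intro y hy
    have := R.eq_of_dep hy
    subst this
    exact ⟨fun _ => y, rfl, rfl, fun i hi => by omega, fun i hi => by
      have : i = 0 := by omega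
      subst this; exact hy⟩
  | succ n ih =>
    intro y hy
    have hne : y ≠ x := by
      intro h
      rw [h, R.dep_self] at hy
      omega
    obtain ⟨z, hz, hd⟩ := R.parent_exists hne
    obtain ⟨w, h0, h1, h2, h3⟩ := ih z (by omega)
    refine ⟨fun i => if i ≤ n then w i else y, ?_, ?_, ?_, ?_⟩
    · simp [h0]
    · simp
    · intro i hi
      by_cases h : i < n
      · have e1 : i ≤ n := by omega
        have e2 : i + 1 ≤ n := by omega
        simp only [e1, e2, if_true]
        exact h2 i h
      · have e0 : i = n := by omega
        subst e0
        have e2 : ¬ (i + 1 ≤ i) := by omega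
        simp only [le_refl, if_true, e2, if_false, h1]
        exact R.symm hz
    · intro i hi
      by_cases h : i ≤ n
      · simp only [h, if_true]
        exact h3 i h
      · have e0 : i = n + 1 := by omega
        subst e0
        simp only [h, if_false]
        exact hy

theorem exists_nb (x y : T) : ∃ w : ℕ → T, w 0 = x ∧ w (R.dep x y) = y ∧
    NB Adj w (R.dep x y) := by
  obtain ⟨w, h0, h1, h2, h3⟩ := R.exists_geod x _ y rfl
  refine ⟨w, h0, h1, h2, ?_⟩
  intro i hi h
  have a := h3 i (by omega)
  have b := h3 (i+2) hi
  rw [← h, a] at b
  omega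

theorem nb_unique {w w' : ℕ → T} {n n' : ℕ} (h : NB Adj w n) (h' : NB Adj w' n')
    (h0 : w 0 = w' 0) (h1 : w n = w' n') : n = n' ∧ ∀ i, i ≤ n → w i = w' i := by
  have hn : n = n' := by
    have a := R.nb_dep h n le_rfl
    have b := R.nb_dep h' n' le_rfl
    rw [← h0, ← h1, a] at b
    exact b
  subst hn
  refine ⟨rfl, ?_⟩
  have : ∀ k, k ≤ n → w (n - k) = w' (n - k) := by
    intro k
    induction k with
    | zero => intro _; simpa using h1
    | succ k ih =>
      intro hk
      have e := ih (by omega)
      obtain ⟨j, hj⟩ : ∃ j, n - k = j + 1 := ⟨n - k - 1, by omega⟩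
      have hj' : n - (k+1) = j := by omega
      rw [hj'] ; rw [hj] at e
      have d1 := R.nb_dep h j (by omega)
      have d2 := R.nb_dep h (j+1) (by omega)
      have d3 := R.nb_dep h' j (by omega)
      have d4 := R.nb_dep h' (j+1) (by omega)
      apply R.parent_unique (x := w 0) (y := w (j+1)) (R.symm (h.1 j (by omega)))
      · rw [e]; exact R.symm (h'.1 j (by omega))
      · omega
      · rw [h0] ; rw [e, d3, d4]; omega
  intro i hi
  have := this (n - i) (by omega)
  have e : n - (n - i) = i := by omega
  rwa [e] at this

theorem dep_comm (x y : T) : R.dep x y = R.dep y x := by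
  have key : ∀ x y, R.dep y x ≤ R.dep x y := by
    intro x y
    obtain ⟨w, h0, h1, h2⟩ := R.exists_nb x y
    have := R.dep_le (w := fun i => w (R.dep x y - i)) (n := R.dep x y) (by
      intro i hi
      have e : R.dep x y - i = (R.dep x y - (i+1)) + 1 := by omega
      show Adj (w (R.dep x y - i)) (w (R.dep x y - (i+1)))
      rw [e]
      exact R.symm (h2.1 _ (by omega)))
    simp only [Nat.sub_zero, Nat.sub_self, h0, h1] at this
    exact this
  exact le_antisymm (key y x) (key x y)

variable {G : Type*} [Group G] [MulAction G T]

theorem dep_smul (hA : ∀ (g : G) {x y : T}, Adj x y → Adj (g • x) (g • y)) (g : G) (x y : T) :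
    R.dep (g • x) (g • y) = R.dep x y := by
  have key : ∀ (g : G) x y, R.dep (g • x) (g • y) ≤ R.dep x y := by
    intro g x y
    obtain ⟨w, h0, h1, h2⟩ := R.exists_nb x y
    have := R.dep_le (w := fun i => g • w i) (n := R.dep x y) (fun i hi => hA g (h2.1 i hi))
    simp only [h0, h1] at this
    exact this
  refine le_antisymm (key g x y) ?_
  have := key g⁻¹ (g • x) (g • y)
  rwa [inv_smul_smul, inv_smul_smul] at this

omit R in
theorem smul_nb (hA : ∀ (g : G) {x y : T}, Adj x y → Adj (g • x) (g • y)) (g : G) {w : ℕ → T} {n : ℕ}
    (h : NB Adj w n) : NB Adj (fun i => g • w i) n :=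
  ⟨fun i hi => hA g (h.1 i hi), fun i hi e => h.2 i hi (smul_left_cancel g e)⟩

/-- A walk from `o` to `b o` meets the fixed vertices of `b`, if there are any. -/
theorem walk_meets_fixed (hA : ∀ (g : G) {x y : T}, Adj x y → Adj (g • x) (g • y)) (b : G) {x : T}
    (hx : b • x = x) : ∀ (N : ℕ) (y : ℕ → T), (∀ i, i < N → Adj (y i) (y (i+1))) →
      y N = b • y 0 → ∃ j, j ≤ N ∧ b • y j = y j := by
  intro N
  induction N using Nat.strong_induction_on with
  | _ N ih =>
    intro y hadj hend
    by_cases hback : ∃ i, i + 2 ≤ N ∧ y i = y (i+2)
    · obtain ⟨i, hi, he⟩ := hback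
      obtain ⟨j, hj, hfix⟩ := ih (N - 2) (by omega) (fun k => if k ≤ i then y k else y (k+2))
        (by
          intro k hk
          by_cases h1 : k < i
          · have e1 : k ≤ i := by omega
            have e2 : k + 1 ≤ i := by omega
            simp only [e1, e2, if_true]
            exact hadj k (by omega)
          · by_cases h2 : k = i
            · subst h2
              have e2 : ¬ (k + 1 ≤ k) := by omega
              simp only [le_refl, if_true, e2, if_false]
              rw [he]
              exact hadj (k+2) (by omega)
            · have e1 : ¬ k ≤ i := by omega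
              have e2 : ¬ k + 1 ≤ i := by omega
              simp only [e1, e2, if_false]
              exact hadj (k+2) (by omega))
        (by
          have e0 : (0 : ℕ) ≤ i := by omega
          simp only [e0, if_true]
          by_cases h : N - 2 ≤ i
          · have e : N - 2 = i := by omega
            simp only [h, if_true]
            rw [e, he]
            have : i + 2 = N := by omega
            rw [this]; exact hend
          · simp only [h, if_false]
            have : N - 2 + 2 = N := by omega
            rw [this]; exact hend)
      by_cases h : j ≤ i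
      · simp only [h, if_true] at hfix
        exact ⟨j, by omega, hfix⟩
      · simp only [h, if_false] at hfix
        exact ⟨j + 2, by omega, hfix⟩
    · have hNB : NB Adj y N := ⟨hadj, fun i hi he => hback ⟨i, hi, he⟩⟩
      obtain ⟨z, z0, z1, z2⟩ := R.exists_nb x (y 0)
      set δ := R.dep x (y 0) with hδ
      by_cases hfixo : b • y 0 = y 0
      · exact ⟨0, by omega, hfixo⟩
      -- largest index with fixed vertex
      classical
      let S := (Finset.range (δ+1)).filter (fun k => b • z k = z k)
      have hS : S.Nonempty := ⟨0, by simp [S, z0, hx]⟩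
      let k0 := S.max' hS
      have hk0 : k0 ∈ S := S.max'_mem hS
      have hk0' : k0 ≤ δ ∧ b • z k0 = z k0 := by
        have := hk0
        simp only [S, Finset.mem_filter, Finset.mem_range] at this
        exact ⟨by omega, this.2⟩
      have hlt : k0 < δ := by
        rcases Nat.lt_or_ge k0 δ with h | h
        · exact h
        · exfalso
          have e : k0 = δ := by omega
          rw [e, z1] at hk0'
          exact hfixo hk0'.2
      have hnext : b • z (k0+1) ≠ z (k0+1) := by
        intro h
        have : k0 + 1 ∈ S := by
          simp only [S, Finset.mem_filter, Finset.mem_range]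
          exact ⟨by omega, h⟩
        have := S.le_max' _ this
        have : k0 + 1 ≤ k0 := this
        omega
      set e := δ - k0 with he
      let W : ℕ → T := fun i => if i ≤ e then z (δ - i) else b • z (k0 + (i - e))
      have hWNB : NB Adj W (2 * e) := by
        constructor
        · intro i hi
          by_cases h1 : i < e
          · have e1 : i ≤ e := by omega
            have e2 : i + 1 ≤ e := by omega
            show Adj (if i ≤ e then z (δ - i) else _) (if i + 1 ≤ e then z (δ - (i+1)) else _)
            rw [if_pos e1, if_pos e2]
            have e3 : δ - i = (δ - (i+1)) + 1 := by omega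
            rw [e3]
            exact R.symm (z2.1 _ (by omega))
          · by_cases h2 : i = e
            · have e1 : i ≤ e := by omega
              have e2 : ¬ i + 1 ≤ e := by omega
              show Adj (if i ≤ e then z (δ - i) else _) (if i + 1 ≤ e then z (δ - (i+1)) else _)
              rw [if_pos e1, if_neg e2]
              have e3 : δ - i = k0 := by omega
              have e4 : k0 + (i + 1 - e) = k0 + 1 := by omega
              rw [e3, e4, ← hk0'.2]
              exact hA b (z2.1 _ (by omega))
            · have e1 : ¬ i ≤ e := by omega
              have e2 : ¬ i + 1 ≤ e := by omega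
              show Adj (if i ≤ e then z (δ - i) else _) (if i + 1 ≤ e then z (δ - (i+1)) else _)
              rw [if_neg e1, if_neg e2]
              have e4 : k0 + (i + 1 - e) = k0 + (i - e) + 1 := by omega
              rw [e4]
              exact hA b (z2.1 _ (by omega))
        · intro i hi
          show (if i ≤ e then z (δ - i) else _) ≠ (if i + 2 ≤ e then z (δ - (i+2)) else _)
          by_cases h1 : i + 2 ≤ e
          · have e1 : i ≤ e := by omega
            rw [if_pos e1, if_pos h1]
            intro h
            apply z2.2 (δ - (i+2)) (by omega)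
            have e3 : δ - (i+2) + 2 = δ - i := by omega
            rw [e3]; exact h.symm
          · by_cases h2 : i < e
            · have e1 : i ≤ e := by omega
              rw [if_pos e1, if_neg h1]
              have e3 : δ - i = k0 + 1 := by omega
              have e4 : k0 + (i + 2 - e) = k0 + 1 := by omega
              rw [e3, e4]
              exact fun h => hnext h.symm
            · by_cases h3 : i = e
              · have e1 : i ≤ e := by omega
                rw [if_pos e1, if_neg h1]
                have e3 : δ - i = k0 := by omega
                have e4 : k0 + (i + 2 - e) = k0 + 2 := by omega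
                rw [e3, e4, ← hk0'.2]
                intro h
                exact z2.2 k0 (by omega) (smul_left_cancel b h)
              · have e1 : ¬ i ≤ e := by omega
                rw [if_neg e1, if_neg h1]
                have e4 : k0 + (i + 2 - e) = k0 + (i - e) + 2 := by omega
                rw [e4]
                intro h
                exact z2.2 (k0 + (i - e)) (by omega) (smul_left_cancel b h)
      have hW0 : W 0 = y 0 := by
        show (if 0 ≤ e then z (δ - 0) else _) = _
        rw [if_pos (by omega), Nat.sub_zero, z1]
      have hW1 : W (2 * e) = y N := by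
        show (if 2 * e ≤ e then _ else b • z (k0 + (2 * e - e))) = _
        rw [if_neg (by omega)]
        have e4 : k0 + (2 * e - e) = δ := by omega
        rw [e4, z1, hend]
      obtain ⟨hn, huniq⟩ := R.nb_unique hWNB hNB hW0 hW1
      refine ⟨e, by omega, ?_⟩
      have := huniq e (by omega)
      rw [← this]
      show b • (if e ≤ e then z (δ - e) else _) = (if e ≤ e then z (δ - e) else _)
      rw [if_pos le_rfl]
      have e3 : δ - e = k0 := by omega
      rw [e3]; exact hk0'.2

/-- Squares of elements without fixed vertex have no fixed vertex. -/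
theorem sq_no_fix (hA : ∀ (g : G) {x y : T}, Adj x y → Adj (g • x) (g • y))
    (hinv : ∀ (g : G) {x y : T}, Adj x y → g • x = y → g • y = x → False) (b : G)
    (hb : ∀ x : T, b • x ≠ x) (x : T) : b • b • x ≠ x := by
  intro hbb
  obtain ⟨z, z0, z1, z2⟩ := R.exists_nb x (b • x)
  set N := R.dep x (b • x) with hN
  have hz' : NB Adj (fun i => b • z (N - i)) N := by
    constructor
    · intro i hi
      have e : N - i = N - (i+1) + 1 := by omega
      show Adj (b • z (N - i)) (b • z (N - (i+1)))
      rw [e]
      exact hA b (R.symm (z2.1 _ (by omega)))
    · intro i hi h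
      have h := smul_left_cancel b h
      apply z2.2 (N - (i+2)) (by omega)
      have e : N - (i+2) + 2 = N - i := by omega
      rw [e]; exact h.symm
  obtain ⟨-, hu⟩ := R.nb_unique z2 hz' (by simp only [Nat.sub_zero]; rw [z0, z1, hbb])
    (by simp only [Nat.sub_self]; rw [z0, z1])
  rcases Nat.even_or_odd' N with ⟨h, hh | hh⟩
  · have := hu h (by omega)
    have e : N - h = h := by omega
    simp only [e] at this
    exact hb _ this.symm
  · have a1 := hu h (by omega)
    have a2 := hu (h+1) (by omega)
    have e1 : N - h = h + 1 := by omega
    have e2 : N - (h+1) = h := by omega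
    simp only [e1] at a1
    simp only [e2] at a2
    exact hinv b (z2.1 h (by omega)) a2.symm a1.symm

/-- Main statement on elements whose conjugates commute. -/
theorem propH (hA : ∀ (g : G) {x y : T}, Adj x y → Adj (g • x) (g • y))
    (hinv : ∀ (g : G) {x y : T}, Adj x y → g • x = y → g • y = x → False)
    (hI : ∀ (g : G) (x : T), g • g • x = x → g • x = x) (hne : Nonempty T) (b : G)
    (hb : ∀ x : T, b • x ≠ x)
    (hcomm : ∀ (g : G) (x : T), b • (g * b * g⁻¹) • x = (g * b * g⁻¹) • b • x) :
    ∃ (D : ℕ) (w : ℕ → T), 1 ≤ D ∧ (∀ i, i < D → Adj (w i) (w (i+1))) ∧ w D = b • w 0 ∧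
      ∀ j, 2 ≤ j → j ≤ D → ∀ g : G, g • w 0 = w j → g • w 1 = w (j-1) → False := by
  classical
  -- minimal displacement
  have hex : ∃ n, ∃ x : T, R.dep x (b • x) = n := ⟨_, hne.some, rfl⟩
  obtain ⟨x, hx⟩ := Nat.find_spec hex
  set D := Nat.find hex with hD
  have hmin : ∀ y : T, D ≤ R.dep y (b • y) := fun y => Nat.find_min' hex ⟨y, rfl⟩
  have hD1 : 1 ≤ D := by
    rcases Nat.eq_zero_or_pos D with h | h
    · exfalso
      rw [h] at hx
      exact hb x (R.eq_of_dep hx)
    · exact h
  obtain ⟨z, z0, z1, z2⟩ := R.exists_nb x (b • x)
  rw [hx] at z1 z2
  -- periodic extension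
  let w : ℕ → T := fun k => b ^ (k / D) • z (k % D)
  have hwper : ∀ k, w (k + D) = b • w k := by
    intro k
    show b ^ ((k + D) / D) • z ((k + D) % D) = b • b ^ (k / D) • z (k % D)
    rw [Nat.add_div_right _ (by omega), Nat.add_mod_right, ← mul_smul, ← pow_succ']
  have hwz : ∀ k, k ≤ D → w k = z k := by
    intro k hk
    rcases Nat.lt_or_ge k D with h | h
    · show b ^ (k / D) • z (k % D) = z k
      rw [Nat.div_eq_of_lt h, Nat.mod_eq_of_lt h, pow_zero, one_smul]
    · have : k = D := by omega
      subst this
      show b ^ (D / D) • z (D % D) = z D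
      rw [Nat.div_self (by omega), Nat.mod_self, pow_one, z0, z1]
  have hw0 : w 0 = x := by rw [hwz 0 (by omega), z0]
  have hadj0 : ∀ i, i < D → Adj (w i) (w (i+1)) := by
    intro i hi
    rw [hwz i (by omega), hwz (i+1) (by omega)]
    exact z2.1 i hi
  have hwadj : ∀ i, Adj (w i) (w (i+1)) := by
    intro i
    induction i using Nat.strong_induction_on with
    | _ i ih =>
      rcases Nat.lt_or_ge i D with h | h
      · exact hadj0 i h
      · have e := ih (i - D) (by omega)
        have e1 : i = (i - D) + D := by omega
        have e2 : i + 1 = (i - D + 1) + D := by omega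
        rw [e2, hwper]
        conv_lhs => rw [e1, hwper]
        exact hA b e
  have hnb0 : ∀ i, i < D → w i ≠ w (i+2) := by
    intro i hi
    rcases Nat.lt_or_ge (i+1) D with h | h
    · rw [hwz i (by omega), hwz (i+2) (by omega)]
      exact z2.2 i (by omega)
    · have hi' : i = D - 1 := by omega
      intro hcon
      rcases Nat.lt_or_ge D 2 with h2 | h2
      · -- D = 1
        have hD' : D = 1 := by omega
        have hi0 : i = 0 := by omega
        rw [hi0] at hcon
        have e1 : w (0+1) = b • w 0 := by
          have := hwper 0
          rwa [hD'] at this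
        have e2 : w (0+2) = b • w (0+1) := by
          have := hwper (0+1)
          rw [hD'] at this
          exact this
        have a := hwadj 0
        exact hinv b a e1.symm (by rw [← e2]; exact hcon.symm)
      · have e1 : w (i+2) = b • w 1 := by
          have : i + 2 = 1 + D := by omega
          rw [this, hwper]
        have h3 : R.dep (w 1) (b • w 1) ≤ D - 2 := by
          have := R.dep_le (w := fun k => w (1 + k)) (n := D - 2) (fun k _ => hwadj (1 + k))
          have e2 : 1 + (D - 2) = i := by omega
          simp only [e2, add_zero] at this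
          rw [← e1, ← hcon]
          exact this
        have := hmin (w 1)
        omega
  have hwnb : ∀ i, w i ≠ w (i+2) := by
    intro i
    induction i using Nat.strong_induction_on with
    | _ i ih =>
      rcases Nat.lt_or_ge i D with h | h
      · exact hnb0 i h
      · have e := ih (i - D) (by omega)
        have e1 : i = (i - D) + D := by omega
        have e2 : i + 2 = (i - D + 2) + D := by omega
        intro hcon
        rw [e2, hwper] at hcon
        conv_lhs at hcon => rw [e1, hwper]
        exact e (smul_left_cancel b hcon)
  refine ⟨D, w, hD1, hadj0, by have := hwper 0; rwa [zero_add] at this, ?_⟩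
  intro j hj hjD g hg0 hg1
  -- claim: reflection
  have hclaim : ∀ m, m + 1 ≤ j → (g • w (m+1) = w (j - 1 - m) ∧ g • w m = w (j - m)) := by
    intro m
    induction m with
    | zero =>
      intro _
      exact ⟨by rw [zero_add, hg1]; rfl, by rw [hg0]; rfl⟩
    | succ m ih =>
      intro hm
      obtain ⟨i1, i2⟩ := ih (by omega)
      refine ⟨?_, by rw [i1]; congr 1; omega⟩
      -- P = w k = g w (m+1)
      obtain ⟨k, hk⟩ : ∃ k, j - 1 - m = k + 1 := ⟨j - 1 - m - 1, by omega⟩
      have hk' : j - 1 - (m+1) = k := by omega
      have hk'' : j - m = k + 2 := by omega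
      rw [hk']
      rw [hk] at i1
      rw [hk''] at i2
      by_contra hne'
      -- W1
      let W1 : ℕ → T := fun i => if i ≤ D then w (k + 1 + i) else b • g • w (m + 1 + (i - D))
      have hW1D : w (k + 1 + D) = b • g • w (m+1) := by rw [hwper, i1]
      have hNB1 : NB Adj W1 (2 * D) := by
        constructor
        · intro i hi
          show Adj (if i ≤ D then _ else _) (if i + 1 ≤ D then _ else _)
          by_cases h1 : i + 1 ≤ D
          · rw [if_pos (by omega), if_pos h1]
            exact hwadj _
          · by_cases h2 : i ≤ D
            · have h3 : i = D := by omega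
              rw [if_pos h2, if_neg h1, h3, hW1D]
              have e : D + 1 - D = 1 := by omega
              rw [e]
              exact hA b (hA g (hwadj _))
            · rw [if_neg h2, if_neg h1]
              have e : m + 1 + (i + 1 - D) = m + 1 + (i - D) + 1 := by omega
              rw [e]
              exact hA b (hA g (hwadj _))
        · intro i hi
          show (if i ≤ D then _ else _) ≠ (if i + 2 ≤ D then _ else _)
          by_cases h1 : i + 2 ≤ D
          · rw [if_pos (by omega), if_pos h1]
            exact hwnb _
          · by_cases h2 : i ≤ D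
            · rcases Nat.lt_or_ge i D with h3 | h3
              · -- i = D - 1
                have h4 : i + 1 = D := by omega
                rw [if_pos h2, if_neg h1]
                have e1 : k + 1 + i = k + D := by omega
                have e2 : m + 1 + (i + 2 - D) = m + 2 := by omega
                rw [e1, e2, hwper]
                intro hcon
                exact hne' (smul_left_cancel b hcon).symm
              · have h4 : i = D := by omega
                rw [if_pos h2, if_neg h1, h4, hW1D]
                have e : m + 1 + (D + 2 - D) = m + 1 + 2 := by omega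
                rw [e]
                intro hcon
                exact hwnb _ (smul_left_cancel g (smul_left_cancel b hcon))
            · rw [if_neg h2, if_neg h1]
              have e : m + 1 + (i + 2 - D) = m + 1 + (i - D) + 2 := by omega
              rw [e]
              intro hcon
              exact hwnb _ (smul_left_cancel g (smul_left_cancel b hcon))
      have hd1 := R.nb_dep hNB1 (2 * D) le_rfl
      have hW10 : W1 0 = w (k+1) := by
        show (if 0 ≤ D then _ else _) = _
        rw [if_pos (by omega)]
      have hW1e : W1 (2 * D) = b • (g * b * g⁻¹) • w (k+1) := by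
        show (if 2 * D ≤ D then _ else _) = _
        rw [if_neg (by omega)]
        have e : m + 1 + (2 * D - D) = m + 1 + D := by omega
        rw [e, hwper, ← i1, mul_smul, mul_smul, inv_smul_smul]
      rw [hW10, hW1e, hcomm] at hd1
      -- W2
      let W2 : ℕ → T := fun i => if i ≤ D - 1 then g • w (m + 1 + i)
        else (g * b * g⁻¹) • w (k + 2 + (i - (D - 1)))
      have hW2D : g • w (m + 1 + (D - 1)) = (g * b * g⁻¹) • w (k + 2) := by
        have e : m + 1 + (D - 1) = m + D := by omega
        rw [e, hwper, ← i2, mul_smul, mul_smul, inv_smul_smul]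
      have hadj2 : ∀ i, i < 2 * (D - 1) → Adj (W2 i) (W2 (i+1)) := by
        intro i hi
        show Adj (if i ≤ D - 1 then _ else _) (if i + 1 ≤ D - 1 then _ else _)
        by_cases h1 : i + 1 ≤ D - 1
        · rw [if_pos (by omega), if_pos h1]
          exact hA g (hwadj _)
        · by_cases h2 : i ≤ D - 1
          · have h3 : i = D - 1 := by omega
            rw [if_pos h2, if_neg h1, h3, hW2D]
            have e : D - 1 + 1 - (D - 1) = 1 := by omega
            rw [e]
            exact hA _ (hwadj _)
          · rw [if_neg h2, if_neg h1]
            have e : k + 2 + (i + 1 - (D - 1)) = k + 2 + (i - (D - 1)) + 1 := by omega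
            rw [e]
            exact hA _ (hwadj _)
      have hd2 := R.dep_le hadj2
      have hW20 : W2 0 = w (k+1) := by
        show (if 0 ≤ D - 1 then _ else _) = _
        rw [if_pos (by omega)]
        exact i1
      have hW2e : W2 (2 * (D - 1)) = (g * b * g⁻¹) • b • w (k+1) := by
        show (if 2 * (D - 1) ≤ D - 1 then _ else _) = _
        by_cases h1 : 2 * (D - 1) ≤ D - 1
        · have h2 : D = 1 := by omega
          rw [if_pos h1]
          have e : 2 * (D - 1) = D - 1 := by omega
          rw [e, hW2D]
          have e' : k + 2 = k + 1 + D := by omega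
          rw [e', hwper]
        · rw [if_neg h1]
          have e : k + 2 + (2 * (D - 1) - (D - 1)) = k + 1 + D := by omega
          rw [e, hwper]
      rw [hW20, hW2e] at hd2
      omega
  rcases Nat.even_or_odd' j with ⟨h, hh | hh⟩
  · -- j = 2h, h ≥ 1
    obtain ⟨a1, a2⟩ := hclaim h (by omega)
    have e1 : j - h = h := by omega
    have e2 : j - 1 - h = h - 1 := by omega
    rw [e2] at a1
    obtain ⟨a3, a4⟩ := hclaim (h-1) (by omega)
    have e3 : j - (h - 1) = h + 1 := by omega
    rw [e3] at a4
    have := hI g (w (h+1)) (by rw [a1, a4])
    rw [this] at a1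
    have e4 : h - 1 + 2 = h + 1 := by omega
    have := hwnb (h-1)
    rw [e4] at this
    exact this a1.symm
  · obtain ⟨a1, a2⟩ := hclaim h (by omega)
    have e1 : j - h = h + 1 := by omega
    have e2 : j - 1 - h = h := by omega
    rw [e2] at a1
    rw [e1] at a2
    exact hinv g (hwadj h) a2 a1

end RT

end DG
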