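import Pool.Agent.Lib.MP_f61096_al.Raw
import Pool.Agent.Lib.MP_f61096_al.Tree
import Pool.Agent.Lib.MP_f61096_al.Abs

section FileFT

/-! The tree of first tokens (MP_f61096_al). -/

namespace DG

universe u v

variable {α : Type u} {P : Pres.{u, v} α}

/-- A variant of `RT.walk_meets_fixed` allowing stationary steps. -/
theorem RT.walk_meets_fixed' {T : Type*} {Adj : T → T → Prop} (R : RT T Adj) {G : Type*} [Group G]
    [MulAction G T] (hA : ∀ (g : G) {x y : T}, Adj x y → Adj (g • x) (g • y)) (b : G) {x : T}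
    (hx : b • x = x) : ∀ (N : ℕ) (y : ℕ → T), (∀ i, i < N → y i = y (i+1) ∨ Adj (y i) (y (i+1))) →
      y N = b • y 0 → ∃ j, j ≤ N ∧ b • y j = y j := by
  intro N
  induction N with
  | zero =>
    intro y _ hend
    exact ⟨0, le_rfl, hend.symm⟩
  | succ N ih =>
    intro y hadj hend
    by_cases hst : ∃ i, i < N + 1 ∧ y i = y (i+1)
    · obtain ⟨i, hi, he⟩ := hst
      obtain ⟨j, hj, hfix⟩ := ih (fun k => if k ≤ i then y k else y (k+1))
        (by
          intro k hk
          by_cases h1 : k < i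
          · have e1 : k ≤ i := by omega
            have e2 : k + 1 ≤ i := by omega
            simp only [e1, e2, if_true]
            exact hadj k (by omega)
          · by_cases h2 : k = i
            · subst h2
              have e2 : ¬ (k + 1 ≤ k) := by omega
              simp only [le_refl, if_true, e2, if_false]
              rw [he]
              exact hadj (k+1) (by omega)
            · have e1 : ¬ k ≤ i := by omega
              have e2 : ¬ k + 1 ≤ i := by omega
              simp only [e1, e2, if_false]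
              exact hadj (k+1) (by omega))
        (by
          have e0 : (0 : ℕ) ≤ i := by omega
          simp only [e0, if_true]
          by_cases h : N ≤ i
          · have e : N = i := by omega
            simp only [h, if_true]
            rw [e, he]
            have : i + 1 = N + 1 := by omega
            rw [this]; exact hend
          · simp only [h, if_false]
            exact hend)
      by_cases h : j ≤ i
      · simp only [h, if_true] at hfix
        exact ⟨j, by omega, hfix⟩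
      · simp only [h, if_false] at hfix
        exact ⟨j + 1, by omega, hfix⟩
    · push Not at hst
      exact R.walk_meets_fixed hA b hx (N+1) y
        (fun i hi => (hadj i hi).resolve_left (hst i hi)) hend

/-! ### Generalities on words -/

theorem DE.src_ne (e : DE P) : e.src ≠ [] := by
  intro h
  unfold DE.src at h
  simp only [List.append_eq_nil_iff] at h
  exact P.side_ne _ _ h.1.2

theorem IsPath.ne_nil {q x : List α} {L : List (DE P)} (h : IsPath q L x) (hq : q ≠ []) :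
    x ≠ [] := by
  induction L generalizing q with
  | nil => simp only [IsPath] at h; rwa [← h]
  | cons e L ih => exact ih h.2 (by rw [← DE.inv_src]; exact DE.src_ne _)

theorem exists_head {q x : List α} {L : List (DE P)} (h : IsPath q L x) (hq : q ≠ []) :
    ∃ t, (act L (s0 P q)).head? = some t := by
  have h1 := (good_act h (good_s0 q)).length
  have h2 := h.ne_nil hq
  cases hS : act L (s0 P q) with
  | nil =>
    exfalso
    rw [hS] at h1
    exact h2 (List.length_eq_zero_iff.mp h1.symm)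
  | cons t S => exact ⟨t, rfl⟩

theorem ne_nil_of_head {q x : List α} {L : List (DE P)} {t : Tok P.ι} (h : IsPath q L x)
    (ht : (act L (s0 P q)).head? = some t) : q ≠ [] ∧ x ≠ [] := by
  have h1 := (good_act h (good_s0 q)).length
  have hx : x ≠ [] := by
    intro hx
    subst hx
    have : act L (s0 P q) = [] := List.length_eq_zero_iff.mp h1
    rw [this] at ht
    cases ht
  refine ⟨?_, hx⟩
  intro hq
  subst hq
  cases L with
  | nil => simp only [IsPath] at h; exact hx h.symm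
  | cons e L => exact DE.src_ne e h.1.symm

/-! ### First tokens -/

/-- `t` is the first token of a state reachable from the word `q`. -/
def FTok (P : Pres.{u, v} α) (q : List α) (t : Tok P.ι) : Prop :=
  ∃ L x, IsPath q L x ∧ (act L (s0 P q)).head? = some t

/-- Labelled adjacency of first tokens. -/
def LAdj (P : Pres.{u, v} α) (q : List α) (r : P.ι) (d : Bool) (b : List α) (t t' : Tok P.ι) :
    Prop :=
  ∃ L, IsPath q L (DE.src ⟨[], r, d, b⟩) ∧ (act L (s0 P q)).head? = some t ∧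
    (act (L ++ [⟨[], r, d, b⟩]) (s0 P q)).head? = some t'

theorem FTok.val {q : List α} {t : Tok P.ι} (h : FTok P q t) : Val P q t := by
  obtain ⟨L, x, h1, h2⟩ := h
  exact (good_act h1 (good_s0 q)).1 t (List.mem_of_mem_head? h2)

theorem LAdj.symm {q : List α} {r : P.ι} {d : Bool} {b : List α} {t t' : Tok P.ι}
    (h : LAdj P q r d b t t') : LAdj P q r (!d) b t' t := by
  obtain ⟨L, h1, h2, h3⟩ := h
  have hp : IsPath q (L ++ [⟨[], r, d, b⟩]) (DE.src ⟨[], r, !d, b⟩) :=
    h1.append ⟨rfl, rfl⟩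
  refine ⟨L ++ [⟨[], r, d, b⟩], hp, h3, ?_⟩
  rw [act_append, act_append, act_cons, act_nil]
  have hg := good_act h1 (good_s0 q)
  have := act1_inv hg
  rw [act_cons, act_nil]
  have e : (⟨[], r, !d, b⟩ : DE P) = DE.inv ⟨[], r, d, b⟩ := rfl
  rw [e, this]
  exact h2

theorem LAdj.left {q : List α} {r : P.ι} {d : Bool} {b : List α} {t t' : Tok P.ι}
    (h : LAdj P q r d b t t') : FTok P q t := by
  obtain ⟨L, h1, h2, h3⟩ := h
  exact ⟨L, _, h1, h2⟩

theorem LAdj.right {q : List α} {r : P.ι} {d : Bool} {b : List α} {t t' : Tok P.ι}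
    (h : LAdj P q r d b t t') : FTok P q t' := h.symm.left

theorem LAdj.struct {q : List α} {r : P.ι} {d : Bool} {b : List α} {t t' : Tok P.ι}
    (h : LAdj P q r d b t t') : (∃ c, t' = .made r d c 0 ∧ c.head? = some t) ∨
      (∃ c, t = .made r (!d) c 0 ∧ c.head? = some t') := by
  obtain ⟨L, h1, h2, h3⟩ := h
  have hg := good_act h1 (good_s0 (P := P) q)
  obtain ⟨c, S₂, e1, g1, g2, e2⟩ := act1_left hg rfl
  simp only at g1 g2 e2
  rw [act_append, act_cons, act_nil, e2] at h3
  rw [e1] at h2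
  have hc : c ≠ [] := by
    intro h
    rw [h] at g1
    exact P.side_ne r d (List.length_eq_zero_iff.mp g1.length.symm)
  obtain ⟨t0, c', rfl⟩ := List.exists_cons_of_ne_nil hc
  simp only [List.cons_append, List.head?_cons, Option.some.injEq] at h2
  subst h2
  by_cases hn : ∃ c'', t0 :: c' = block P r (!d) c''
  · right
    obtain ⟨c'', hc''⟩ := hn
    rw [hc'', cs_block] at h3
    obtain ⟨l, hl⟩ := block_cons r (!d) c''
    rw [hl] at hc''
    simp only [List.cons.injEq] at hc''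
    refine ⟨c'', hc''.1, ?_⟩
    have hv : ∀ t ∈ block P r (!d) c'', Val P q t := by
      intro t ht
      apply g1.1
      rw [hc''.1, hc''.2, ← hl]
      exact ht
    have hlen := (good_unblock hv).1.length
    cases c'' with
    | nil =>
      exfalso
      exact P.side_ne r (!d) (List.length_eq_zero_iff.mp hlen.symm)
    | cons a l' => exact h3
  · left
    rw [cs_of_not hn] at h3
    obtain ⟨l, hl⟩ := block_cons r d (t0 :: c')
    rw [hl] at h3
    simp only [List.cons_append, List.head?_cons, Option.some.injEq] at h3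
    exact ⟨t0 :: c', h3.symm, rfl⟩

/-- Depth of a token. -/
noncomputable def depth {ι : Type v} : Tok ι → ℕ
  | .orig _ => 0
  | .mk _ _ n c _ => if h : 0 < n then depth (c ⟨0, h⟩) + 1 else 0

theorem depth_orig {ι : Type v} (n : ℕ) : depth (.orig n : Tok ι) = 0 := by
  simp [depth]

theorem depth_made {ι : Type v} {r : ι} {d : Bool} {c : List (Tok ι)} {j : ℕ} {t : Tok ι}
    (h : c.head? = some t) : depth (.made r d c j) = depth t + 1 := by
  cases c with
  | nil => cases h
  | cons a l =>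
    simp only [List.head?_cons, Option.some.injEq] at h
    subst h
    unfold Tok.made
    rw [depth]
    simp

theorem LAdj.depth {q : List α} {r : P.ι} {d : Bool} {b : List α} {t t' : Tok P.ι}
    (h : LAdj P q r d b t t') : DG.depth t' = DG.depth t + 1 ∨ DG.depth t = DG.depth t' + 1 := by
  rcases h.struct with ⟨c, rfl, hc⟩ | ⟨c, rfl, hc⟩
  · left; exact depth_made hc
  · right; exact depth_made hc

/-- The chain of ancestors of a first token. -/
inductive Chain (P : Pres.{u, v} α) (q : List α) : Tok P.ι → Prop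
  | base : Chain P q (.orig 0)
  | step {r : P.ι} {d : Bool} {c : List (Tok P.ι)} {t : Tok P.ι} {b : List α} :
      c.head? = some t → LAdj P q r d b t (.made r d c 0) → Chain P q t →
      Chain P q (.made r d c 0)

theorem chain_made {q : List α} {r : P.ι} {d : Bool} {c : List (Tok P.ι)}
    (h : Chain P q (.made r d c 0)) : ∃ t b, c.head? = some t ∧
      LAdj P q r d b t (.made r d c 0) ∧ Chain P q t := by
  generalize ht : Tok.made r d c 0 = t at h
  cases h with
  | base => exact absurd ht made_ne_orig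
  | step h1 h2 h3 =>
    have e := ht
    rw [made_inj] at e
    obtain ⟨rfl, rfl, rfl, -⟩ := e
    exact ⟨_, _, h1, h2, h3⟩

theorem chain_of {q : List α} (L : List (DE P)) : ∀ {x : List α} {t : Tok P.ι}, IsPath q L x →
    (act L (s0 P q)).head? = some t → Chain P q t := by
  induction L using List.reverseRecOn with
  | nil =>
    intro x t hL ht
    obtain ⟨hq, -⟩ := ne_nil_of_head hL ht
    obtain ⟨y, q', rfl⟩ := List.exists_cons_of_ne_nil hq
    rw [act_nil, s0_cons_head] at ht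
    cases ht
    exact .base
  | append_singleton L₀ e ih =>
    intro x t hL ht
    obtain ⟨m, hL₀, hm, hx⟩ := isPath_append.mp hL
    subst hm
    have hg := good_act hL₀ (good_s0 (P := P) q)
    by_cases ha : e.a = []
    · obtain ⟨t0, ht0⟩ := exists_head hL₀ (ne_nil_of_head hL ht).1
      have hch := ih hL₀ ht0
      obtain ⟨a, r, d, b⟩ := e
      simp only at ha
      subst ha
      have hadj : LAdj P q r d b t0 t := ⟨L₀, hL₀, ht0, ht⟩
      rcases hadj.struct with ⟨c, rfl, hc⟩ | ⟨c, rfl, hc⟩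
      · exact .step hc hadj hch
      · obtain ⟨t1, b1, h1, h2, h3⟩ := chain_made hch
        rw [hc, Option.some.injEq] at h1
        rw [h1]; exact h3
    · rw [act_append, act_cons, act_nil, act1_head_of_ne hg ha] at ht
      exact ih hL₀ ht

theorem FTok.chain {q : List α} {t : Tok P.ι} (h : FTok P q t) : Chain P q t := by
  obtain ⟨L, x, h1, h2⟩ := h
  exact chain_of L h1 h2

theorem FTok.parent {q : List α} {t : Tok P.ι} (h : FTok P q t) (hne : t ≠ .orig 0) :
    ∃ r d b z, LAdj P q r d b t z ∧ DG.depth z + 1 = DG.depth t := by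
  cases h.chain with
  | base => exact absurd rfl hne
  | @step r d c t' b h1 h2 h3 =>
    exact ⟨r, !d, b, t', h2.symm, (depth_made h1).symm⟩

theorem FTok.depth_zero {q : List α} {t : Tok P.ι} (h : FTok P q t) (hd : DG.depth t = 0) :
    t = .orig 0 := by
  by_contra hne
  obtain ⟨r, d, b, z, h1, h2⟩ := h.parent hne
  omega

theorem LAdj.lower {q : List α} {r : P.ι} {d : Bool} {b : List α} {t t' : Tok P.ι}
    (h : LAdj P q r d b t t') (hd : DG.depth t' < DG.depth t) :
    ∃ c, t = .made r (!d) c 0 ∧ c.head? = some t' := by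
  rcases h.struct with ⟨c, rfl, hc⟩ | h
  · have := depth_made (r := r) (d := d) (j := 0) hc
    omega
  · exact h

section transport

variable {w x : List α} {Γ : List (DE P)}

theorem FTok.tr (hΓ : IsPath w Γ x) {t : Tok P.ι} (h : FTok P x t) : FTok P w (DG.tr w Γ t) := by
  obtain ⟨L, y, h1, h2⟩ := h
  refine ⟨Γ ++ L, y, hΓ.append h1, ?_⟩
  rw [act_tr hΓ h1, List.head?_map, h2]
  rfl

theorem LAdj.tr (hΓ : IsPath w Γ x) {r : P.ι} {d : Bool} {b : List α} {t t' : Tok P.ι}
    (h : LAdj P x r d b t t') : LAdj P w r d b (DG.tr w Γ t) (DG.tr w Γ t') := by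
  obtain ⟨L, h1, h2, h3⟩ := h
  refine ⟨Γ ++ L, hΓ.append h1, ?_, ?_⟩
  · rw [act_tr hΓ h1, List.head?_map, h2]; rfl
  · have hp : IsPath x (L ++ [⟨[], r, d, b⟩]) (DE.tgt ⟨[], r, d, b⟩) := h1.append ⟨rfl, rfl⟩
    rw [List.append_assoc, act_tr hΓ hp, List.head?_map, h3]; rfl

theorem tr_inj (hΓ : IsPath w Γ x) {t t' : Tok P.ι} (h : Val P x t) (h' : Val P x t')
    (e : DG.tr w Γ t = DG.tr w Γ t') : t = t' := by
  rw [← tr_inv_left hΓ h, ← tr_inv_left hΓ h', e]

/-- The first token is the translate of `orig 0`. -/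
theorem tr_orig_zero (hΓ : IsPath w Γ x) {t : Tok P.ι}
    (h : (act Γ (s0 P w)).head? = some t) : DG.tr w Γ (.orig 0) = t := by
  obtain ⟨-, hx⟩ := ne_nil_of_head hΓ h
  obtain ⟨y, q', rfl⟩ := List.exists_cons_of_ne_nil hx
  have e := act_tr hΓ (isPath_nil (P := P) (y :: q'))
  rw [List.append_nil, act_nil] at e
  rw [e, List.head?_map, s0_cons_head] at h
  simpa using h

theorem ftok_zero {q : List α} (hq : q ≠ []) : FTok P q (.orig 0) := by
  obtain ⟨y, q', rfl⟩ := List.exists_cons_of_ne_nil hq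
  exact ⟨[], _, isPath_nil _, s0_cons_head y q'⟩

end transport

/-- Vertices of the tree of first tokens. -/
def FT (P : Pres.{u, v} α) (q : List α) := {t : Tok P.ι // FTok P q t}

/-- Adjacency. -/
def FAdj (P : Pres.{u, v} α) (q : List α) (x y : FT P q) : Prop :=
  ∃ r d b, LAdj P q r d b x.1 y.1

section tree

variable {q : List α}

/-- A path leading to a given first token. -/
noncomputable def pth (x : FT P q) : List (DE P) := x.2.choose

/-- Its final word. -/
noncomputable def pend (x : FT P q) : List α := x.2.choose_spec.choose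

theorem pth_isPath (x : FT P q) : IsPath q (pth x) (pend x) := x.2.choose_spec.choose_spec.1

theorem pth_head (x : FT P q) : (act (pth x) (s0 P q)).head? = some x.1 :=
  x.2.choose_spec.choose_spec.2

theorem tr_pth (x : FT P q) : tr (pend x) (invL (pth x)) x.1 = .orig 0 := by
  have h := tr_orig_zero (pth_isPath x) (pth_head x)
  have hv : Val P (pend x) (.orig 0) :=
    (ftok_zero (ne_nil_of_head (pth_isPath x) (pth_head x)).2).val
  rw [← h, tr_inv_left (pth_isPath x) hv]

/-- The tree structure. -/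
noncomputable def ftree (P : Pres.{u, v} α) (q : List α) : RT (FT P q) (FAdj P q) where
  symm := by
    rintro x y ⟨r, d, b, h⟩
    exact ⟨r, !d, b, h.symm⟩
  dep x y := depth (tr (pend x) (invL (pth x)) y.1)
  dep_self x := by
    show depth (tr (pend x) (invL (pth x)) x.1) = 0
    rw [tr_pth]
    exact depth_orig 0
  eq_of_dep := by
    intro x y h
    have hp := pth_isPath x
    have h1 : FTok P (pend x) (tr (pend x) (invL (pth x)) y.1) := y.2.tr hp.inv
    have h2 := h1.depth_zero h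
    rw [← tr_pth x] at h2
    exact Subtype.ext (tr_inj hp.inv y.2.val x.2.val h2)
  dep_adj := by
    rintro x y z ⟨r, d, b, h⟩
    exact (h.tr (pth_isPath x).inv).depth
  parent_unique := by
    rintro x y z z' ⟨r, d, b, h⟩ ⟨r', d', b', h'⟩ hd hd'
    have hp := (pth_isPath x).inv
    obtain ⟨c, e1, e2⟩ := (h.tr hp).lower hd
    obtain ⟨c', e1', e2'⟩ := (h'.tr hp).lower hd'
    rw [e1] at e1'
    simp only [made_inj] at e1'
    rw [e1'.2.2.1, e2', Option.some.injEq] at e2
    exact Subtype.ext (tr_inj hp z.2.val z'.2.val e2.symm)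
  parent_exists := by
    intro x y hne
    have hp := pth_isPath x
    have h1 : FTok P (pend x) (tr (pend x) (invL (pth x)) y.1) := y.2.tr hp.inv
    have h2 : tr (pend x) (invL (pth x)) y.1 ≠ .orig 0 := by
      intro h
      rw [← tr_pth x] at h
      exact hne (Subtype.ext (tr_inj hp.inv y.2.val x.2.val h))
    obtain ⟨r, d, b, z, h3, h4⟩ := h1.parent h2
    have h5 := h3.tr hp
    rw [tr_inv_right hp y.2.val] at h5
    refine ⟨⟨tr q (pth x) z, h5.right⟩, ⟨r, d, b, h5⟩, ?_⟩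
    show depth (tr (pend x) (invL (pth x)) (tr q (pth x) z)) + 1 = _
    rw [tr_inv_left hp h3.right.val, h4]

/-- Action on tokens. -/
noncomputable def trD (g : DiagramGroup P q) : Tok P.ι → Tok P.ι :=
  Quotient.lift (s := loopSetoid P q) (fun Γ => tr q Γ.1) (fun _ _ h => tr_hty h) g

theorem trD_mk (L : List (DE P)) (hL : IsPath q L q) : trD (DiagramGroup.mk L hL) = tr q L := rfl

noncomputable instance : MulAction (DiagramGroup P q) (FT P q) where
  smul g x := ⟨trD g x.1, by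
    induction g using DiagramGroup.ind with | _ L hL
    exact x.2.tr hL⟩
  one_smul x := by
    apply Subtype.ext
    show trD (1 : DiagramGroup P q) x.1 = x.1
    rw [DiagramGroup.one_def, trD_mk]
    exact tr_nil x.2.val
  mul_smul g h x := by
    apply Subtype.ext
    induction g using DiagramGroup.ind with | _ L hL
    induction h using DiagramGroup.ind with | _ M hM
    show trD (DiagramGroup.mk L hL * DiagramGroup.mk M hM) x.1 = tr q L (tr q M x.1)
    rw [DiagramGroup.mk_mul, trD_mk, tr_tr hL hM x.2.val]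

theorem smul_val (L : List (DE P)) (hL : IsPath q L q) (x : FT P q) :
    (DiagramGroup.mk L hL • x).1 = tr q L x.1 := rfl

theorem fadj_smul (g : DiagramGroup P q) {x y : FT P q} (h : FAdj P q x y) :
    FAdj P q (g • x) (g • y) := by
  induction g using DiagramGroup.ind with | _ L hL
  obtain ⟨r, d, b, h⟩ := h
  exact ⟨r, d, b, h.tr hL⟩

theorem ladj_unique {r r' : P.ι} {d d' : Bool} {b b' : List α} {t t' : Tok P.ι}
    (h : LAdj P q r d b t t') (h' : LAdj P q r' d' b' t t') : r = r' ∧ d = d' := by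
  rcases h.depth with h1 | h1
  · obtain ⟨c, e1, e2⟩ := h.symm.lower (by omega)
    obtain ⟨c', e1', e2'⟩ := h'.symm.lower (by omega)
    rw [e1] at e1'
    simp only [made_inj, Bool.not_not] at e1'
    exact ⟨e1'.1, e1'.2.1⟩
  · obtain ⟨c, e1, e2⟩ := h.lower (by omega)
    obtain ⟨c', e1', e2'⟩ := h'.lower (by omega)
    rw [e1] at e1'
    simp only [made_inj, Bool.not_inj_iff] at e1'
    exact ⟨e1'.1, e1'.2.1⟩

theorem fadj_no_inv (g : DiagramGroup P q) {x y : FT P q} (h : FAdj P q x y) (hxy : g • x = y)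
    (hyx : g • y = x) : False := by
  induction g using DiagramGroup.ind with | _ L hL
  obtain ⟨r, d, b, h⟩ := h
  have h1 := h.tr hL
  have e1 : tr q L x.1 = y.1 := congrArg Subtype.val hxy
  have e2 : tr q L y.1 = x.1 := congrArg Subtype.val hyx
  rw [e1, e2] at h1
  have := (ladj_unique h1 h.symm).2
  cases d <;> simp at this

/-- The loop `b` fixes no first token. -/
def NoFix (P : Pres.{u, v} α) (q : List α) (b : List (DE P)) : Prop :=
  ∀ t, FTok P q t → tr q b t ≠ t

theorem NoFix.sq {b : List (DE P)} (hb : IsPath q b q) (h : NoFix P q b) :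
    NoFix P q (b ++ b) := by
  intro t ht hfix
  have := (ftree P q).sq_no_fix (fun g _ _ h => fadj_smul g h)
    (fun g _ _ h => fadj_no_inv g h) (DiagramGroup.mk b hb)
    (fun x hx => h x.1 x.2 (congrArg Subtype.val hx)) ⟨t, ht⟩
  apply this
  apply Subtype.ext
  rw [← tr_tr hb hb ht.val] at hfix
  exact hfix

theorem NoFix.conj {q' : List α} {b ν : List (DE P)} (hb : IsPath q b q) (hν : IsPath q ν q')
    (h : NoFix P q b) : NoFix P q' (invL ν ++ b ++ ν) := by
  intro t ht hfix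
  apply h (tr q ν t) (ht.tr hν)
  have e := congrArg (tr q ν) hfix
  rw [← tr_tr (hν.inv.append hb) hν ht.val, ← tr_tr hν.inv hb (ht.tr hν).val,
    tr_inv_right hν ((ht.tr hν).tr hb).val] at e
  exact e

theorem NoFix.congr {b b' : List (DE P)} (hbb : Hty q q b b')
    (h : NoFix P q b) : NoFix P q b' := by
  intro t ht
  rw [← tr_hty hbb]
  exact h t ht

/-- A loop fixing a first token fixes one of the first tokens it goes through. -/
theorem walk_fixed {b : List (DE P)} (hb : IsPath q b q) {t : Tok P.ι} (ht : FTok P q t)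
    (hfix : tr q b t = t) : ∃ b₁ b₂ t', b = b₁ ++ b₂ ∧ (act b₁ (s0 P q)).head? = some t' ∧
      tr q b t' = t' := by
  have hq : q ≠ [] := by
    obtain ⟨L, x, h1, h2⟩ := ht
    exact (ne_nil_of_head h1 h2).1
  have hsplit : ∀ i, ∃ x, IsPath q (b.take i) x ∧ IsPath x (b.drop i) q := by
    intro i
    have : IsPath q (b.take i ++ b.drop i) q := by rwa [List.take_append_drop]
    exact isPath_append.mp this
  choose X hX hX' using hsplit
  have hhd : ∀ i, ∃ t, (act (b.take i) (s0 P q)).head? = some t :=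
    fun i => exists_head (hX i) hq
  choose y hy using hhd
  let Y : ℕ → FT P q := fun i => ⟨y i, b.take i, X i, hX i, hy i⟩
  obtain ⟨j, hj, hfixj⟩ := (ftree P q).walk_meets_fixed' (fun g _ _ h => fadj_smul g h)
    (DiagramGroup.mk b hb) (x := ⟨t, ht⟩) (Subtype.ext hfix) b.length Y (by
      intro i hi
      have e1 : b.take (i+1) = b.take i ++ [b[i]] := by
        rw [List.take_succ_eq_append_getElem hi]
      have hp := hX (i+1)
      rw [e1] at hp
      obtain ⟨m, hp1, hp2, hp3⟩ := isPath_append.mp hp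
      subst hp2
      have hyi := hy (i+1)
      rw [e1] at hyi
      generalize hbi : b[i] = e at hyi hp1
      by_cases ha : e.a = []
      · right
        obtain ⟨a, r, d, c⟩ := e
        simp only at ha
        subst ha
        exact ⟨r, d, c, b.take i, hp1, hy i, hyi⟩
      · left
        apply Subtype.ext
        have hg := good_act hp1 (good_s0 (P := P) q)
        rw [act_append, act_cons, act_nil, act1_head_of_ne hg ha, hy i, Option.some.injEq] at hyi
        exact hyi)
    (by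
      apply Subtype.ext
      show y b.length = tr q b (y 0)
      have h0 := hy 0
      rw [List.take_zero, act_nil] at h0
      have h1 := hy b.length
      rw [List.take_length] at h1
      obtain ⟨z, q', rfl⟩ := List.exists_cons_of_ne_nil hq
      rw [s0_cons_head, Option.some.injEq] at h0
      rw [← h0]
      exact (tr_orig_zero hb h1).symm)
  exact ⟨b.take j, b.drop j, y j, (List.take_append_drop _ _).symm, hy j,
    congrArg Subtype.val hfixj⟩

end tree

end DG

end FileFT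

section FileCuts

/-! Cuts (MP_f61096_al). -/

namespace DG

universe u v

variable {α : Type u} {P : Pres.{u, v} α}

/-! ### Parallel composition -/

/-- Parallel composition of `μ : p → p'` and `ν : q → q'`. -/
def pl (p' q : List α) (μ ν : List (DE P)) : List (DE P) := wr q μ ++ wl p' ν

section pl

variable {p p' p'' q q' q'' : List α} {μ μ' ν ν' : List (DE P)}

theorem pl_isPath (hμ : IsPath p μ p') (hν : IsPath q ν q') :
    IsPath (p ++ q) (pl p' q μ ν) (p' ++ q') := (hμ.wr q).append (hν.wl p')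

theorem pl_hty (hμ : Hty p p' μ μ') (hν : Hty q q' ν ν') :
    Hty (p ++ q) (p' ++ q') (pl p' q μ ν) (pl p' q μ' ν') :=
  (hμ.wr q).append (hν.wl p')

theorem pl_nil : pl p q ([] : List (DE P)) [] = [] := by simp [pl]

theorem pl_left (ν : List (DE P)) : pl p q [] ν = wl p ν := by simp [pl]

theorem pl_right (μ : List (DE P)) : pl p q μ [] = wr q μ := by simp [pl]

theorem pl_append (hμ : IsPath p μ p') (hμ' : IsPath p' μ' p'') (hν : IsPath q ν q')
    (hν' : IsPath q' ν' q'') :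
    Hty (p ++ q) (p'' ++ q'') (pl p' q μ ν ++ pl p'' q' μ' ν') (pl p'' q (μ ++ μ') (ν ++ ν')) := by
  have h1 := (Hty.exchange hμ' hν).symm
  have h2 := (Hty.append_left (hμ.wr q) h1).append_right (hν'.wl p'')
  unfold pl
  rw [wr_append, wl_append]
  simp only [List.append_assoc] at h2 ⊢
  exact h2

theorem pl_inv (hμ : IsPath p μ p') (hν : IsPath q ν q') :
    Hty (p' ++ q') (p ++ q) (invL (pl p' q μ ν)) (pl p q' (invL μ) (invL ν)) := by
  unfold pl
  rw [invL_append, invL_wl, invL_wr]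
  exact (Hty.exchange hμ.inv hν.inv).symm

end pl

/-! ### Conjugates -/

namespace DiagramGroup

variable {w x y : List α}

/-- The class of `Γ L Γ⁻¹`. -/
def cj (Γ L : List (DE P)) (hΓ : IsPath w Γ x) (hL : IsPath x L x) : DiagramGroup P w :=
  mk (Γ ++ L ++ invL Γ) ((hΓ.append hL).append hΓ.inv)

theorem cj_congr {Γ L L' : List (DE P)} (hΓ : IsPath w Γ x) (h : Hty x x L L') :
    cj Γ L hΓ h.left = cj Γ L' hΓ h.right := by
  unfold cj
  rw [mk_eq]
  exact (Hty.append_left hΓ h).append_right hΓ.inv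

theorem cj_hty {Γ Γ' L : List (DE P)} (h : Hty w x Γ Γ') (hL : IsPath x L x) :
    cj Γ L h.left hL = cj Γ' L h.right hL := by
  unfold cj
  rw [mk_eq]
  exact (h.append_right hL).append h.inv

theorem cj_mul {Γ L L' : List (DE P)} (hΓ : IsPath w Γ x) (hL : IsPath x L x)
    (hL' : IsPath x L' x) : cj Γ L hΓ hL * cj Γ L' hΓ hL' = cj Γ (L ++ L') hΓ (hL.append hL') := by
  unfold cj
  rw [mk_mul, mk_eq]
  have h1 := ((Hty.append_left (hΓ.append hL) (Hty.inv_append hΓ)).append_right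
    (hL'.append hΓ.inv))
  rw [List.append_nil] at h1
  simp only [List.append_assoc] at h1 ⊢
  exact h1

theorem cj_inv {Γ L : List (DE P)} (hΓ : IsPath w Γ x) (hL : IsPath x L x) :
    (cj Γ L hΓ hL)⁻¹ = cj Γ (invL L) hΓ hL.inv := by
  unfold cj
  rw [mk_inv]
  congr 1
  simp

theorem cj_move {Γ ρ L : List (DE P)} (hΓ : IsPath w Γ x) (hρ : IsPath x ρ y)
    (hL : IsPath y L y) :
    cj (Γ ++ ρ) L (hΓ.append hρ) hL = cj Γ (ρ ++ L ++ invL ρ) hΓ ((hρ.append hL).append hρ.inv) := by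
  unfold cj
  congr 1
  simp

theorem mk_conj {Δ Γ L : List (DE P)} (hΔ : IsPath w Δ w) (hΓ : IsPath w Γ x)
    (hL : IsPath x L x) :
    mk Δ hΔ * cj Γ L hΓ hL * (mk Δ hΔ)⁻¹ = cj (Δ ++ Γ) L (hΔ.append hΓ) hL := by
  unfold cj
  rw [mk_inv, mk_mul, mk_mul]
  congr 1
  simp

theorem cj_nil_one {Γ : List (DE P)} (hΓ : IsPath w Γ x) : cj Γ [] hΓ (isPath_nil x) = 1 := by
  unfold cj
  rw [one_def, mk_eq, List.append_nil]
  exact Hty.append_inv hΓ

theorem cj_inj {Γ L L' : List (DE P)} (hΓ : IsPath w Γ x) (hL : IsPath x L x)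
    (hL' : IsPath x L' x) (h : cj Γ L hΓ hL = cj Γ L' hΓ hL') : Hty x x L L' := by
  unfold cj at h
  rw [mk_eq] at h
  have h1 := (Hty.append_left hΓ.inv h).append_right hΓ
  have key : ∀ M : List (DE P), IsPath x M x →
      Hty x x (invL Γ ++ (Γ ++ M ++ invL Γ) ++ Γ) M := by
    intro M hM
    have a1 := (Hty.inv_append hΓ).append_right (hM.append (hΓ.inv.append hΓ))
    have a2 := Hty.append_left hM (Hty.inv_append hΓ)
    rw [List.append_nil] at a2
    rw [List.nil_append] at a1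
    have a3 := a1.trans a2
    simp only [List.append_assoc] at a3 ⊢
    exact a3
  exact (key L hL).symm.trans (h1.trans (key L' hL'))

theorem cj_surj {Δ Γ : List (DE P)} (hΔ : IsPath w Δ w) (hΓ : IsPath w Γ x) :
    mk Δ hΔ = cj Γ (invL Γ ++ Δ ++ Γ) hΓ ((hΓ.inv.append hΔ).append hΓ) := by
  unfold cj
  rw [mk_eq]
  have a1 := (Hty.append_inv hΓ).append_right (hΔ.append (hΓ.append hΓ.inv))
  have a2 := Hty.append_left hΔ (Hty.append_inv hΓ)
  rw [List.append_nil] at a2
  rw [List.nil_append] at a1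
  have a3 := a1.trans a2
  simp only [List.append_assoc] at a3 ⊢
  exact a3.symm

theorem cj_commute {Γ L L' : List (DE P)} (hΓ : IsPath w Γ x) (hL : IsPath x L x)
    (hL' : IsPath x L' x) : Commute (cj Γ L hΓ hL) (cj Γ L' hΓ hL') ↔
      Hty x x (L ++ L') (L' ++ L) := by
  unfold Commute SemiconjBy
  rw [cj_mul, cj_mul]
  constructor
  · exact cj_inj hΓ _ _
  · intro h
    exact cj_congr hΓ h

end DiagramGroup

/-! ### Cuts -/

/-- Representatives of cuts of `w`. -/
structure PreCut (P : Pres.{u, v} α) (w : List α) where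
  L : List (DE P)
  p : List α
  q : List α
  isPath : IsPath w L (p ++ q)

variable {w : List α}

/-- Equivalence of representatives. -/
def cutRel (x y : PreCut P w) : Prop :=
  ∃ μ ν, IsPath x.p μ y.p ∧ IsPath x.q ν y.q ∧ Hty w (y.p ++ y.q) (x.L ++ pl y.p x.q μ ν) y.L

theorem cutRel_refl (x : PreCut P w) : cutRel x x :=
  ⟨[], [], isPath_nil _, isPath_nil _, by rw [pl_nil, List.append_nil]; exact .refl x.isPath⟩

theorem cutRel_symm {x y : PreCut P w} (h : cutRel x y) : cutRel y x := by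
  obtain ⟨μ, ν, h1, h2, h3⟩ := h
  refine ⟨invL μ, invL ν, h1.inv, h2.inv, ?_⟩
  have a1 : Hty w (x.p ++ x.q) (x.L ++ pl y.p x.q μ ν ++ pl x.p y.q (invL μ) (invL ν))
      (y.L ++ pl x.p y.q (invL μ) (invL ν)) := h3.append_right (pl_isPath h1.inv h2.inv)
  have a2 : Hty w (x.p ++ x.q) (x.L ++ (pl y.p x.q μ ν ++ pl x.p y.q (invL μ) (invL ν)))
      (x.L ++ (pl y.p x.q μ ν ++ invL (pl y.p x.q μ ν))) :=
    Hty.append_left x.isPath (Hty.append_left (pl_isPath h1 h2) (pl_inv h1 h2).symm)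
  have a3 : Hty w (x.p ++ x.q) (x.L ++ (pl y.p x.q μ ν ++ invL (pl y.p x.q μ ν))) (x.L ++ []) :=
    Hty.append_left x.isPath (Hty.append_inv (pl_isPath h1 h2))
  rw [List.append_nil] at a3
  rw [List.append_assoc] at a1
  exact a1.symm.trans (a2.trans a3)

theorem cutRel_trans {x y z : PreCut P w} (h : cutRel x y) (h' : cutRel y z) : cutRel x z := by
  obtain ⟨μ, ν, h1, h2, h3⟩ := h
  obtain ⟨μ', ν', h1', h2', h3'⟩ := h'
  refine ⟨μ ++ μ', ν ++ ν', h1.append h1', h2.append h2', ?_⟩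
  have a1 := Hty.append_left x.isPath (pl_append h1 h1' h2 h2')
  have a2 := h3.append_right (pl_isPath h1' h2')
  rw [List.append_assoc] at a2
  exact a1.symm.trans (a2.trans h3')

/-- Cuts. -/
def cutSetoid (P : Pres.{u, v} α) (w : List α) : Setoid (PreCut P w) where
  r := cutRel
  iseqv := ⟨cutRel_refl, cutRel_symm, cutRel_trans⟩

/-- The set of cuts of `w`. -/
def Cut (P : Pres.{u, v} α) (w : List α) := Quotient (cutSetoid P w)

/-- The cut given by a representative. -/
def cut (L : List (DE P)) (p q : List α) (h : IsPath w L (p ++ q)) : Cut P w :=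
  Quotient.mk (cutSetoid P w) ⟨L, p, q, h⟩

theorem cut_eq {L L' : List (DE P)} {p q p' q' : List α} {h : IsPath w L (p ++ q)}
    {h' : IsPath w L' (p' ++ q')} : cut L p q h = cut L' p' q' h' ↔
      ∃ μ ν, IsPath p μ p' ∧ IsPath q ν q' ∧ Hty w (p' ++ q') (L ++ pl p' q μ ν) L' := by
  constructor
  · intro e; exact Quotient.exact e
  · intro e; exact Quotient.sound (s := cutSetoid P w) e

theorem cut_ind {C : Cut P w → Prop} (h : ∀ L p q hL, C (cut L p q hL)) (v : Cut P w) : C v := by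
  induction v using Quotient.inductionOn with
  | _ x => exact h x.L x.p x.q x.isPath

theorem cut_hty {L L' : List (DE P)} {p q : List α} (h : Hty w (p ++ q) L L') :
    cut L p q h.left = cut L' p q h.right := by
  rw [cut_eq]
  exact ⟨[], [], isPath_nil _, isPath_nil _, by rw [pl_nil, List.append_nil]; exact h⟩

theorem cut_pl {L μ ν : List (DE P)} {p q p' q' : List α} (h : IsPath w L (p ++ q))
    (hμ : IsPath p μ p') (hν : IsPath q ν q') :
    cut (L ++ pl p' q μ ν) p' q' (h.append (pl_isPath hμ hν)) = cut L p q h := by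
  symm
  rw [cut_eq]
  exact ⟨μ, ν, hμ, hν, .refl (h.append (pl_isPath hμ hν))⟩

theorem cut_wl {L ν : List (DE P)} {p q q' : List α} (h : IsPath w L (p ++ q))
    (hν : IsPath q ν q') :
    cut (L ++ wl p ν) p q' (h.append (hν.wl p)) = cut L p q h := by
  symm
  rw [cut_eq]
  exact ⟨[], ν, isPath_nil _, hν, by rw [pl_left]; exact .refl (h.append (hν.wl p))⟩

theorem cut_wr {L μ : List (DE P)} {p q p' : List α} (h : IsPath w L (p ++ q))
    (hμ : IsPath p μ p') :
    cut (L ++ wr q μ) p' q (h.append (hμ.wr q)) = cut L p q h := by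
  symm
  rw [cut_eq]
  exact ⟨μ, [], hμ, isPath_nil _, by rw [pl_right]; exact .refl (h.append (hμ.wr q))⟩

/-- Congruence in the words. -/
theorem cut_words {L : List (DE P)} {p q p' q' : List α} (h : IsPath w L (p ++ q)) (e : p = p')
    (e' : q = q') : cut L p q h = cut L p' q' (by rw [← e, ← e']; exact h) := by
  subst e; subst e'; rfl

theorem cut_lists {L L' : List (DE P)} {p q : List α} (h : IsPath w L (p ++ q)) (e : L = L') :
    cut L p q h = cut L' p q (by rw [← e]; exact h) := by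
  subst e; rfl

instance : MulAction (DiagramGroup P w) (Cut P w) where
  smul g v := Quotient.map₂ (sa := loopSetoid P w) (sb := cutSetoid P w) (sc := cutSetoid P w)
    (fun Γ x => ⟨Γ.1 ++ x.L, x.p, x.q, Γ.2.append x.isPath⟩) (by
      rintro ⟨Γ, hΓ⟩ ⟨Γ', hΓ'⟩ h ⟨L, p, q, hL⟩ ⟨L', p', q', hL'⟩ ⟨μ, ν, h1, h2, h3⟩
      have h : Hty w w Γ Γ' := h
      refine ⟨μ, ν, h1, h2, ?_⟩
      show Hty w (p' ++ q') (Γ ++ L ++ pl p' q μ ν) (Γ' ++ L')
      rw [List.append_assoc]
      exact h.append h3) g v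
  one_smul v := by
    induction v using cut_ind with | _ L p q hL
    rfl
  mul_smul g h v := by
    induction v using cut_ind with | _ L p q hL
    induction g using DiagramGroup.ind with | _ Γ hΓ
    induction h using DiagramGroup.ind with | _ Δ hΔ
    show cut (Γ ++ Δ ++ L) p q _ = cut (Γ ++ (Δ ++ L)) p q _
    exact cut_lists _ (List.append_assoc _ _ _)

theorem smul_cut {Γ L : List (DE P)} {p q : List α} (hΓ : IsPath w Γ w)
    (h : IsPath w L (p ++ q)) :
    DiagramGroup.mk Γ hΓ • cut L p q h = cut (Γ ++ L) p q (hΓ.append h) := rfl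

/-- `u` lies strictly to the left of `v`. -/
def Cut.lt (u v : Cut P w) : Prop :=
  ∃ (Γ : List (DE P)) (p m q : List α) (h : IsPath w Γ (p ++ (m ++ q))), m ≠ [] ∧
    u = cut Γ p (m ++ q) h ∧ v = cut Γ (p ++ m) q (by rw [List.append_assoc]; exact h)

theorem lt_trans {u v x : Cut P w} (h : Cut.lt u v) (h' : Cut.lt v x) : Cut.lt u x := by
  obtain ⟨Γ, p, m, q, hΓ, hm, rfl, rfl⟩ := h
  obtain ⟨Γ', p', m', q', hΓ', hm', e, rfl⟩ := h'
  rw [cut_eq] at e
  obtain ⟨μ, ν, h1, h2, h3⟩ := e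
  have hΓ1 : IsPath w Γ ((p ++ m) ++ q) := by rw [List.append_assoc]; exact hΓ
  have hG : IsPath w (Γ ++ wl (p ++ m) ν) ((p ++ m) ++ (m' ++ q')) := hΓ1.append (h2.wl _)
  have hG' : IsPath w (Γ ++ wl (p ++ m) ν) (p ++ ((m ++ m') ++ q')) := by
    simp only [List.append_assoc] at hG ⊢; exact hG
  refine ⟨Γ ++ wl (p ++ m) ν, p, m ++ m', q', hG', by simp [hm], ?_, ?_⟩
  · rw [cut_eq]
    refine ⟨[], wl m ν, isPath_nil _, ?_, ?_⟩
    · have := h2.wl m
      rw [List.append_assoc]; exact this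
    · rw [pl_left, wl_wl]
      exact .refl hG'
  · symm
    rw [cut_eq]
    refine ⟨wr m' μ, [], ?_, isPath_nil _, ?_⟩
    · have := h1.wr m'
      rw [← List.append_assoc]; exact this
    · rw [pl_right, wr_wr]
      have a1 := Hty.append_left hΓ1 (Hty.exchange h1 h2).symm
      have a2 : Hty w (p' ++ (m' ++ q')) (Γ ++ (wl (p ++ m) ν ++ wr (m' ++ q') μ)) Γ' :=
        a1.trans h3
      rw [List.append_assoc, List.append_assoc]
      exact a2

/-- The tail of the initial state. -/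
def sh (P : Pres.{u, v} α) (p q : List α) : List (Tok P.ι) :=
  (List.range q.length).map (fun n => Tok.orig (p.length + n))

theorem s0_append (p q : List α) : s0 P (p ++ q) = s0 P p ++ sh P p q := by
  unfold s0 sh
  rw [List.length_append, List.range_add, List.map_append, List.map_map]
  rfl

theorem good_sh (p q : List α) : Good P (p ++ q) q (sh P p q) := by
  have h := good_s0 (P := P) (p ++ q)
  rw [s0_append] at h
  obtain ⟨S₁, S₂, e, h1, h2⟩ := good_split h
  obtain ⟨e1, e2⟩ := List.append_inj e (by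
    rw [h1.length]; simp [s0])
  rw [e2]; exact h2

theorem act_pl {p q p' q' : List α} {μ ν : List (DE P)} (hμ : IsPath p μ p')
    (hν : IsPath q ν q') :
    act (pl p' q μ ν) (s0 P (p ++ q)) = act μ (s0 P p) ++ act ν (sh P p q) := by
  unfold pl
  rw [act_append, s0_append, act_wr hμ (good_s0 p)]
  exact act_wl hν (good_act hμ (good_s0 p)).length (good_sh p q)

theorem hty_cancel_left {x y : List α} {Γ L L' : List (DE P)} (hΓ : IsPath w Γ x)
    (hL : IsPath x L y) (hL' : IsPath x L' y)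
    (h : Hty w y (Γ ++ L) (Γ ++ L')) : Hty x y L L' := by
  have h1 := Hty.append_left hΓ.inv h
  have key : ∀ M : List (DE P), IsPath x M y → Hty x y (invL Γ ++ (Γ ++ M)) M := by
    intro M hM
    have := (Hty.inv_append hΓ).append_right hM
    rw [List.append_assoc] at this
    exact this
  exact (key L hL).symm.trans (h1.trans (key L' hL'))

theorem lt_irrefl (v : Cut P w) : ¬ Cut.lt v v := by
  rintro ⟨Γ, p, m, q, hΓ, hm, e1, e2⟩
  rw [e1, cut_eq] at e2
  obtain ⟨μ, ν, h1, h2, h3⟩ := e2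
  have hpl : IsPath (p ++ (m ++ q)) (pl (p ++ m) (m ++ q) μ ν) (p ++ (m ++ q)) := by
    have := pl_isPath h1 h2
    simpa using this
  have h3' : Hty w (p ++ (m ++ q)) (Γ ++ pl (p ++ m) (m ++ q) μ ν) (Γ ++ []) := by
    rw [List.append_nil]
    rw [List.append_assoc] at h3
    exact h3
  have h4 := hty_cancel_left hΓ hpl (isPath_nil _) h3'
  have h5 := act_hty h4 (good_s0 (P := P) _)
  rw [act_pl h1 h2, act_nil, s0_append] at h5
  have hg := good_act h1 (good_s0 (P := P) p)
  have hl : p.length < (act μ (s0 P p)).length := by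
    rw [hg.length, List.length_append]
    have := List.length_pos_of_ne_nil hm
    omega
  have h6 := congrArg (fun l => l[p.length]?) h5
  have hml : 0 < (m ++ q).length := by
    have := List.length_pos_of_ne_nil hm
    rw [List.length_append]; omega
  have hs : (s0 P p).length = p.length := by simp [s0]
  rw [List.getElem?_append_left hl, List.getElem?_append_right (by rw [hs]), hs, Nat.sub_self,
    List.getElem?_eq_getElem hl] at h6
  have e3 : (sh P p (m ++ q))[0]? = some (Tok.orig p.length) := by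
    unfold sh
    rw [List.getElem?_map, List.getElem?_range hml]
    rfl
  rw [e3, Option.some.injEq] at h6
  have hv := hg.1 _ (List.getElem_mem hl)
  rw [h6] at hv
  cases hv with
  | orig h => omega

theorem lt_smul {u v : Cut P w} (g : DiagramGroup P w) (h : Cut.lt u v) :
    Cut.lt (g • u) (g • v) := by
  obtain ⟨Γ, p, m, q, hΓ, hm, rfl, rfl⟩ := h
  induction g using DiagramGroup.ind with | _ Δ hΔ
  exact ⟨Δ ++ Γ, p, m, q, hΔ.append hΓ, hm, rfl, rfl⟩

/-! ### Left and right parts of stabilisers -/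

open DiagramGroup

/-- Elements supported to the right of the cut. -/
def Cut.R (v : Cut P w) : Set (DiagramGroup P w) :=
  {g | ∃ (Γ : List (DE P)) (p q : List α) (β : List (DE P)) (h : IsPath w Γ (p ++ q))
    (hβ : IsPath q β q), v = cut Γ p q h ∧ g = cj Γ (wl p β) h (hβ.wl p)}

/-- Elements supported to the left of the cut. -/
def Cut.L (v : Cut P w) : Set (DiagramGroup P w) :=
  {g | ∃ (Γ : List (DE P)) (p q : List α) (β : List (DE P)) (h : IsPath w Γ (p ++ q))
    (hβ : IsPath p β p), v = cut Γ p q h ∧ g = cj Γ (wr q β) h (hβ.wr q)}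

theorem R_rep {Γ Γ' : List (DE P)} {p q p' q' : List α} {β : List (DE P)}
    {h : IsPath w Γ (p ++ q)} {h' : IsPath w Γ' (p' ++ q')} (hβ : IsPath q β q)
    (e : cut Γ p q h = cut Γ' p' q' h') :
    ∃ (ν : List (DE P)) (hν : IsPath q ν q'), cj Γ (wl p β) h (hβ.wl p) =
      cj Γ' (wl p' (invL ν ++ β ++ ν)) h' (((hν.inv.append hβ).append hν).wl p') := by
  rw [cut_eq] at e
  obtain ⟨μ, ν, h1, h2, h3⟩ := e
  refine ⟨ν, h2, ?_⟩
  have hb : IsPath q' (invL ν ++ β ++ ν) q' := (h2.inv.append hβ).append h2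
  rw [← cj_hty h3 (hb.wl p'), cj_move h (pl_isPath h1 h2) (hb.wl p')]
  symm
  apply cj_congr h
  -- the homotopy
  have hμ := h1.wr q
  have a1 : Hty q q (ν ++ (invL ν ++ β ++ ν) ++ invL ν) β := by
    have b1 := (Hty.append_inv h2).append_right (hβ.append (h2.append h2.inv))
    have b2 := Hty.append_left hβ (Hty.append_inv h2)
    rw [List.append_nil] at b2
    have b3 := b1.trans b2
    simp only [List.append_assoc] at b3 ⊢
    exact b3
  have a2 : Hty (p ++ q) (p ++ q) (wr q μ ++ wl p' (ν ++ (invL ν ++ β ++ ν) ++ invL ν) ++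
      invL (wr q μ)) (wr q μ ++ wl p' β ++ invL (wr q μ)) :=
    (Hty.append_left hμ (a1.wl p')).append_right hμ.inv
  have a3 : Hty (p ++ q) (p ++ q) (wr q μ ++ wl p' β ++ invL (wr q μ))
      (wl p β ++ wr q μ ++ invL (wr q μ)) := (Hty.exchange h1 hβ).append_right hμ.inv
  have a4 : Hty (p ++ q) (p ++ q) (wl p β ++ (wr q μ ++ invL (wr q μ))) (wl p β ++ []) :=
    Hty.append_left (hβ.wl p) (Hty.append_inv hμ)
  rw [List.append_nil, ← List.append_assoc] at a4
  have a5 := a2.trans (a3.trans a4)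
  unfold pl
  simp only [List.append_assoc, wl_append, invL_append, invL_wl] at a5 ⊢
  exact a5

theorem L_rep {Γ Γ' : List (DE P)} {p q p' q' : List α} {β : List (DE P)}
    {h : IsPath w Γ (p ++ q)} {h' : IsPath w Γ' (p' ++ q')} (hβ : IsPath p β p)
    (e : cut Γ p q h = cut Γ' p' q' h') :
    ∃ (μ : List (DE P)) (hμ : IsPath p μ p'), cj Γ (wr q β) h (hβ.wr q) =
      cj Γ' (wr q' (invL μ ++ β ++ μ)) h' (((hμ.inv.append hβ).append hμ).wr q') := by
  rw [cut_eq] at e
  obtain ⟨μ, ν, h1, h2, h3⟩ := e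
  refine ⟨μ, h1, ?_⟩
  have hb : IsPath p' (invL μ ++ β ++ μ) p' := (h1.inv.append hβ).append h1
  rw [← cj_hty h3 (hb.wr q'), cj_move h (pl_isPath h1 h2) (hb.wr q')]
  symm
  apply cj_congr h
  have hν := h2.wl p'
  have hμ := h1.wr q
  have a1 : Hty p p (μ ++ (invL μ ++ β ++ μ) ++ invL μ) β := by
    have b1 := (Hty.append_inv h1).append_right (hβ.append (h1.append h1.inv))
    have b2 := Hty.append_left hβ (Hty.append_inv h1)
    rw [List.append_nil] at b2
    have b3 := b1.trans b2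
    simp only [List.append_assoc] at b3 ⊢
    exact b3
  have a2 : Hty (p' ++ q) (p' ++ q) (wl p' ν ++ wr q' (invL μ ++ β ++ μ) ++ invL (wl p' ν))
      (wr q (invL μ ++ β ++ μ) ++ wl p' ν ++ invL (wl p' ν)) :=
    (Hty.exchange hb h2).symm.append_right hν.inv
  have a3 : Hty (p' ++ q) (p' ++ q) (wr q (invL μ ++ β ++ μ) ++ (wl p' ν ++ invL (wl p' ν)))
      (wr q (invL μ ++ β ++ μ) ++ []) := Hty.append_left (hb.wr q) (Hty.append_inv hν)
  rw [List.append_nil, ← List.append_assoc] at a3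
  have a4 := (Hty.append_left hμ (a2.trans a3)).append_right hμ.inv
  have a5 := a1.wr q
  unfold pl
  simp only [List.append_assoc, wr_append, invL_append, invL_wr] at a4 a5 ⊢
  exact a4.trans a5

theorem R_inv {r : DiagramGroup P w} {v : Cut P w} (h : r ∈ Cut.R v) : r⁻¹ ∈ Cut.R v := by
  obtain ⟨Γ, p, q, β, h1, h2, rfl, rfl⟩ := h
  refine ⟨Γ, p, q, invL β, h1, h2.inv, rfl, ?_⟩
  rw [cj_inv]
  congr 1
  exact invL_wl _ _

theorem L_inv {r : DiagramGroup P w} {v : Cut P w} (h : r ∈ Cut.L v) : r⁻¹ ∈ Cut.L v := by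
  obtain ⟨Γ, p, q, β, h1, h2, rfl, rfl⟩ := h
  refine ⟨Γ, p, q, invL β, h1, h2.inv, rfl, ?_⟩
  rw [cj_inv]
  congr 1
  exact invL_wr _ _

theorem LR_comm {l r : DiagramGroup P w} {v : Cut P w} (hl : l ∈ Cut.L v) (hr : r ∈ Cut.R v) :
    Commute l r := by
  obtain ⟨Γ, p, q, β, h1, h2, rfl, rfl⟩ := hl
  obtain ⟨Γ', p', q', β', h1', h2', e, rfl⟩ := hr
  obtain ⟨ν, hν, e2⟩ := R_rep h2' e.symm
  rw [e2, cj_commute]
  exact Hty.exchange h2 ((hν.inv.append h2').append hν)

theorem stab_decomp {g : DiagramGroup P w} {v : Cut P w} (h : g • v = v) :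
    ∃ l ∈ Cut.L v, ∃ r ∈ Cut.R v, g = l * r := by
  induction v using cut_ind with | _ Γ p q hΓ
  induction g using DiagramGroup.ind with | _ Δ hΔ
  rw [smul_cut] at h
  have h := h.symm
  rw [cut_eq] at h
  obtain ⟨μ, ν, h1, h2, h3⟩ := h
  refine ⟨cj Γ (wr q μ) hΓ (h1.wr q), ⟨Γ, p, q, μ, hΓ, h1, rfl, rfl⟩,
    cj Γ (wl p ν) hΓ (h2.wl p), ⟨Γ, p, q, ν, hΓ, h2, rfl, rfl⟩, ?_⟩
  rw [cj_mul]
  unfold cj
  rw [mk_eq]
  have a1 := h3.append_right hΓ.inv
  have a2 := Hty.append_left hΔ (Hty.append_inv hΓ)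
  rw [List.append_nil, ← List.append_assoc] at a2
  exact (a1.trans a2).symm

/-- Elements of the form `Γ L Γ⁻¹` acting on cuts given by `Γ`. -/
theorem cj_smul_cut {Γ L : List (DE P)} {x p q : List α} (hΓ : IsPath w Γ x) (hL : IsPath x L x)
    (e : x = p ++ q) :
    cj Γ L hΓ hL • cut Γ p q (by rw [← e]; exact hΓ) = cut (Γ ++ L) p q
      (by rw [← e]; exact hΓ.append hL) := by
  subst e
  unfold cj
  rw [smul_cut]
  apply cut_hty
  have a := Hty.append_left (hΓ.append hL) (Hty.inv_append hΓ)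
  rw [List.append_nil] at a
  simp only [List.append_assoc] at a ⊢
  exact a

theorem R_fix_lt {r : DiagramGroup P w} {u v : Cut P w} (hr : r ∈ Cut.R v) (huv : Cut.lt u v) :
    r • u = u := by
  obtain ⟨Γ, p, m, q, hΓ, hm, rfl, rfl⟩ := huv
  obtain ⟨Γ', p', q', β', h1', h2', e, rfl⟩ := hr
  obtain ⟨ν, hν, e2⟩ := R_rep h2' e.symm
  rw [e2]
  have hb := (hν.inv.append h2').append hν
  have hΓ1 : IsPath w Γ ((p ++ m) ++ q) := by rw [List.append_assoc]; exact hΓ
  have e3 := cj_smul_cut hΓ1 (hb.wl (p ++ m)) (List.append_assoc p m q)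
  have e4 := cut_wl hΓ (hb.wl m)
  have e5 := e3.trans ((cut_lists _ (by rw [wl_wl])).trans e4)
  exact e5

theorem R_fix_self {r : DiagramGroup P w} {v : Cut P w} (hr : r ∈ Cut.R v) :
    r • v = v := by
  obtain ⟨Γ, p, q, β, h1, h2, rfl, rfl⟩ := hr
  exact (cj_smul_cut h1 (h2.wl p) rfl).trans (cut_wl h1 h2)

theorem L_fix_self {r : DiagramGroup P w} {v : Cut P w} (hr : r ∈ Cut.L v) :
    r • v = v := by
  obtain ⟨Γ, p, q, β, h1, h2, rfl, rfl⟩ := hr
  exact (cj_smul_cut h1 (h2.wr q) rfl).trans (cut_wr h1 h2)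

theorem L_fix_lt {r : DiagramGroup P w} {u v : Cut P w} (hr : r ∈ Cut.L v) (huv : Cut.lt v u) :
    r • u = u := by
  obtain ⟨Γ, p, m, q, hΓ, hm, rfl, rfl⟩ := huv
  obtain ⟨Γ', p', q', β', h1', h2', e, rfl⟩ := hr
  obtain ⟨ν, hν, e2⟩ := L_rep h2' e.symm
  rw [e2]
  have hb := (hν.inv.append h2').append hν
  have hΓ1 : IsPath w Γ ((p ++ m) ++ q) := by rw [List.append_assoc]; exact hΓ
  have e3 := cj_smul_cut hΓ (hb.wr (m ++ q)) (List.append_assoc p m q).symm
  have e4 := cut_wr hΓ1 (hb.wr m)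
  have e5 := e3.trans ((cut_lists _ (by rw [wr_wr])).trans e4)
  exact e5

theorem R_mono {u v : Cut P w} (huv : Cut.lt u v) : Cut.R v ⊆ Cut.R u := by
  obtain ⟨Γ, p, m, q, hΓ, hm, rfl, rfl⟩ := huv
  rintro r ⟨Γ', p', q', β', h1', h2', e, rfl⟩
  obtain ⟨ν, hν, e2⟩ := R_rep h2' e.symm
  have hb := (hν.inv.append h2').append hν
  refine ⟨Γ, p, m ++ q, wl m (invL ν ++ β' ++ ν), hΓ, hb.wl m, rfl, ?_⟩
  rw [e2]
  unfold cj
  rw [mk_eq, wl_wl]
  have hp := ((hΓ.append (((hb.wl m).wl p))).append hΓ.inv)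
  rw [wl_wl] at hp
  exact .refl hp

theorem R_conj {r : DiagramGroup P w} {v : Cut P w} (g : DiagramGroup P w) (hr : r ∈ Cut.R v) :
    g * r * g⁻¹ ∈ Cut.R (g • v) := by
  obtain ⟨Γ, p, q, β, h1, h2, rfl, rfl⟩ := hr
  induction g using DiagramGroup.ind with | _ Δ hΔ
  exact ⟨Δ ++ Γ, p, q, β, hΔ.append h1, h2, rfl, mk_conj hΔ h1 _⟩

end DG

end FileCuts

section FileCocC

/-! The cocycle counting moves of a given type at cuts (MP_f61096_al). -/

namespace DG

universe u v

variable {α : Type u} {P : Pres.{u, v} α} {w : List α}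

open Classical in
/-- The cut defined by arbitrary lists (with a default value). -/
noncomputable def vtx (w : List α) (L : List (DE P)) (p q : List α) : Cut P w :=
  if h : IsPath w L (p ++ q) then cut L p q h else cut [] [] w (isPath_nil w)

theorem vtx_eq {L : List (DE P)} {p q : List α} (h : IsPath w L (p ++ q)) :
    vtx w L p q = cut L p q h := by
  unfold vtx
  rw [dif_pos h]

/-- Sign of a direction. -/
def sgn (d : Bool) : ℤ := if d then 1 else -1

theorem sgn_not (d : Bool) : sgn (!d) = - sgn d := by cases d <;> simp [sgn]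

theorem sgn_ne (d : Bool) : sgn d ≠ 0 := by cases d <;> simp [sgn]

/-- Connectedness of words. -/
def Conn (P : Pres.{u, v} α) (b b' : List α) : Prop := ∃ ρ : List (DE P), IsPath b ρ b'

theorem Conn.refl (b : List α) : Conn P b b := ⟨[], isPath_nil b⟩
theorem Conn.symm {b b' : List α} (h : Conn P b b') : Conn P b' b := by
  obtain ⟨ρ, h⟩ := h; exact ⟨invL ρ, h.inv⟩
theorem Conn.trans {b b' b'' : List α} (h : Conn P b b') (h' : Conn P b' b'') : Conn P b b'' := by
  obtain ⟨ρ, h⟩ := h; obtain ⟨ρ', h'⟩ := h'; exact ⟨ρ ++ ρ', h.append h'⟩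

open Classical in
/-- Contribution of a move at a given cut. -/
noncomputable def cev (θ : P.ι × List α) (r : P.ι) (d : Bool) (b : List α) (x v : Cut P w) : ℤ :=
  if r = θ.1 ∧ Conn P b θ.2 ∧ x = v then sgn d else 0

/-- Contribution of an edge, after the prefix path `L₀`. -/
noncomputable def ce (w : List α) (θ : P.ι × List α) (L₀ : List (DE P)) (e : DE P)
    (v : Cut P w) : ℤ :=
  cev θ e.r e.d e.b (vtx w L₀ e.a (P.side e.r e.d ++ e.b)) v

/-- Contributions of a path. -/
noncomputable def cf (w : List α) (θ : P.ι × List α) : List (DE P) → List (DE P) → Cut P w → ℤ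
  | _, [], _ => 0
  | L₀, e :: L, v => ce w θ L₀ e v + cf w θ (L₀ ++ [e]) L v

variable {θ : P.ι × List α}

theorem cf_nil (L₀ : List (DE P)) (v : Cut P w) : cf w θ L₀ [] v = 0 := rfl

theorem cf_cons (L₀ : List (DE P)) (e : DE P) (L : List (DE P)) (v : Cut P w) :
    cf w θ L₀ (e :: L) v = ce w θ L₀ e v + cf w θ (L₀ ++ [e]) L v := rfl

theorem cf_append (L L' : List (DE P)) (v : Cut P w) : ∀ (L₀ : List (DE P)),
    cf w θ L₀ (L ++ L') v = cf w θ L₀ L v + cf w θ (L₀ ++ L) L' v := by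
  induction L with
  | nil => intro L₀; simp [cf_nil]
  | cons e L ih =>
    intro L₀
    rw [List.cons_append, cf_cons, cf_cons, ih]
    have e1 : L₀ ++ e :: L = L₀ ++ [e] ++ L := by simp
    rw [e1]
    ring

theorem ce_smul {Γ L₀ : List (DE P)} {e : DE P} (hΓ : IsPath w Γ w) (h : IsPath w L₀ e.src)
    (v : Cut P w) :
    ce w θ (Γ ++ L₀) e v = ce w θ L₀ e ((DiagramGroup.mk Γ hΓ)⁻¹ • v) := by
  have h' : IsPath w L₀ (e.a ++ (P.side e.r e.d ++ e.b)) := by
    rw [← List.append_assoc]; exact h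
  unfold ce
  have h2 : IsPath w (Γ ++ L₀) (e.a ++ (P.side e.r e.d ++ e.b)) := hΓ.append h'
  have : (cut (Γ ++ L₀) e.a (P.side e.r e.d ++ e.b) h2 = v) ↔
      (cut L₀ e.a (P.side e.r e.d ++ e.b) h' = (DiagramGroup.mk Γ hΓ)⁻¹ • v) := by
    rw [eq_inv_smul_iff, smul_cut]
  rw [vtx_eq h', vtx_eq h2]
  unfold cev
  by_cases hc : e.r = θ.1 ∧ Conn P e.b θ.2 ∧
      cut L₀ e.a (P.side e.r e.d ++ e.b) h' = (DiagramGroup.mk Γ hΓ)⁻¹ • v
  · rw [if_pos hc, if_pos ⟨hc.1, hc.2.1, this.mpr hc.2.2⟩]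
  · rw [if_neg hc, if_neg (fun h => hc ⟨h.1, h.2.1, this.mp h.2.2⟩)]

theorem cf_smul {Γ : List (DE P)} (hΓ : IsPath w Γ w) (L : List (DE P)) (v : Cut P w) :
    ∀ {L₀ : List (DE P)} {x y : List α}, IsPath w L₀ x → IsPath x L y →
    cf w θ (Γ ++ L₀) L v = cf w θ L₀ L ((DiagramGroup.mk Γ hΓ)⁻¹ • v) := by
  induction L with
  | nil => intros; rfl
  | cons e L ih =>
    intro L₀ x y h h'
    obtain ⟨rfl, h2⟩ := h'
    have he : IsPath e.src [e] e.tgt := ⟨rfl, rfl⟩
    rw [cf_cons, cf_cons, ce_smul hΓ h, List.append_assoc, ih (h.append he) h2]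

theorem ce_congr {L₀ L₀' : List (DE P)} {e : DE P} (h : Hty w e.src L₀ L₀') (v : Cut P w) :
    ce w θ L₀ e v = ce w θ L₀' e v := by
  have h' : Hty w (e.a ++ (P.side e.r e.d ++ e.b)) L₀ L₀' := by
    rw [← List.append_assoc]; exact h
  unfold ce
  rw [vtx_eq h'.left, vtx_eq h'.right, cut_hty h']

theorem cf_congr (L : List (DE P)) (v : Cut P w) :
    ∀ {L₀ L₀' : List (DE P)} {x y : List α}, Hty w x L₀ L₀' → IsPath x L y →
    cf w θ L₀ L v = cf w θ L₀' L v := by
  induction L with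
  | nil => intros; rfl
  | cons e L ih =>
    intro L₀ L₀' x y h h'
    obtain ⟨rfl, h2⟩ := h'
    have he : IsPath e.src [e] e.tgt := ⟨rfl, rfl⟩
    rw [cf_cons, cf_cons, ce_congr h, ih (h.append_right he) h2]

theorem cf_step {L L' L₀ : List (DE P)} {x y : List α} (hs : Step L L') (h : IsPath w L₀ x)
    (hL : IsPath x L y) (v : Cut P w) : cf w θ L₀ L v = cf w θ L₀ L' v := by
  cases hs with
  | cancel L₁ e L₂ =>
    obtain ⟨m, h1, rfl, h2, h3⟩ := isPath_append.mp hL
    have hp : IsPath w (L₀ ++ L₁) e.src := h.append h1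
    rw [cf_append, cf_append, cf_cons, cf_cons]
    have e1 : cf w θ (L₀ ++ L₁ ++ [e] ++ [e.inv]) L₂ v = cf w θ (L₀ ++ L₁) L₂ v := by
      apply cf_congr (x := e.src) (y := y) L₂ v
      · have a : IsPath w (L₀ ++ L₁ ++ [e] ++ [e.inv]) e.src :=
          (hp.append (m := e.src) (w' := e.tgt) (L₂ := [e]) ⟨rfl, rfl⟩).append ⟨rfl, by
            rw [DE.inv_tgt]; rfl⟩
        refine .step a ?_
        have := Step.cancel (L₀ ++ L₁) e []
        simpa using this
      · rw [DE.inv_tgt] at h3; exact h3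
    have e2 : ce w θ (L₀ ++ L₁) e v + ce w θ (L₀ ++ L₁ ++ [e]) e.inv v = 0 := by
      have hp1 : IsPath w (L₀ ++ L₁) (e.a ++ (P.side e.r e.d ++ e.b)) := by
        rw [← List.append_assoc]; exact hp
      have hp2 : IsPath w (L₀ ++ L₁ ++ [e]) (e.a ++ (P.side e.r (!e.d) ++ e.b)) := by
        rw [← List.append_assoc]; exact hp.append ⟨rfl, rfl⟩
      have hν : IsPath (P.side e.r e.d ++ e.b) [(⟨[], e.r, e.d, e.b⟩ : DE P)]
          (P.side e.r (!e.d) ++ e.b) := ⟨rfl, rfl⟩
      have e3 : cut (L₀ ++ L₁ ++ [e]) e.a (P.side e.r (!e.d) ++ e.b) hp2 =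
          cut (L₀ ++ L₁) e.a (P.side e.r e.d ++ e.b) hp1 := by
        have := cut_wl hp1 hν
        rw [← this]
        apply cut_lists
        congr 1
        simp [DE.wl]
      have e4 : ce w θ (L₀ ++ L₁) e v = cev θ e.r e.d e.b
          (cut (L₀ ++ L₁) e.a (P.side e.r e.d ++ e.b) hp1) v := by
        unfold ce; rw [vtx_eq hp1]
      have e5 : ce w θ (L₀ ++ L₁ ++ [e]) e.inv v = cev θ e.r (!e.d) e.b
          (cut (L₀ ++ L₁) e.a (P.side e.r e.d ++ e.b) hp1) v := by
        rw [← e3, ← vtx_eq hp2]; rfl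
      rw [e4, e5]
      unfold cev
      rw [sgn_not]
      split_ifs <;> ring
    rw [e1]
    linarith
  | swap L₁ a r₁ d₁ b r₂ d₂ c L₂ =>
    obtain ⟨m, h1, hm, h2, h3⟩ := isPath_append.mp hL
    subst hm
    have hp := h.append h1
    have hsw := Step.swap (P := P) (L₀ ++ L₁) a r₁ d₁ b r₂ d₂ c []
    rw [cf_append, cf_append, cf_cons, cf_cons, cf_cons, cf_cons]
    -- the four cuts
    have q1 : IsPath w (L₀ ++ L₁) (a ++ (P.side r₁ d₁ ++ (b ++ P.side r₂ d₂ ++ c))) := by
      have : IsPath w (L₀ ++ L₁) (a ++ P.side r₁ d₁ ++ (b ++ P.side r₂ d₂ ++ c)) := hp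
      simpa only [List.append_assoc] using this
    have q2 : IsPath w (L₀ ++ L₁ ++ [⟨a, r₁, d₁, b ++ P.side r₂ d₂ ++ c⟩])
        ((a ++ P.side r₁ (!d₁) ++ b) ++ (P.side r₂ d₂ ++ c)) := by
      have : IsPath w (L₀ ++ L₁ ++ [⟨a, r₁, d₁, b ++ P.side r₂ d₂ ++ c⟩])
        (a ++ P.side r₁ (!d₁) ++ (b ++ P.side r₂ d₂ ++ c)) := hp.append ⟨rfl, rfl⟩
      simpa only [List.append_assoc] using this
    have q3 : IsPath w (L₀ ++ L₁) ((a ++ P.side r₁ d₁ ++ b) ++ (P.side r₂ d₂ ++ c)) := by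
      simpa only [List.append_assoc] using q1
    have q4 : IsPath w (L₀ ++ L₁ ++ [⟨a ++ P.side r₁ d₁ ++ b, r₂, d₂, c⟩])
        (a ++ (P.side r₁ d₁ ++ (b ++ P.side r₂ (!d₂) ++ c))) := by
      have : IsPath w (L₀ ++ L₁ ++ [⟨a ++ P.side r₁ d₁ ++ b, r₂, d₂, c⟩])
        (a ++ P.side r₁ d₁ ++ b ++ P.side r₂ (!d₂) ++ c) :=
        hp.append ⟨by simp [DE.src], rfl⟩
      simpa only [List.append_assoc] using this
    have f1 : vtx w (L₀ ++ L₁ ++ [⟨a, r₁, d₁, b ++ P.side r₂ d₂ ++ c⟩])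
        (a ++ P.side r₁ (!d₁) ++ b) (P.side r₂ d₂ ++ c) =
        vtx w (L₀ ++ L₁) (a ++ P.side r₁ d₁ ++ b) (P.side r₂ d₂ ++ c) := by
      rw [vtx_eq q2, vtx_eq q3]
      have hμ : IsPath (a ++ P.side r₁ d₁ ++ b) [(⟨a, r₁, d₁, b⟩ : DE P)]
          (a ++ P.side r₁ (!d₁) ++ b) := ⟨rfl, rfl⟩
      have := cut_wr q3 hμ
      rw [← this]
      apply cut_lists
      congr 1
      simp [DE.wr]
    have f2 : vtx w (L₀ ++ L₁ ++ [⟨a ++ P.side r₁ d₁ ++ b, r₂, d₂, c⟩])
        a (P.side r₁ d₁ ++ (b ++ P.side r₂ (!d₂) ++ c)) =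
        vtx w (L₀ ++ L₁) a (P.side r₁ d₁ ++ (b ++ P.side r₂ d₂ ++ c)) := by
      rw [vtx_eq q4, vtx_eq q1]
      have hν : IsPath (P.side r₁ d₁ ++ (b ++ P.side r₂ d₂ ++ c))
          [(⟨P.side r₁ d₁ ++ b, r₂, d₂, c⟩ : DE P)]
          (P.side r₁ d₁ ++ (b ++ P.side r₂ (!d₂) ++ c)) := by
        refine ⟨by simp [DE.src], ?_⟩
        simp [DE.tgt, IsPath]
      have := cut_wl q1 hν
      rw [← this]
      apply cut_lists
      congr 1
      simp [DE.wl]
    have hc1 : Conn P (b ++ P.side r₂ d₂ ++ c) θ.2 ↔ Conn P (b ++ P.side r₂ (!d₂) ++ c) θ.2 := by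
      have hc : Conn P (b ++ P.side r₂ d₂ ++ c) (b ++ P.side r₂ (!d₂) ++ c) :=
        ⟨[⟨b, r₂, d₂, c⟩], rfl, rfl⟩
      exact ⟨fun h => hc.symm.trans h, fun h => hc.trans h⟩
    have g1 : ce w θ (L₀ ++ L₁) (⟨a, r₁, d₁, b ++ P.side r₂ d₂ ++ c⟩ : DE P) v =
        ce w θ (L₀ ++ L₁ ++ [⟨a ++ P.side r₁ d₁ ++ b, r₂, d₂, c⟩])
          (⟨a, r₁, d₁, b ++ P.side r₂ (!d₂) ++ c⟩ : DE P) v := by
      have e1 : ce w θ (L₀ ++ L₁) (⟨a, r₁, d₁, b ++ P.side r₂ d₂ ++ c⟩ : DE P) v =
          cev θ r₁ d₁ (b ++ P.side r₂ d₂ ++ c)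
            (vtx w (L₀ ++ L₁) a (P.side r₁ d₁ ++ (b ++ P.side r₂ d₂ ++ c))) v := rfl
      have e2 : ce w θ (L₀ ++ L₁ ++ [⟨a ++ P.side r₁ d₁ ++ b, r₂, d₂, c⟩])
          (⟨a, r₁, d₁, b ++ P.side r₂ (!d₂) ++ c⟩ : DE P) v =
          cev θ r₁ d₁ (b ++ P.side r₂ (!d₂) ++ c)
            (vtx w (L₀ ++ L₁ ++ [⟨a ++ P.side r₁ d₁ ++ b, r₂, d₂, c⟩])
              a (P.side r₁ d₁ ++ (b ++ P.side r₂ (!d₂) ++ c))) v := rfl
      rw [e1, e2, f2]
      unfold cev
      by_cases hc : Conn P (b ++ P.side r₂ d₂ ++ c) θ.2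
      · have hc' := hc1.mp hc
        by_cases h3 : r₁ = θ.1 ∧
            vtx w (L₀ ++ L₁) a (P.side r₁ d₁ ++ (b ++ P.side r₂ d₂ ++ c)) = v
        · rw [if_pos ⟨h3.1, hc, h3.2⟩, if_pos ⟨h3.1, hc', h3.2⟩]
        · rw [if_neg (fun h => h3 ⟨h.1, h.2.2⟩), if_neg (fun h => h3 ⟨h.1, h.2.2⟩)]
      · have hc' := fun h => hc (hc1.mpr h)
        rw [if_neg (fun h => hc h.2.1), if_neg (fun h => hc' h.2.1)]
    have g2 : ce w θ (L₀ ++ L₁ ++ [⟨a, r₁, d₁, b ++ P.side r₂ d₂ ++ c⟩])
          (⟨a ++ P.side r₁ (!d₁) ++ b, r₂, d₂, c⟩ : DE P) v =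
        ce w θ (L₀ ++ L₁) (⟨a ++ P.side r₁ d₁ ++ b, r₂, d₂, c⟩ : DE P) v := by
      have e1 : ce w θ (L₀ ++ L₁ ++ [⟨a, r₁, d₁, b ++ P.side r₂ d₂ ++ c⟩])
          (⟨a ++ P.side r₁ (!d₁) ++ b, r₂, d₂, c⟩ : DE P) v = cev θ r₂ d₂ c
            (vtx w (L₀ ++ L₁ ++ [⟨a, r₁, d₁, b ++ P.side r₂ d₂ ++ c⟩])
              (a ++ P.side r₁ (!d₁) ++ b) (P.side r₂ d₂ ++ c)) v := rfl
      rw [e1, f1]
      rfl
    have g3 : cf w θ (L₀ ++ L₁ ++ [⟨a, r₁, d₁, b ++ P.side r₂ d₂ ++ c⟩] ++
          [⟨a ++ P.side r₁ (!d₁) ++ b, r₂, d₂, c⟩]) L₂ v =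
        cf w θ (L₀ ++ L₁ ++ [⟨a ++ P.side r₁ d₁ ++ b, r₂, d₂, c⟩] ++
          [⟨a, r₁, d₁, b ++ P.side r₂ (!d₂) ++ c⟩]) L₂ v := by
      apply cf_congr (y := y) L₂ v _ h3
      have a1 : IsPath w (L₀ ++ L₁ ++ [⟨a, r₁, d₁, b ++ P.side r₂ d₂ ++ c⟩] ++
          [(⟨a ++ P.side r₁ (!d₁) ++ b, r₂, d₂, c⟩ : DE P)])
          (DE.tgt ⟨a ++ P.side r₁ (!d₁) ++ b, r₂, d₂, c⟩) := by
        refine IsPath.append (m := (a ++ P.side r₁ (!d₁) ++ b) ++ (P.side r₂ d₂ ++ c)) q2 ?_
        exact ⟨by simp [DE.src], rfl⟩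
      refine .step a1 ?_
      simpa using hsw
    rw [g1, g2, g3]
    ring

theorem cf_hty {L L' L₀ : List (DE P)} {x y : List α} (hs : Hty x y L L') (h : IsPath w L₀ x)
    (v : Cut P w) : cf w θ L₀ L v = cf w θ L₀ L' v := by
  induction hs with
  | refl _ => rfl
  | step hL hs => exact cf_step hs h hL v
  | symm _ ih => exact ih.symm
  | trans _ _ ih1 ih2 => exact ih1.trans ih2

theorem cf_fin (L : List (DE P)) : ∀ (L₀ : List (DE P)), {v : Cut P w | cf w θ L₀ L v ≠ 0}.Finite := by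
  induction L with
  | nil => intro L₀; simp [cf_nil]
  | cons e L ih =>
    intro L₀
    refine ((Set.finite_singleton (vtx w L₀ e.a (P.side e.r e.d ++ e.b))).union
      (ih (L₀ ++ [e]))).subset ?_
    intro v hv
    by_contra hcon
    simp only [Set.mem_union, Set.mem_singleton_iff, Set.mem_ofPred_eq, not_or, not_not] at hcon
    apply hv
    rw [cf_cons, hcon.2]
    unfold ce cev
    rw [if_neg]
    · ring
    · intro h
      exact hcon.1 h.2.2.symm

/-- The cocycle. -/
noncomputable def cc (w : List α) (θ : P.ι × List α) (g : DiagramGroup P w) (v : Cut P w) : ℤ :=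
  Quotient.lift (s := loopSetoid P w) (fun L => cf w θ [] L.1 v)
    (fun _ _ h => cf_hty h (isPath_nil w) v) g

theorem cc_mk (L : List (DE P)) (hL : IsPath w L w) (v : Cut P w) :
    cc w θ (DiagramGroup.mk L hL) v = cf w θ [] L v := rfl

/-- The cocycle as an element of `Coc`. -/
noncomputable def cocC (w : List α) (θ : P.ι × List α) : Coc (DiagramGroup P w) (Cut P w) where
  f := cc w θ
  mul := by
    intro g h v
    induction g using DiagramGroup.ind with | _ Γ hΓ
    induction h using DiagramGroup.ind with | _ Δ hΔ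
    rw [DiagramGroup.mk_mul, cc_mk, cc_mk, cc_mk, cf_append, List.nil_append]
    have := cf_smul (θ := θ) hΓ Δ v (isPath_nil w) hΔ
    rw [List.append_nil] at this
    rw [this]
  fin := by
    intro g
    induction g using DiagramGroup.ind with | _ Γ hΓ
    exact cf_fin Γ []

/-- The value of the cocycle on conjugates, at fixed cuts. -/
theorem cc_cj {Γ L : List (DE P)} {x : List α} (hΓ : IsPath w Γ x) (hL : IsPath x L x)
    {v : Cut P w} (hv : DiagramGroup.cj Γ L hΓ hL • v = v) :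
    cc w θ (DiagramGroup.cj Γ L hΓ hL) v = cf w θ Γ L v := by
  have hfull := (hΓ.append hL).append hΓ.inv
  have e1 : cc w θ (DiagramGroup.cj Γ L hΓ hL) v = cf w θ [] (Γ ++ L ++ invL Γ) v := rfl
  rw [e1, cf_append, cf_append, List.nil_append, List.nil_append]
  have e2 : cf w θ (Γ ++ L) (invL Γ) v = cf w θ (Γ ++ L ++ invL Γ ++ Γ) (invL Γ) v := by
    apply cf_congr _ _ _ hΓ.inv
    have a := Hty.append_left (hΓ.append hL) (Hty.inv_append hΓ)
    rw [List.append_nil, ← List.append_assoc] at a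
    exact a.symm
  have e3 : cf w θ (Γ ++ L ++ invL Γ ++ Γ) (invL Γ) v = cf w θ Γ (invL Γ) v := by
    rw [cf_smul hfull (invL Γ) v hΓ hΓ.inv]
    have : (DiagramGroup.mk (Γ ++ L ++ invL Γ) hfull)⁻¹ • v = v := by
      rw [inv_smul_eq_iff]; exact hv.symm
    rw [this]
  have e4 : cf w θ [] Γ v + cf w θ Γ (invL Γ) v = 0 := by
    have a := cf_append (θ := θ) Γ (invL Γ) v []
    rw [List.nil_append] at a
    rw [← a, cf_hty (Hty.append_inv hΓ) (isPath_nil w) v]
    rfl
  rw [e2, e3]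
  linarith

theorem cf_wl_lt {m : List α} (hm : m ≠ []) (L : List (DE P)) :
    ∀ {Γ : List (DE P)} {p x y : List α} (hΓ : IsPath w Γ (p ++ (m ++ x))), IsPath x L y →
      cf w θ Γ (wl (p ++ m) L) (cut Γ p (m ++ x) hΓ) = 0 := by
  induction L with
  | nil => intros; rfl
  | cons e L ih =>
    intro Γ p x y hΓ hL
    obtain ⟨rfl, h2⟩ := hL
    rw [wl_cons, cf_cons]
    have hΓ1 : IsPath w Γ ((p ++ m) ++ e.src) := by rw [List.append_assoc]; exact hΓ
    have hν : IsPath (m ++ e.src) [e.wl m] (m ++ e.tgt) := ⟨by simp, by simp [IsPath]⟩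
    have e1 := cut_wl hΓ hν
    have e2 : wl p [e.wl m] = [e.wl (p ++ m)] := by simp [DE.wl_wl]
    have hΓ2 : IsPath w (Γ ++ [e.wl (p ++ m)]) (p ++ (m ++ e.tgt)) := by
      rw [← e2]; exact hΓ.append (hν.wl p)
    have e3 : cut (Γ ++ [e.wl (p ++ m)]) p (m ++ e.tgt) hΓ2 = cut Γ p (m ++ e.src) hΓ := by
      rw [← e1]
      apply cut_lists
      rw [e2]
    rw [← e3, ih hΓ2 h2, add_zero]
    unfold ce cev
    rw [if_neg]
    rintro ⟨-, -, h⟩
    rw [e3] at h
    have hv : IsPath w Γ ((p ++ m ++ e.a) ++ (P.side e.r e.d ++ e.b)) := by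
      have : IsPath w Γ (p ++ (m ++ (e.a ++ P.side e.r e.d ++ e.b))) := hΓ
      simpa only [List.append_assoc] using this
    have e4 : vtx w Γ (e.wl (p ++ m)).a
        (P.side (e.wl (p ++ m)).r (e.wl (p ++ m)).d ++ (e.wl (p ++ m)).b) =
        cut Γ (p ++ m ++ e.a) (P.side e.r e.d ++ e.b) hv := vtx_eq hv
    rw [e4] at h
    apply lt_irrefl (cut Γ p (m ++ e.src) hΓ)
    have hΓ3 : IsPath w Γ (p ++ ((m ++ e.a) ++ (P.side e.r e.d ++ e.b))) := by
      simpa only [List.append_assoc] using hv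
    refine ⟨Γ, p, m ++ e.a, P.side e.r e.d ++ e.b, hΓ3, by simp [hm], ?_, ?_⟩
    · apply cut_words
      · rfl
      · simp [DE.src]
    · rw [← h]
      apply cut_words
      · simp
      · rfl

open Classical in
/-- Signed number of moves at the left end, of a given type. -/
noncomputable def cnt (θ : P.ι × List α) : List (DE P) → ℤ
  | [] => 0
  | e :: L => (if e.a = [] ∧ e.r = θ.1 ∧ Conn P e.b θ.2 then sgn e.d else 0) + cnt θ L

theorem cf_wl_eq (L : List (DE P)) :
    ∀ {Γ : List (DE P)} {p x y : List α} (hΓ : IsPath w Γ (p ++ x)), IsPath x L y →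
      cf w θ Γ (wl p L) (cut Γ p x hΓ) = cnt θ L := by
  induction L with
  | nil => intros; rfl
  | cons e L ih =>
    intro Γ p x y hΓ hL
    obtain ⟨rfl, h2⟩ := hL
    rw [wl_cons, cf_cons]
    have hν : IsPath e.src [e] e.tgt := ⟨rfl, rfl⟩
    have e1 := cut_wl hΓ hν
    have hΓ2 : IsPath w (Γ ++ [e.wl p]) (p ++ e.tgt) := hΓ.append (hν.wl p)
    have e3 : cut (Γ ++ [e.wl p]) p e.tgt hΓ2 = cut Γ p e.src hΓ := e1
    rw [← e3, ih hΓ2 h2, e3]
    unfold ce cev
    simp only [cnt]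
    congr 1
    have hv : IsPath w Γ ((p ++ e.a) ++ (P.side e.r e.d ++ e.b)) := by
      have : IsPath w Γ (p ++ (e.a ++ P.side e.r e.d ++ e.b)) := hΓ
      simpa only [List.append_assoc] using this
    have e4 : vtx w Γ (e.wl p).a (P.side (e.wl p).r (e.wl p).d ++ (e.wl p).b) =
        cut Γ (p ++ e.a) (P.side e.r e.d ++ e.b) hv := vtx_eq hv
    rw [e4]
    have e5 : cut Γ (p ++ e.a) (P.side e.r e.d ++ e.b) hv = cut Γ p e.src hΓ ↔ e.a = [] := by
      constructor
      · intro h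
        by_contra hne
        apply lt_irrefl (cut Γ p e.src hΓ)
        have hΓ3 : IsPath w Γ (p ++ (e.a ++ (P.side e.r e.d ++ e.b))) := by
          simpa only [List.append_assoc] using hv
        refine ⟨Γ, p, e.a, P.side e.r e.d ++ e.b, hΓ3, hne, ?_, ?_⟩
        · apply cut_words
          · rfl
          · simp [DE.src]
        · rw [← h]
      · intro ha
        apply cut_words
        · simp [ha]
        · simp [DE.src, ha]
    have e6 : ((e.wl p).r = θ.1 ∧ Conn P (e.wl p).b θ.2 ∧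
        cut Γ (p ++ e.a) (P.side e.r e.d ++ e.b) hv = cut Γ p e.src hΓ) ↔
        (e.a = [] ∧ e.r = θ.1 ∧ Conn P e.b θ.2) := by
      rw [e5]
      constructor
      · rintro ⟨h1, h2, h3⟩; exact ⟨h3, h1, h2⟩
      · rintro ⟨h3, h1, h2⟩; exact ⟨h1, h2, h3⟩
    by_cases hc : e.a = [] ∧ e.r = θ.1 ∧ Conn P e.b θ.2
    · rw [if_pos hc, if_pos (e6.mpr hc)]; rfl
    · rw [if_neg hc, if_neg (fun h => hc (e6.mp h))]

/-- The cocycle vanishes for elements supported to the right. -/
theorem cc_R {r : DiagramGroup P w} {u v : Cut P w} (hr : r ∈ Cut.R v) (huv : Cut.lt u v) :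
    cc w θ r u = 0 := by
  have hfix := R_fix_lt hr huv
  obtain ⟨Γ, p, m, q, hΓ, hm, rfl, rfl⟩ := huv
  obtain ⟨Γ', p', q', β', h1', h2', e, rfl⟩ := hr
  obtain ⟨ν, hν, e2⟩ := R_rep h2' e.symm
  have hb := (hν.inv.append h2').append hν
  have hb2 : IsPath (p ++ (m ++ q)) (wl (p ++ m) (invL ν ++ β' ++ ν)) (p ++ (m ++ q)) := by
    have := hb.wl (p ++ m)
    simpa only [List.append_assoc] using this
  have e3 : DiagramGroup.cj Γ' (wl p' β') h1' (h2'.wl p') =
      DiagramGroup.cj Γ (wl (p ++ m) (invL ν ++ β' ++ ν)) hΓ hb2 := e2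
  rw [e3] at hfix ⊢
  rw [cc_cj hΓ hb2 hfix]
  exact cf_wl_lt hm _ hΓ hb

theorem cc_R_self {Γ β : List (DE P)} {p q : List α} (hΓ : IsPath w Γ (p ++ q))
    (hβ : IsPath q β q) :
    cc w θ (DiagramGroup.cj Γ (wl p β) hΓ (hβ.wl p)) (cut Γ p q hΓ) = cnt θ β := by
  rw [cc_cj hΓ (hβ.wl p) (R_fix_self ⟨Γ, p, q, β, hΓ, hβ, rfl, rfl⟩)]
  exact cf_wl_eq β hΓ hβ

end DG

end FileCocC

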