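import Pool.Agent.Lib.MP_f61096_al.Cuts

section FileLL

/-! Comparability of cuts (MP_f61096_al). -/

namespace DG

universe u v

variable {α : Type u} {P : Pres.{u, v} α}

/-- All original letters occurring in the token satisfy `f`. -/
inductive Sup {ι : Type v} (f : ℕ → Prop) : Tok ι → Prop
  | orig {n : ℕ} : f n → Sup f (.orig n)
  | made {r : ι} {d : Bool} {c : List (Tok ι)} {j : ℕ} : (∀ t ∈ c, Sup f t) →
      Sup f (.made r d c j)

theorem sup_made {ι : Type v} {f : ℕ → Prop} {r : ι} {d : Bool} {c : List (Tok ι)} {j : ℕ} :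
    Sup f (.made r d c j) ↔ ∀ t ∈ c, Sup f t := by
  constructor
  · intro h
    generalize ht : Tok.made r d c j = t at h
    cases h with
    | orig _ => exact absurd ht made_ne_orig
    | made h =>
      rw [made_inj] at ht
      obtain ⟨rfl, rfl, rfl, rfl⟩ := ht
      exact h
  · exact .made

theorem sup_orig {ι : Type v} {f : ℕ → Prop} {n : ℕ} :
    Sup f (.orig n : Tok ι) ↔ f n := by
  constructor
  · intro h
    generalize ht : Tok.orig n = t at h
    cases h with
    | orig h => cases ht; exact h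
    | made _ => exact absurd ht.symm made_ne_orig
  · exact .orig

/-- Left tokens. -/
abbrev LtT {ι : Type v} (n : ℕ) (t : Tok ι) : Prop := Sup (fun i => i < n) t
/-- Right tokens. -/
abbrev RtT {ι : Type v} (n : ℕ) (t : Tok ι) : Prop := Sup (fun i => n ≤ i) t

theorem ltT_made {ι : Type v} {n : ℕ} {r : ι} {d : Bool} {c : List (Tok ι)} {j : ℕ} :
    LtT n (.made r d c j) ↔ ∀ t ∈ c, LtT n t := sup_made
theorem rtT_made {ι : Type v} {n : ℕ} {r : ι} {d : Bool} {c : List (Tok ι)} {j : ℕ} :
    RtT n (.made r d c j) ↔ ∀ t ∈ c, RtT n t := sup_made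
theorem ltT_orig {ι : Type v} {n m : ℕ} : LtT n (.orig m : Tok ι) ↔ m < n := sup_orig
theorem rtT_orig {ι : Type v} {n m : ℕ} : RtT n (.orig m : Tok ι) ↔ n ≤ m := sup_orig

theorem good_ne_nil {w : List α} {r : P.ι} {d : Bool} {c : List (Tok P.ι)}
    (h : Good P w (P.side r d) c) : c ≠ [] := by
  intro hc
  rw [hc] at h
  exact P.side_ne r d (List.length_eq_zero_iff.mp h.length.symm)

theorem not_LR {w : List α} {n : ℕ} {t : Tok P.ι} (h : Val P w t) : LtT n t → RtT n t → False := by
  induction h with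
  | @orig m hm =>
    intro h1 h2
    rw [ltT_orig] at h1
    rw [rtT_orig] at h2
    omega
  | @made r d c j hc hl hj hn ih =>
    intro h1 h2
    have hg : Good P w (P.side r d) c := ⟨hc, hl⟩
    obtain ⟨t, c', rfl⟩ := List.exists_cons_of_ne_nil (good_ne_nil hg)
    rw [ltT_made] at h1
    rw [rtT_made] at h2
    exact ih t (by simp) (h1 t (by simp)) (h2 t (by simp))

/-- The base cell of a token involving both sides. -/
inductive Base {ι : Type v} (n : ℕ) : Tok ι → (ι × Bool × List (Tok ι)) → Prop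
  | here {r : ι} {d : Bool} {c : List (Tok ι)} {j : ℕ} : (∀ t ∈ c, LtT n t ∨ RtT n t) →
      (¬ ∀ t ∈ c, LtT n t) → (¬ ∀ t ∈ c, RtT n t) → Base n (.made r d c j) (r, d, c)
  | there {r : ι} {d : Bool} {c : List (Tok ι)} {j : ℕ} {t : Tok ι}
      {κ : ι × Bool × List (Tok ι)} : t ∈ c → Base n t κ → Base n (.made r d c j) κ

theorem base_not_L {ι : Type v} {n : ℕ} {t : Tok ι} {κ : ι × Bool × List (Tok ι)}
    (h : Base n t κ) : ¬ LtT n t := by
  induction h with
  | here h1 h2 h3 => intro h; rw [ltT_made] at h; exact h2 h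
  | there h1 h2 ih => intro h; rw [ltT_made] at h; exact ih (h _ h1)

theorem base_not_R {ι : Type v} {n : ℕ} {t : Tok ι} {κ : ι × Bool × List (Tok ι)}
    (h : Base n t κ) : ¬ RtT n t := by
  induction h with
  | here h1 h2 h3 => intro h; rw [rtT_made] at h; exact h3 h
  | there h1 h2 ih => intro h; rw [rtT_made] at h; exact ih (h _ h1)

theorem base_made {ι : Type v} {n : ℕ} {r : ι} {d : Bool} {c : List (Tok ι)} {j : ℕ}
    {κ : ι × Bool × List (Tok ι)} (h : Base n (.made r d c j) κ) :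
    (κ = (r, d, c) ∧ (∀ t ∈ c, LtT n t ∨ RtT n t) ∧ (¬ ∀ t ∈ c, LtT n t) ∧
      (¬ ∀ t ∈ c, RtT n t)) ∨ ∃ t ∈ c, Base n t κ := by
  generalize ht : Tok.made r d c j = t at h
  cases h with
  | here h1 h2 h3 =>
    rw [made_inj] at ht
    obtain ⟨rfl, rfl, rfl, rfl⟩ := ht
    exact Or.inl ⟨rfl, h1, h2, h3⟩
  | there h1 h2 =>
    rw [made_inj] at ht
    obtain ⟨rfl, rfl, rfl, rfl⟩ := ht
    exact Or.inr ⟨_, h1, h2⟩

theorem not_base_orig {ι : Type v} {n m : ℕ} {κ : ι × Bool × List (Tok ι)} :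
    ¬ Base n (.orig m) κ := by
  intro h
  generalize ht : Tok.orig m = t at h
  cases h with
  | here _ _ _ => exact absurd ht.symm made_ne_orig
  | there _ _ => exact absurd ht.symm made_ne_orig

theorem exists_base {w : List α} {n : ℕ} {t : Tok P.ι} (h : Val P w t) : ¬ LtT n t →
    ¬ RtT n t → ∃ κ, Base n t κ := by
  induction h with
  | @orig m hm =>
    intro h1 h2
    rw [ltT_orig] at h1
    rw [rtT_orig] at h2
    omega
  | @made r d c j hc hl hj hn ih =>
    intro h1 h2
    rw [ltT_made] at h1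
    rw [rtT_made] at h2
    by_cases hall : ∀ t ∈ c, LtT n t ∨ RtT n t
    · exact ⟨_, .here hall h1 h2⟩
    · push Not at hall
      obtain ⟨t, ht, h3, h4⟩ := hall
      obtain ⟨κ, hκ⟩ := ih t ht h3 h4
      exact ⟨κ, .there ht hκ⟩

/-- Sorted states: left tokens, then mixed tokens, then right tokens. -/
def Srt {ι : Type v} (n : ℕ) (S : List (Tok ι)) : Prop :=
  S.Pairwise (fun t t' => (RtT n t → RtT n t') ∧ (LtT n t' → LtT n t))

/-- `κ` is a base cell of some token of `S`. -/
def HB {ι : Type v} (n : ℕ) (S : List (Tok ι)) (κ : ι × Bool × List (Tok ι)) : Prop :=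
  ∃ t ∈ S, Base n t κ

/-- Uniqueness of the base cell. -/
def Uniq {ι : Type v} (n : ℕ) (S : List (Tok ι)) : Prop :=
  ∀ κ κ', HB n S κ → HB n S κ' → κ = κ'

theorem srt_three {ι : Type v} {n : ℕ} {A B C : List (Tok ι)} :
    Srt n (A ++ B ++ C) ↔ Srt n A ∧ Srt n B ∧ Srt n C ∧
      (∀ x ∈ A, ∀ y ∈ B, (RtT n x → RtT n y) ∧ (LtT n y → LtT n x)) ∧
      (∀ x ∈ A, ∀ y ∈ C, (RtT n x → RtT n y) ∧ (LtT n y → LtT n x)) ∧
      (∀ x ∈ B, ∀ y ∈ C, (RtT n x → RtT n y) ∧ (LtT n y → LtT n x)) := by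
  unfold Srt
  rw [List.pairwise_append, List.pairwise_append]
  constructor
  · rintro ⟨⟨h1, h2, h3⟩, h4, h5⟩
    refine ⟨h1, h2, h4, h3, fun x hx y hy => h5 x (by simp [hx]) y hy,
      fun x hx y hy => h5 x (by simp [hx]) y hy⟩
  · rintro ⟨h1, h2, h4, h3, h5, h6⟩
    refine ⟨⟨h1, h2, h3⟩, h4, fun x hx y hy => ?_⟩
    rcases List.mem_append.mp hx with hx | hx
    · exact h5 x hx y hy
    · exact h6 x hx y hy

theorem hb_block {n : ℕ} {r : P.ι} {d : Bool} {c : List (Tok P.ι)}
    {κ : P.ι × Bool × List (Tok P.ι)} (h : HB n (block P r d c) κ) :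
    HB n c κ ∨ (κ = (r, d, c) ∧ (∀ t ∈ c, LtT n t ∨ RtT n t) ∧ (¬ ∀ t ∈ c, LtT n t) ∧
      (¬ ∀ t ∈ c, RtT n t)) := by
  obtain ⟨t, ht, hb⟩ := h
  obtain ⟨j, hj, rfl⟩ := mem_block.mp ht
  rcases base_made hb with h | ⟨t', h1, h2⟩
  · exact Or.inr h
  · exact Or.inl ⟨t', h1, h2⟩

theorem hb_of_mem {ι : Type v} {n : ℕ} {S T : List (Tok ι)} {κ : ι × Bool × List (Tok ι)}
    (h : HB n S κ) (hST : ∀ t ∈ S, t ∈ T) : HB n T κ := by
  obtain ⟨t, ht, hb⟩ := h
  exact ⟨t, hST t ht, hb⟩

theorem inv_step {w : List α} {n : ℕ} {e : DE P} {S : List (Tok P.ι)}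
    (hg : Good P w e.src S) (hnc : NCs e S) (hs : Srt n S) (hu : Uniq n S) :
    Srt n (act1 e S) ∧ Uniq n (act1 e S) ∧
      (∀ κ κ', HB n S κ → HB n (act1 e S) κ' → κ = κ') := by
  obtain ⟨S₁, c, S₂, rfl, g1, g2, g3, g4⟩ := good_edge hg
  have hcan := (ncs_eq e g1.length g2.length).mp hnc
  rw [g4, cs_of_not hcan]
  obtain ⟨a1, a2, a3, a4, a5, a6⟩ := srt_three.mp hs
  obtain ⟨t₀, c', hc0⟩ := List.exists_cons_of_ne_nil (good_ne_nil g2)
  have ht₀ : t₀ ∈ c := by rw [hc0]; simp
  have hsrt : Srt n (S₁ ++ block P e.r e.d c ++ S₂) := by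
    rw [srt_three]
    refine ⟨a1, ?_, a3, ?_, a5, ?_⟩
    · unfold Srt
      apply List.pairwise_of_forall_mem_list
      intro x hx y hy
      obtain ⟨i, hi, rfl⟩ := mem_block.mp hx
      obtain ⟨j, hj, rfl⟩ := mem_block.mp hy
      rw [ltT_made, ltT_made, rtT_made, rtT_made]
      exact ⟨id, id⟩
    · intro x hx y hy
      obtain ⟨j, hj, rfl⟩ := mem_block.mp hy
      rw [ltT_made, rtT_made]
      exact ⟨fun h t ht => (a4 x hx t ht).1 h, fun h => (a4 x hx t₀ ht₀).2 (h t₀ ht₀)⟩
    · intro x hx y hy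
      obtain ⟨j, hj, rfl⟩ := mem_block.mp hx
      rw [ltT_made, rtT_made]
      exact ⟨fun h => (a6 t₀ ht₀ y hy).1 (h t₀ ht₀), fun h t ht => (a6 t ht y hy).2 h⟩
  -- key facts on bases
  have hkey : ∀ κ', HB n (S₁ ++ block P e.r e.d c ++ S₂) κ' → HB n (S₁ ++ c ++ S₂) κ' ∨
      (κ' = (e.r, e.d, c) ∧ ∀ κ, ¬ HB n (S₁ ++ c ++ S₂) κ) := by
    rintro κ' ⟨t, ht, hb⟩
    simp only [List.mem_append] at ht
    rcases ht with (ht | ht) | ht
    · left; exact ⟨t, by simp [ht], hb⟩
    · rcases hb_block ⟨t, ht, hb⟩ with h | ⟨h1, h2, h3, h4⟩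
      · left; exact hb_of_mem h (fun t ht => by simp [ht])
      · right
        refine ⟨h1, ?_⟩
        rintro κ ⟨s, hs', hbs⟩
        push Not at h3 h4
        obtain ⟨t₁, m1, m1'⟩ := h3
        obtain ⟨t₂, m2, m2'⟩ := h4
        have n1 := (h2 t₁ m1).resolve_left m1'
        have n2 := (h2 t₂ m2).resolve_right m2'
        simp only [List.mem_append] at hs'
        rcases hs' with (hs' | hs') | hs'
        · exact base_not_L hbs ((a4 s hs' t₂ m2).2 n2)
        · rcases h2 s hs' with h | h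
          · exact base_not_L hbs h
          · exact base_not_R hbs h
        · exact base_not_R hbs ((a6 t₁ m1 s hs').1 n1)
    · left; exact ⟨t, by simp [ht], hb⟩
  refine ⟨hsrt, ?_, ?_⟩
  · intro κ κ' h h'
    rcases hkey κ h with k | ⟨k1, k2⟩
    · rcases hkey κ' h' with k' | ⟨k1', k2'⟩
      · exact hu κ κ' k k'
      · exact absurd k (k2' κ)
    · rcases hkey κ' h' with k' | ⟨k1', k2'⟩
      · exact absurd k' (k2 κ')
      · rw [k1, k1']
  · intro κ κ' h h'
    rcases hkey κ' h' with k' | ⟨k1', k2'⟩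
    · exact hu κ κ' h k'
    · exact absurd h (k2' κ)

theorem srt_s0 (n : ℕ) (w : List α) : Srt n (s0 P w) := by
  unfold Srt s0
  rw [List.pairwise_map]
  refine List.pairwise_lt_range.imp ?_
  intro i j hij
  rw [ltT_orig, ltT_orig, rtT_orig, rtT_orig]
  omega

theorem no_hb_orig {ι : Type v} {n : ℕ} {S : List (Tok ι)} (ho : ∀ t ∈ S, ∃ n, t = Tok.orig n)
    (κ : ι × Bool × List (Tok ι)) : ¬ HB n S κ := by
  rintro ⟨t, ht, hb⟩
  obtain ⟨m, rfl⟩ := ho t ht
  exact not_base_orig hb

theorem inv_nc {w : List α} {n : ℕ} (L : List (DE P)) : ∀ {x : List α}, IsPath w L x →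
    NC L (s0 P w) → Srt n (act L (s0 P w)) ∧ Uniq n (act L (s0 P w)) := by
  induction L using List.reverseRecOn with
  | nil =>
    intro x _ _
    exact ⟨srt_s0 n w, fun κ κ' h _ => absurd h (no_hb_orig (s0_orig w) κ)⟩
  | append_singleton L₀ e ih =>
    intro x hL hnc
    obtain ⟨m, hL₀, hm, hx⟩ := isPath_append.mp hL
    subst hm
    rw [nc_append] at hnc
    obtain ⟨i1, i2⟩ := ih hL₀ hnc.1
    obtain ⟨j1, j2, -⟩ := inv_step (good_act hL₀ (good_s0 w)) hnc.2.1 i1 i2
    rw [act_append, act_cons, act_nil]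
    exact ⟨j1, j2⟩

theorem inv_all {w x : List α} {n : ℕ} {L : List (DE P)} (hL : IsPath w L x) :
    Srt n (act L (s0 P w)) ∧ Uniq n (act L (s0 P w)) := by
  obtain ⟨L', h1, h2, -⟩ := red (good_s0 w) (s0_orig w) L hL
  rw [act_hty h1 (good_s0 w)]
  exact inv_nc L' h1.right h2

/-- The base cell does not change along a move between two states having one. -/
theorem claimB {w : List α} {n : ℕ} {L : List (DE P)} {e : DE P} (hL : IsPath w L e.src)
    {κ κ' : P.ι × Bool × List (Tok P.ι)} (h : HB n (act L (s0 P w)) κ)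
    (h' : HB n (act (L ++ [e]) (s0 P w)) κ') : κ = κ' := by
  have hg := good_act hL (good_s0 (P := P) w)
  have he : IsPath e.src [e] e.tgt := ⟨rfl, rfl⟩
  have hg' := good_act (hL.append he) (good_s0 (P := P) w)
  obtain ⟨i1, i2⟩ := inv_all (n := n) hL
  obtain ⟨j1, j2⟩ := inv_all (n := n) (hL.append he)
  rw [act_append, act_cons, act_nil] at h' hg' j1 j2
  by_cases hnc : NCs e (act L (s0 P w))
  · exact (inv_step hg hnc i1 i2).2.2 κ κ' h h'
  · have hinv := act1_inv hg
    have hnc' : NCs e.inv (act1 e (act L (s0 P w))) := by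
      obtain ⟨S₁, c, S₂, hS, g1, g2, g3, g4⟩ := good_edge hg
      rw [hS, ncs_eq e g1.length g2.length, not_not] at hnc
      obtain ⟨c', rfl⟩ := hnc
      obtain ⟨k1, k2⟩ := good_unblock g2.1
      rw [g4, cs_block]
      refine (ncs_eq e.inv g1.length k1.length).mpr ?_
      simpa [DE.inv] using k2
    have := (inv_step (e := e.inv) hg' hnc' j1 j2).2.2 κ' κ h'
    rw [hinv] at this
    exact (this h).symm

theorem chainB {w : List α} {n : ℕ} (L : List (DE P)) : ∀ {L₀ : List (DE P)} {x y : List α},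
    IsPath w L₀ x → IsPath x L y →
    (∀ L₁ L₂, L = L₁ ++ L₂ → ∃ κ, HB n (act (L₀ ++ L₁) (s0 P w)) κ) →
    ∀ {κ}, HB n (act L₀ (s0 P w)) κ → HB n (act (L₀ ++ L) (s0 P w)) κ := by
  induction L with
  | nil => intro L₀ x y _ _ _ κ h; rw [List.append_nil]; exact h
  | cons e L ih =>
    intro L₀ x y h1 h2 h3 κ h
    obtain ⟨rfl, h4⟩ := h2
    have he : IsPath e.src [e] e.tgt := ⟨rfl, rfl⟩
    obtain ⟨κ', hκ'⟩ := h3 [e] L rfl
    have := claimB h1 h hκ'
    subst this
    have e1 : L₀ ++ e :: L = (L₀ ++ [e]) ++ L := by simp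
    rw [e1]
    refine ih (h1.append he) h4 ?_ hκ'
    intro L₁ L₂ hL
    have := h3 (e :: L₁) L₂ (by rw [hL]; rfl)
    simpa using this

theorem sup_cs {f : ℕ → Prop} {r : P.ι} {d : Bool} {c : List (Tok P.ι)}
    (h : ∀ t ∈ c, Sup f t) : ∀ t ∈ cs P r d c, Sup f t := by
  by_cases hn : ∃ c', c = block P r (!d) c'
  · obtain ⟨c', rfl⟩ := hn
    rw [cs_block]
    obtain ⟨l, hl⟩ := block_cons (P := P) r (!d) c'
    have := h (.made r (!d) c' 0) (by rw [hl]; simp)
    rwa [sup_made] at this
  · rw [cs_of_not hn]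
    intro t ht
    obtain ⟨j, hj, rfl⟩ := mem_block.mp ht
    exact .made h

theorem sup_act {w y : List α} {f : ℕ → Prop} (L : List (DE P)) : ∀ {x : List α}
    {S : List (Tok P.ι)}, IsPath x L y → Good P w x S → (∀ t ∈ S, Sup f t) →
      ∀ t ∈ act L S, Sup f t := by
  induction L with
  | nil => intro x S _ _ h; exact h
  | cons e L ih =>
    intro x S hL hg h
    obtain ⟨rfl, h2⟩ := hL
    rw [act_cons]
    refine ih h2 (good_act1 hg) ?_
    obtain ⟨S₁, c, S₂, rfl, g1, g2, g3, g4⟩ := good_edge hg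
    rw [g4]
    intro t ht
    simp only [List.mem_append] at ht
    rcases ht with (ht | ht) | ht
    · exact h t (by simp [ht])
    · exact sup_cs (fun t ht => h t (by simp [ht])) t ht
    · exact h t (by simp [ht])

section

variable {p q p' q' : List α}

theorem pl_left_tokens {μ : List (DE P)} (hμ : IsPath p μ p') :
    ∀ t ∈ act μ (s0 P p), LtT p.length t := by
  refine sup_act μ hμ (good_s0 p) ?_
  intro t ht
  simp only [s0, List.mem_map, List.mem_range] at ht
  obtain ⟨n, hn, rfl⟩ := ht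
  exact .orig hn

theorem pl_right_tokens {ν : List (DE P)} (hν : IsPath q ν q') :
    ∀ t ∈ act ν (sh P p q), RtT p.length t := by
  refine sup_act ν hν (good_sh p q) ?_
  intro t ht
  simp only [sh, List.mem_map, List.mem_range] at ht
  obtain ⟨n, hn, rfl⟩ := ht
  exact .orig (by omega)

/-- Parallel compositions lead to states without mixed tokens. -/
theorem claimA' {μ ν : List (DE P)} (hμ : IsPath p μ p') (hν : IsPath q ν q')
    (κ : P.ι × Bool × List (Tok P.ι)) :
    ¬ HB p.length (act (pl p' q μ ν) (s0 P (p ++ q))) κ := by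
  rintro ⟨t, ht, hb⟩
  rw [act_pl hμ hν, List.mem_append] at ht
  rcases ht with ht | ht
  · exact base_not_L hb (pl_left_tokens hμ t ht)
  · exact base_not_R hb (pl_right_tokens hν t ht)

/-- Paths leading to states without mixed tokens are parallel compositions. -/
theorem claimA_nc (L : List (DE P)) : ∀ {x : List α}, IsPath (p ++ q) L x →
    NC L (s0 P (p ++ q)) → (∀ κ, ¬ HB p.length (act L (s0 P (p ++ q))) κ) →
    ∃ p₁ q₁ μ ν, IsPath p μ p₁ ∧ IsPath q ν q₁ ∧ x = p₁ ++ q₁ ∧
      Hty (p ++ q) x L (pl p₁ q μ ν) := by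
  induction L using List.reverseRecOn with
  | nil =>
    intro x hL _ _
    simp only [IsPath] at hL
    subst hL
    exact ⟨p, q, [], [], isPath_nil _, isPath_nil _, rfl, by
      rw [pl_nil]; exact .refl (isPath_nil _)⟩
  | append_singleton L₀ e ih =>
    intro x hL hnc hno
    obtain ⟨m, hL₀, hm, hx⟩ := isPath_append.mp hL
    subst hm
    simp only [IsPath] at hx
    subst hx
    rw [nc_append] at hnc
    have hg := good_act hL₀ (good_s0 (P := P) (p ++ q))
    obtain ⟨S₁, c, S₂, hS, g1, g2, g3, g4⟩ := good_edge hg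
    have hcan : ¬ ∃ c', c = block P e.r (!e.d) c' := by
      have := hnc.2.1
      rw [hS, ncs_eq e g1.length g2.length] at this
      exact this
    rw [act_append, act_cons, act_nil, g4, cs_of_not hcan] at hno
    obtain ⟨bl, hbl⟩ := block_cons (P := P) e.r e.d c
    have hmem : Tok.made e.r e.d c 0 ∈ S₁ ++ block P e.r e.d c ++ S₂ := by rw [hbl]; simp
    have hcno : ∀ t ∈ c, ∀ κ, ¬ Base p.length t κ := fun t ht κ hb =>
      hno κ ⟨_, hmem, .there ht hb⟩
    have hno₀ : ∀ κ, ¬ HB p.length (act L₀ (s0 P (p ++ q))) κ := by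
      rintro κ ⟨t, ht, hb⟩
      rw [hS] at ht
      simp only [List.mem_append] at ht
      rcases ht with (ht | ht) | ht
      · exact hno κ ⟨t, by simp [ht], hb⟩
      · exact hcno t ht κ hb
      · exact hno κ ⟨t, by simp [ht], hb⟩
    obtain ⟨p₁, q₁, μ, ν, h1, h2, h3, h4⟩ := ih hL₀ hnc.1 hno₀
    have hstate : act L₀ (s0 P (p ++ q)) = act μ (s0 P p) ++ act ν (sh P p q) := by
      rw [act_hty h4 (good_s0 _), act_pl h1 h2]
    have hlen1 : (act μ (s0 P p)).length = p₁.length := (good_act h1 (good_s0 p)).length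
    have hval : ∀ t ∈ act L₀ (s0 P (p ++ q)), Val P (p ++ q) t := hg.1
    have hLR : ∀ t ∈ c, LtT p.length t ∨ RtT p.length t := by
      intro t ht
      by_contra hcon
      push Not at hcon
      obtain ⟨κ, hκ⟩ := exists_base (hval t (by rw [hS]; simp [ht])) hcon.1 hcon.2
      exact hcno t ht κ hκ
    have hall : (∀ t ∈ c, LtT p.length t) ∨ (∀ t ∈ c, RtT p.length t) := by
      by_contra hcon
      push Not at hcon
      refine hno _ ⟨_, hmem, .here hLR ?_ ?_⟩
      · intro h
        obtain ⟨⟨t, ht, h5⟩, -⟩ := hcon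
        exact h5 (h t ht)
      · intro h
        obtain ⟨-, ⟨t, ht, h5⟩⟩ := hcon
        exact h5 (h t ht)
    have hcpos : 0 < c.length := List.length_pos_of_ne_nil (good_ne_nil g2)
    rcases hall with hall | hall
    · -- inside the left part
      have hle : S₁.length + c.length ≤ (act μ (s0 P p)).length := by
        by_contra hlt
        have hi : S₁.length + (c.length - 1) < (act L₀ (s0 P (p ++ q))).length := by
          rw [hS]; simp only [List.length_append]; omega
        have ha : (act L₀ (s0 P (p ++ q)))[S₁.length + (c.length - 1)]? =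
            some ((c)[c.length - 1]'(by omega)) := by
          rw [hS, List.append_assoc, List.getElem?_append_right (by omega),
            List.getElem?_append_left (by omega)]
          rw [List.getElem?_eq_getElem (by omega)]
          congr 2
          omega
        rw [hstate, List.getElem?_append_right (by omega)] at ha
        have hR := pl_right_tokens (p := p) h2 _ (List.mem_of_getElem? ha)
        have hL' := hall _ (List.getElem_mem (by omega : c.length - 1 < c.length))
        exact not_LR (g2.1 _ (List.getElem_mem (by omega : c.length - 1 < c.length))) hL' hR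
      have hsplit : p₁ ++ q₁ = (e.a ++ P.side e.r e.d) ++ e.b := h3.symm
      obtain ⟨b₁, hb1, hb2⟩ := append_len_split hsplit (by
        rw [List.length_append, ← g1.length, ← g2.length, ← hlen1]; exact hle)
      have he' : IsPath p₁ [(⟨e.a, e.r, e.d, b₁⟩ : DE P)] (e.a ++ P.side e.r (!e.d) ++ b₁) :=
        ⟨hb1, rfl⟩
      refine ⟨e.a ++ P.side e.r (!e.d) ++ b₁, q₁, μ ++ [⟨e.a, e.r, e.d, b₁⟩], ν,
        h1.append he', h2, ?_, ?_⟩
      · unfold DE.tgt; rw [hb2]; simp
      · have e1 : e = (⟨e.a, e.r, e.d, b₁⟩ : DE P).wr q₁ := by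
          simp only [DE.wr]; rw [← hb2]
        have a1 := pl_append h1 he' h2 (isPath_nil q₁)
        rw [List.append_nil, pl_right] at a1
        have a2 : Hty (p ++ q) e.tgt (L₀ ++ [e]) (pl p₁ q μ ν ++ [e]) :=
          h4.append_right ⟨rfl, rfl⟩
        refine a2.trans ?_
        have e2 : wr q₁ [(⟨e.a, e.r, e.d, b₁⟩ : DE P)] = [e] := by rw [wr_cons, ← e1]; rfl
        rw [e2] at a1
        have e3 : e.a ++ P.side e.r (!e.d) ++ b₁ ++ q₁ = e.tgt := by
          unfold DE.tgt; rw [hb2]; simp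
        rw [e3] at a1
        exact a1
    · -- inside the right part
      have hle : (act μ (s0 P p)).length ≤ S₁.length := by
        by_contra hlt
        have ha : (act L₀ (s0 P (p ++ q)))[S₁.length]? = some ((c)[0]'hcpos) := by
          rw [hS, List.append_assoc, List.getElem?_append_right (by omega),
            List.getElem?_append_left (by omega), Nat.sub_self,
            List.getElem?_eq_getElem hcpos]
        rw [hstate, List.getElem?_append_left (by omega)] at ha
        have hL' := pl_left_tokens h1 _ (List.mem_of_getElem? ha)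
        exact not_LR (g2.1 _ (List.getElem_mem hcpos)) hL' (hall _ (List.getElem_mem hcpos))
      have hsplit : e.a ++ (P.side e.r e.d ++ e.b) = p₁ ++ q₁ := by
        rw [← h3]; simp [DE.src]
      obtain ⟨a₁, hb1, hb2⟩ := append_len_split hsplit (by
        rw [← hlen1, ← g1.length]; exact hle)
      have he' : IsPath q₁ [(⟨a₁, e.r, e.d, e.b⟩ : DE P)] (a₁ ++ P.side e.r (!e.d) ++ e.b) :=
        ⟨by rw [hb2]; simp [DE.src], rfl⟩
      refine ⟨p₁, a₁ ++ P.side e.r (!e.d) ++ e.b, μ, ν ++ [⟨a₁, e.r, e.d, e.b⟩],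
        h1, h2.append he', ?_, ?_⟩
      · unfold DE.tgt; rw [hb1]; simp
      · have e1 : e = (⟨a₁, e.r, e.d, e.b⟩ : DE P).wl p₁ := by
          simp only [DE.wl]; rw [← hb1]
        have a1 := pl_append h1 (isPath_nil p₁) h2 he'
        rw [List.append_nil, pl_left] at a1
        have a2 : Hty (p ++ q) e.tgt (L₀ ++ [e]) (pl p₁ q μ ν ++ [e]) :=
          h4.append_right ⟨rfl, rfl⟩
        refine a2.trans ?_
        have e2 : wl p₁ [(⟨a₁, e.r, e.d, e.b⟩ : DE P)] = [e] := by rw [wl_cons, ← e1]; rfl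
        rw [e2] at a1
        have e3 : p₁ ++ (a₁ ++ P.side e.r (!e.d) ++ e.b) = e.tgt := by
          unfold DE.tgt; rw [hb1]; simp
        rw [e3] at a1
        exact a1

theorem claimA {L : List (DE P)} {x : List α} (hL : IsPath (p ++ q) L x)
    (h : ∀ κ, ¬ HB p.length (act L (s0 P (p ++ q))) κ) :
    ∃ p₁ q₁ μ ν, IsPath p μ p₁ ∧ IsPath q ν q₁ ∧ x = p₁ ++ q₁ ∧
      Hty (p ++ q) x L (pl p₁ q μ ν) := by
  obtain ⟨L', h1, h2, -⟩ := red (good_s0 _) (s0_orig _) L hL
  rw [act_hty h1 (good_s0 _)] at h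
  obtain ⟨p₁, q₁, μ, ν, k1, k2, k3, k4⟩ := claimA_nc L' h1.right h2 h
  exact ⟨p₁, q₁, μ, ν, k1, k2, k3, h1.trans k4⟩

end

end DG

end FileLL

section FileLL2

/-! Comparability of cuts, main lemma (MP_f61096_al). -/

namespace DG

universe u v

variable {α : Type u} {P : Pres.{u, v} α}

theorem LL_core {p q y : List α} {β Γ' Λ : List (DE P)} {e : DE P} (hβ : IsPath q β q)
    (he : p ++ q = e.src) (hΓ' : IsPath e.tgt Γ' y)
    (hx : ∀ Γ₁ Γ₂, Γ' = Γ₁ ++ Γ₂ → ∃ κ, HB p.length (act (e :: Γ₁) (s0 P (p ++ q))) κ)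
    (hΛ : IsPath y Λ y)
    (hy : ∀ Λ₁ Λ₂, Λ = Λ₁ ++ Λ₂ → ∃ κ, HB p.length (act (e :: Γ' ++ Λ₁) (s0 P (p ++ q))) κ)
    (hH : Hty (p ++ q) y (wl p β ++ e :: Γ') (e :: Γ' ++ Λ)) : ¬ NoFix P q β := by
  intro hNF
  have hpe : IsPath (p ++ q) [e] e.tgt := ⟨he, rfl⟩
  have hgs : Good P (p ++ q) e.src (s0 P (p ++ q)) := by
    have := good_s0 (P := P) (p ++ q)
    rw [← he]; exact this
  obtain ⟨S₁, c, S₂, hS, g1, g2, g3, g4⟩ := good_edge hgs
  have hso := s0_orig (P := P) (p ++ q)
  have hco : ∀ t ∈ c, ∃ n, t = Tok.orig n := fun t ht => hso t (by rw [hS]; simp [ht])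
  have hcan : ¬ ∃ c', c = block P e.r (!e.d) c' := by
    rintro ⟨c', hc'⟩
    obtain ⟨l, hl⟩ := block_cons (P := P) e.r (!e.d) c'
    obtain ⟨n, hn⟩ := hco (.made e.r (!e.d) c' 0) (by rw [hc', hl]; simp)
    exact made_ne_orig hn
  have hact : act [e] (s0 P (p ++ q)) = S₁ ++ block P e.r e.d c ++ S₂ := by
    rw [act_cons, act_nil, g4, cs_of_not hcan]
  obtain ⟨κ, hκ⟩ := hx [] Γ' rfl
  have hκ0 := hκ
  rw [hact] at hκ
  have hκc : κ = (e.r, e.d, c) ∧ (∀ t ∈ c, LtT p.length t ∨ RtT p.length t) ∧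
      (¬ ∀ t ∈ c, LtT p.length t) ∧ (¬ ∀ t ∈ c, RtT p.length t) := by
    obtain ⟨t, ht, hb⟩ := hκ
    simp only [List.mem_append] at ht
    rcases ht with (ht | ht) | ht
    · obtain ⟨n, rfl⟩ := hso t (by rw [hS]; simp [ht])
      exact absurd hb not_base_orig
    · rcases hb_block ⟨t, ht, hb⟩ with h | h
      · exact absurd h (no_hb_orig hco κ)
      · exact h
    · obtain ⟨n, rfl⟩ := hso t (by rw [hS]; simp [ht])
      exact absurd hb not_base_orig
  obtain ⟨hκe, hcLR, hcnL, hcnR⟩ := hκc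
  -- positions
  have hidx : ∀ i, (h : i < c.length) → (c)[i]'h = Tok.orig (S₁.length + i) := by
    intro i h
    have e1 : (s0 P (p ++ q))[S₁.length + i]? = some ((c)[i]'h) := by
      rw [hS, List.append_assoc, List.getElem?_append_right (by omega),
        List.getElem?_append_left (by omega), List.getElem?_eq_getElem (by omega)]
      congr 2
      omega
    have hlt : S₁.length + i < (p ++ q).length := by
      have := (List.getElem?_eq_some_iff.mp e1).1
      simpa [s0] using this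
    have e2 : (s0 P (p ++ q))[S₁.length + i]? = some (Tok.orig (S₁.length + i)) := by
      unfold s0
      rw [List.getElem?_map, List.getElem?_range hlt]
      rfl
    rw [e2, Option.some.injEq] at e1
    exact e1.symm
  have hlow : S₁.length < p.length := by
    by_contra hcon
    apply hcnR
    intro t ht
    obtain ⟨i, hi, rfl⟩ := List.mem_iff_getElem.mp ht
    rw [hidx i hi, rtT_orig]
    omega
  have hhigh : p.length < S₁.length + c.length := by
    by_contra hcon
    apply hcnL
    intro t ht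
    obtain ⟨i, hi, rfl⟩ := List.mem_iff_getElem.mp ht
    rw [hidx i hi, ltT_orig]
    omega
  -- chains
  have c1 : HB p.length (act ([e] ++ Γ') (s0 P (p ++ q))) κ :=
    chainB Γ' hpe hΓ' (fun Γ₁ Γ₂ h => hx Γ₁ Γ₂ h) hκ0
  have c2 : HB p.length (act ([e] ++ Γ' ++ Λ) (s0 P (p ++ q))) κ :=
    chainB Λ (hpe.append hΓ') hΛ (fun Λ₁ Λ₂ h => hy Λ₁ Λ₂ h) c1
  -- the other path
  have hwb : IsPath (p ++ q) (wl p β) (p ++ q) := hβ.wl p
  have hstate : act (wl p β) (s0 P (p ++ q)) = s0 P p ++ act β (sh P p q) := by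
    have := act_pl (isPath_nil (P := P) p) hβ
    rwa [pl_left, act_nil] at this
  have hga : Good P (p ++ q) e.src (act (wl p β) (s0 P (p ++ q))) := by
    have := good_act hwb (good_s0 (P := P) (p ++ q))
    rw [← he]; exact this
  obtain ⟨T₁, ca, T₂, hT, f1, f2, f3, f4⟩ := good_edge hga
  have hlT : T₁.length = S₁.length := by rw [f1.length, g1.length]
  have hlc : ca.length = c.length := by rw [f2.length, g2.length]
  have hs0l : (s0 P p).length = p.length := by simp [s0]
  have hcpos : 0 < c.length := List.length_pos_of_ne_nil (good_ne_nil g2)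
  have hRtok := pl_right_tokens (P := P) (p := p) hβ
  have hLtok : ∀ t ∈ s0 P p, LtT p.length t := by
    have := pl_left_tokens (P := P) (isPath_nil p)
    simpa using this
  have hcaidx : ∀ i, (h : i < ca.length) →
      (act (wl p β) (s0 P (p ++ q)))[S₁.length + i]? = some ((ca)[i]'h) := by
    intro i h
    rw [hT, List.append_assoc, List.getElem?_append_right (by omega),
      List.getElem?_append_left (by omega), List.getElem?_eq_getElem (by omega)]
    congr 2
    omega
  have hca0 : LtT p.length ((ca)[0]'(by omega)) := by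
    have h := hcaidx 0 (by omega)
    rw [hstate, List.getElem?_append_left (by omega)] at h
    exact hLtok _ (List.mem_of_getElem? h)
  have hcan1 : RtT p.length ((ca)[p.length - S₁.length]'(by omega)) ∧
      (act β (sh P p q)).head? = some ((ca)[p.length - S₁.length]'(by omega)) := by
    have h := hcaidx (p.length - S₁.length) (by omega)
    rw [hstate, List.getElem?_append_right (by omega)] at h
    refine ⟨hRtok _ (List.mem_of_getElem? h), ?_⟩
    have e1 : S₁.length + (p.length - S₁.length) - (s0 P p).length = 0 := by omega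
    rw [e1] at h
    rw [← h, List.head?_eq_getElem?]
  have hcaLR : ∀ t ∈ ca, LtT p.length t ∨ RtT p.length t := by
    intro t ht
    have : t ∈ act (wl p β) (s0 P (p ++ q)) := by rw [hT]; simp [ht]
    rw [hstate, List.mem_append] at this
    rcases this with h | h
    · exact Or.inl (hLtok t h)
    · exact Or.inr (hRtok t h)
  have hcanL : ¬ ∀ t ∈ ca, LtT p.length t := by
    intro h
    exact not_LR (f2.1 _ (List.getElem_mem _)) (h _ (List.getElem_mem _)) hcan1.1
  have hcanR : ¬ ∀ t ∈ ca, RtT p.length t := by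
    intro h
    exact not_LR (f2.1 _ (List.getElem_mem _)) hca0 (h _ (List.getElem_mem _))
  have hcacan : ¬ ∃ c', ca = block P e.r (!e.d) c' := by
    rintro ⟨c', hc'⟩
    apply hcanL
    have h0 := hca0
    simp only [hc', block_getElem, ltT_made] at h0
    intro t ht
    rw [hc'] at ht
    obtain ⟨j, hj, rfl⟩ := mem_block.mp ht
    rw [ltT_made]
    exact h0
  have hacta : act (wl p β ++ [e]) (s0 P (p ++ q)) = T₁ ++ block P e.r e.d ca ++ T₂ := by
    rw [act_append, act_cons, act_nil, f4, cs_of_not hcacan]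
  obtain ⟨bl, hbl⟩ := block_cons (P := P) e.r e.d ca
  have d1 : HB p.length (act (wl p β ++ [e]) (s0 P (p ++ q))) (e.r, e.d, ca) := by
    rw [hacta]
    exact ⟨.made e.r e.d ca 0, by rw [hbl]; simp, .here hcaLR hcanL hcanR⟩
  have d2 : HB p.length (act (wl p β ++ [e] ++ Γ') (s0 P (p ++ q))) (e.r, e.d, ca) := by
    refine chainB Γ' (hwb.append hpe) hΓ' ?_ d1
    intro Γ₁ Γ₂ h12
    by_contra hcon
    push Not at hcon
    obtain ⟨z, hz1, hz2⟩ := isPath_append.mp (h12 ▸ hΓ')
    have hfull : IsPath (p ++ q) (wl p β ++ [e] ++ Γ₁) z := (hwb.append hpe).append hz1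
    obtain ⟨p₁, q₁, μ, ν, k1, k2, rfl, k3⟩ := claimA hfull hcon
    obtain ⟨κ', hκ'⟩ := hx Γ₁ Γ₂ h12
    have a1 : Hty (p ++ q) (p₁ ++ q₁) (wl p (invL β) ++ (wl p β ++ [e] ++ Γ₁))
        (wl p (invL β) ++ pl p₁ q μ ν) := Hty.append_left (hβ.inv.wl p) k3
    have a2 : Hty (p ++ q) (p₁ ++ q₁) (wl p (invL β) ++ pl p₁ q μ ν)
        (pl p₁ q μ (invL β ++ ν)) := by
      have := pl_append (isPath_nil p) k1 hβ.inv k2
      rwa [pl_left, List.nil_append] at this
    have a3 : Hty (p ++ q) (p₁ ++ q₁) ((wl p (invL β) ++ wl p β) ++ ([e] ++ Γ₁))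
        ([] ++ ([e] ++ Γ₁)) := by
      have := (Hty.inv_append hβ).wl p
      rw [wl_append, wl_nil'] at this
      exact this.append_right (hpe.append hz1)
    have a4 : Hty (p ++ q) (p₁ ++ q₁) (e :: Γ₁) (pl p₁ q μ (invL β ++ ν)) := by
      have a5 := a1.trans a2
      simp only [List.append_assoc, List.nil_append, List.cons_append] at a3 a5
      exact a3.symm.trans a5
    rw [act_hty a4 (good_s0 _)] at hκ'
    exact claimA' k1 (hβ.inv.append k2) κ' hκ'
  have hfin : act (wl p β ++ [e] ++ Γ') (s0 P (p ++ q)) =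
      act ([e] ++ Γ' ++ Λ) (s0 P (p ++ q)) := by
    have := act_hty hH (good_s0 (P := P) (p ++ q))
    rw [List.append_assoc]
    exact this
  rw [hfin] at d2
  have huniq := (inv_all (n := p.length) ((hpe.append hΓ').append hΛ)).2 _ _ c2 d2
  rw [hκe] at huniq
  simp only [Prod.mk.injEq, true_and] at huniq
  -- head of the state of β
  have hhead : (act β (sh P p q)).head? = some (Tok.orig p.length) := by
    rw [hcan1.2]
    have e1 := hidx (p.length - S₁.length) (by omega)
    have e2 : S₁.length + (p.length - S₁.length) = p.length := by omega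
    rw [e2] at e1
    simp only [huniq] at e1
    rw [e1]
  have hq : q ≠ [] := by
    rintro rfl
    rw [List.append_nil] at he
    have h1 := congrArg List.length he
    have h2 : e.src.length = e.a.length + (P.side e.r e.d).length + e.b.length := by
      simp only [DE.src, List.length_append]
    have h3 := g1.length
    have h4 := g2.length
    omega
  obtain ⟨z, q₀, rfl⟩ := List.exists_cons_of_ne_nil hq
  have hsho : ∀ t ∈ sh P p (z :: q₀), ∃ n, t = Tok.orig n := by
    intro t ht
    simp only [sh, List.mem_map, List.mem_range] at ht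
    obtain ⟨n, hn, rfl⟩ := ht
    exact ⟨_, rfl⟩
  obtain ⟨q₁, L', k1, k2, k3, -, -⟩ := lemC' (good_sh p (z :: q₀)) hsho hβ hhead
  apply hNF (.orig 0) (ftok_zero (by simp))
  rw [tr_hty k3]
  apply tr_orig_zero k3.right
  rw [act_head_of_ne k3.right (good_s0 _), s0_cons_head]
  intro f hf
  simp only [wl, List.mem_map] at hf
  obtain ⟨f', -, rfl⟩ := hf
  simp [DE.wl]

variable {w : List α}

/-- Comparability of two cuts. -/
def Cmp (u v : Cut P w) : Prop := u = v ∨ Cut.lt u v ∨ Cut.lt v u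

theorem Cmp.symm {u v : Cut P w} (h : Cmp u v) : Cmp v u := by
  rcases h with h | h | h
  · exact Or.inl h.symm
  · exact Or.inr (Or.inr h)
  · exact Or.inr (Or.inl h)

theorem cut_same {Γ : List (DE P)} {p q p' q' : List α} (h : IsPath w Γ (p ++ q))
    (e : p ++ q = p' ++ q') : Cmp (cut Γ p q h) (cut Γ p' q' (by rw [← e]; exact h)) := by
  have key : ∀ {p q p' q' : List α} (h : IsPath w Γ (p ++ q)) (e : p ++ q = p' ++ q'),
      p'.length ≤ p.length → Cmp (cut Γ p q h) (cut Γ p' q' (by rw [← e]; exact h)) := by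
    intro p q p' q' h e hl
    obtain ⟨m, rfl, rfl⟩ := append_len_split e hl
    by_cases hm : m = []
    · left
      subst hm
      apply cut_words
      · simp
      · simp
    · right; right
      exact ⟨Γ, p', m, q, by rw [← List.append_assoc]; exact h, hm, rfl, rfl⟩
  rcases le_total p'.length p.length with hl | hl
  · exact key h e hl
  · exact (key (by rw [← e]; exact h) e.symm hl).symm

/-- Transport of cuts along a path. -/
def Cut.map {x : List α} (Δ : List (DE P)) (hΔ : IsPath w Δ x) : Cut P x → Cut P w :=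
  Quotient.map (sa := cutSetoid P x) (sb := cutSetoid P w)
    (fun y => ⟨Δ ++ y.L, y.p, y.q, hΔ.append y.isPath⟩) (by
      rintro ⟨L, p, q, hL⟩ ⟨L', p', q', hL'⟩ ⟨μ, ν, h1, h2, h3⟩
      refine ⟨μ, ν, h1, h2, ?_⟩
      show Hty w (p' ++ q') (Δ ++ L ++ pl p' q μ ν) (Δ ++ L')
      rw [List.append_assoc]
      exact Hty.append_left hΔ h3)

theorem map_cut {x : List α} {Δ Γ : List (DE P)} {p q : List α} (hΔ : IsPath w Δ x)
    (h : IsPath x Γ (p ++ q)) :
    Cut.map Δ hΔ (cut Γ p q h) = cut (Δ ++ Γ) p q (hΔ.append h) := rfl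

theorem map_cmp {x : List α} {Δ : List (DE P)} (hΔ : IsPath w Δ x) {u v : Cut P x}
    (h : Cmp u v) : Cmp (Cut.map Δ hΔ u) (Cut.map Δ hΔ v) := by
  have key : ∀ {u v : Cut P x}, Cut.lt u v → Cut.lt (Cut.map Δ hΔ u) (Cut.map Δ hΔ v) := by
    rintro u v ⟨Γ, p, m, q, h1, h2, rfl, rfl⟩
    exact ⟨Δ ++ Γ, p, m, q, hΔ.append h1, h2, rfl, rfl⟩
  rcases h with h | h | h
  · exact Or.inl (by rw [h])
  · exact Or.inr (Or.inl (key h))
  · exact Or.inr (Or.inr (key h))

theorem prefix_pl {p q : List α} {μ ν : List (DE P)} {L₁ L₂ : List (DE P)}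
    (hμ : IsPath p μ p) (hν : IsPath q ν q) (h : pl p q μ ν = L₁ ++ L₂) :
    ∃ p' q' μ' ν', IsPath p μ' p' ∧ IsPath q ν' q' ∧ L₁ = pl p' q μ' ν' := by
  unfold pl at h
  rcases List.append_eq_append_iff.mp h with ⟨M, h1, h2⟩ | ⟨M, h1, h2⟩
  · unfold wl at h2
    obtain ⟨ν₁, ν₂, h3, h4, h5⟩ := List.map_eq_append_iff.mp h2
    subst h3
    obtain ⟨q', h6, h7⟩ := isPath_append.mp hν
    refine ⟨p, q', μ, ν₁, hμ, h6, ?_⟩
    rw [h1, ← h4]
    rfl
  · unfold wr at h1
    obtain ⟨μ₁, μ₂, h3, h4, h5⟩ := List.map_eq_append_iff.mp h1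
    subst h3
    obtain ⟨p', h6, h7⟩ := isPath_append.mp hμ
    refine ⟨p', q, μ₁, [], h6, isPath_nil _, ?_⟩
    rw [← h4, pl_right]
    rfl

/-- Main lemma: comparability. -/
theorem LL : ∀ (k : ℕ) {p q p' q' : List α} {β Γ α' β' : List (DE P)}, Γ.length = k →
    IsPath q β q → ∀ (hΓ : IsPath (p ++ q) Γ (p' ++ q')), IsPath p' α' p' → IsPath q' β' q' →
    Hty (p ++ q) (p' ++ q') (wl p β ++ Γ) (Γ ++ pl p' q' α' β') → NoFix P q β →
    Cmp (cut [] p q (isPath_nil _)) (cut Γ p' q' hΓ) := by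
  intro k
  induction k using Nat.strong_induction_on with
  | _ k ih =>
    intro p q p' q' β Γ α' β' hk hβ hΓ hα' hβ' hH hNF
    by_cases hx : ∃ Γ₁ Γ₂, Γ = Γ₁ ++ Γ₂ ∧ Γ₁ ≠ [] ∧
        ∀ κ, ¬ HB p.length (act Γ₁ (s0 P (p ++ q))) κ
    · obtain ⟨Γ₁, Γ₂, rfl, hne, hno⟩ := hx
      obtain ⟨x, h1, h2⟩ := isPath_append.mp hΓ
      obtain ⟨p₁, q₁, μ, ν, k1, k2, rfl, k3⟩ := claimA h1 hno
      have hβ₁ : IsPath q₁ (invL ν ++ β ++ ν) q₁ := (k2.inv.append hβ).append k2
      have hpl := pl_isPath k1 k2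
      have a1 : Hty (p ++ q) (p₁ ++ q₁) (pl p₁ q μ ν ++ wl p₁ (invL ν ++ β ++ ν))
          (wl p β ++ pl p₁ q μ ν) := by
        have b1 : Hty q q₁ (ν ++ (invL ν ++ β ++ ν)) (β ++ ν) := by
          have := (Hty.append_inv k2).append_right (hβ.append k2)
          simp only [List.append_assoc, List.nil_append] at this ⊢
          exact this
        have b2 := Hty.append_left (k1.wr q) (b1.wl p₁)
        have b3 := (Hty.exchange k1 hβ).append_right (k2.wl p₁)
        unfold pl
        simp only [wl_append, List.append_assoc] at b2 b3 ⊢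
        exact b2.trans b3
      have hH' : Hty (p₁ ++ q₁) (p' ++ q') (wl p₁ (invL ν ++ β ++ ν) ++ Γ₂)
          (Γ₂ ++ pl p' q' α' β') := by
        apply hty_cancel_left hpl ((hβ₁.wl p₁).append h2) (h2.append (pl_isPath hα' hβ'))
        have b1 := a1.append_right h2
        have b2 := Hty.append_left (hβ.wl p) (k3.symm.append_right h2)
        have b3 := (k3.append_right h2).append_right (pl_isPath hα' hβ')
        simp only [List.append_assoc] at b1 b2 b3 hH ⊢
        exact b1.trans (b2.trans (hH.trans b3))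
      have hlen : Γ₂.length < k := by
        have := List.length_pos_of_ne_nil hne
        rw [List.length_append] at hk
        omega
      have hc := ih Γ₂.length hlen rfl hβ₁ h2 hα' hβ' hH' (hNF.conj hβ k2)
      have hc' := map_cmp hpl hc
      rw [map_cut, map_cut] at hc'
      have e1 : cut (pl p₁ q μ ν ++ []) p₁ q₁ (hpl.append (isPath_nil _)) =
          cut [] p q (isPath_nil (p ++ q)) := by
        rw [← cut_pl (isPath_nil (p ++ q)) k1 k2]
        apply cut_lists
        simp
      have e2 : cut (pl p₁ q μ ν ++ Γ₂) p' q' (hpl.append h2) = cut (Γ₁ ++ Γ₂) p' q' hΓ :=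
        cut_hty (k3.symm.append_right h2)
      rw [e1, e2] at hc'
      exact hc'
    · push Not at hx
      cases Γ with
      | nil =>
        have e : p ++ q = p' ++ q' := hΓ
        exact cut_same (isPath_nil _) e
      | cons e Γ' =>
        obtain ⟨he, hΓ'⟩ := id hΓ
        have hpe : IsPath (p ++ q) [e] e.tgt := ⟨he, rfl⟩
        have hpl := pl_isPath hα' hβ'
        by_cases hy : ∃ Λ₁ Λ₂, pl p' q' α' β' = Λ₁ ++ Λ₂ ∧
            ∀ κ, ¬ HB p.length (act (e :: Γ' ++ Λ₁) (s0 P (p ++ q))) κ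
        · obtain ⟨Λ₁, Λ₂, h1, h2⟩ := hy
          obtain ⟨p'', q'', μ', ν', h3, h4, h5⟩ := prefix_pl hα' hβ' h1
          subst h5
          have hp2 : IsPath (p ++ q) (e :: Γ' ++ pl p'' q' μ' ν') (p'' ++ q'') :=
            hΓ.append (pl_isPath h3 h4)
          obtain ⟨p₁, q₁, μ, ν, k1, k2, k3, k4⟩ := claimA hp2 h2
          have e1 := cut_pl hΓ h3 h4
          have e2 := cut_hty k4
          have e3 := cut_pl (isPath_nil (p ++ q)) k1 k2
          rw [← e1, e2, ← e3]
          have hpl' := pl_isPath k1 k2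
          have e4 : cut ([] ++ pl p₁ q μ ν) p₁ q₁ ((isPath_nil (p ++ q)).append hpl') =
              cut (pl p₁ q μ ν) p₁ q₁ hpl' := rfl
          rw [e4]
          exact cut_same hpl' k3.symm
        · exfalso
          push Not at hy
          refine LL_core hβ he hΓ' ?_ hpl hy hH hNF
          intro Γ₁ Γ₂ h12
          exact hx (e :: Γ₁) Γ₂ (by rw [h12]; rfl) (by simp)

end DG

end FileLL2

section FileLam

/-! The cut attached to a non-trivial element (MP_f61096_al). -/

namespace DG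

universe u v

open DiagramGroup

variable {α : Type u} {P : Pres.{u, v} α} {w : List α}

/-- `v` is the leftmost place moved by `a`. -/
def Lam (a : DiagramGroup P w) (v : Cut P w) : Prop :=
  ∃ (Γ : List (DE P)) (p q : List α) (b : List (DE P)) (h : IsPath w Γ (p ++ q))
    (hb : IsPath q b q), v = cut Γ p q h ∧ a = cj Γ (wl p b) h (hb.wl p) ∧ NoFix P q b

theorem Lam.mem_R {a : DiagramGroup P w} {v : Cut P w} (h : Lam a v) : a ∈ Cut.R v := by
  obtain ⟨Γ, p, q, b, h1, h2, h3, h4, -⟩ := h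
  exact ⟨Γ, p, q, b, h1, h2, h3, h4⟩

theorem Lam.fix {a : DiagramGroup P w} {v : Cut P w} (h : Lam a v) : a • v = v :=
  R_fix_self h.mem_R

theorem Lam.conj {a : DiagramGroup P w} {v : Cut P w} (h : Lam a v) (g : DiagramGroup P w) :
    Lam (g * a * g⁻¹) (g • v) := by
  obtain ⟨Γ, p, q, b, h1, h2, rfl, rfl, h5⟩ := h
  induction g using DiagramGroup.ind with | _ Δ hΔ
  exact ⟨Δ ++ Γ, p, q, b, hΔ.append h1, h2, rfl, mk_conj hΔ h1 _, h5⟩

theorem Lam.sq {a : DiagramGroup P w} {v : Cut P w} (h : Lam a v) : Lam (a * a) v := by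
  obtain ⟨Γ, p, q, b, h1, h2, rfl, rfl, h5⟩ := h
  refine ⟨Γ, p, q, b ++ b, h1, h2.append h2, rfl, ?_, h5.sq h2⟩
  rw [cj_mul]
  congr 1
  exact (wl_append p b b).symm

/-- Moves strictly inside a word do not change the first token. -/
theorem head_wl {q x y m : List α} {Γ L : List (DE P)} (hΓ : IsPath q Γ (m ++ x))
    (hL : IsPath x L y) (hm : m ≠ []) :
    (act (Γ ++ wl m L) (s0 P q)).head? = (act Γ (s0 P q)).head? := by
  rw [act_append]
  refine act_head_of_ne (hL.wl m) (good_act hΓ (good_s0 q)) ?_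
  intro e he
  simp only [wl, List.mem_map] at he
  obtain ⟨e', -, rfl⟩ := he
  simp [DE.wl, hm]

theorem not_noFix_wl {m x : List α} {L : List (DE P)} (hL : IsPath x L x) (hm : m ≠ []) :
    ¬ NoFix P (m ++ x) (wl m L) := by
  intro h
  have hne : m ++ x ≠ [] := by simp [hm]
  apply h (.orig 0) (ftok_zero hne)
  apply tr_orig_zero (hL.wl m)
  have := head_wl (isPath_nil (P := P) (m ++ x)) hL hm
  rw [List.nil_append] at this
  rw [this]
  obtain ⟨y, q', hq⟩ := List.exists_cons_of_ne_nil hne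
  rw [hq, act_nil, s0_cons_head]

/-- Elements supported strictly to the right of the place. -/
theorem Lam.not_R {a : DiagramGroup P w} {v v' : Cut P w} (h : Lam a v) (hlt : Cut.lt v v') :
    a ∉ Cut.R v' := by
  intro hR
  obtain ⟨Γ, p, m, q, h1, h2, rfl, rfl⟩ := hlt
  obtain ⟨Γ₁, p₁, q₁, b₁, k1, k2, k3, rfl, k5⟩ := h
  obtain ⟨Γ', p', q', β', l1, l2, l3, l4⟩ := hR
  obtain ⟨ν, hν, e1⟩ := R_rep k2 k3.symm
  obtain ⟨ν', hν', e2⟩ := R_rep l2 l3.symm
  rw [e1, e2] at l4
  have hb := (hν.inv.append k2).append hν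
  have hb' := (hν'.inv.append l2).append hν'
  have hb2 : IsPath (p ++ (m ++ q)) (wl (p ++ m) (invL ν' ++ β' ++ ν')) (p ++ (m ++ q)) := by
    have := hb'.wl (p ++ m)
    simpa only [List.append_assoc] using this
  have l5 := cj_inj h1 (hb.wl p) hb2 l4
  rw [← wl_wl] at l5
  have l6 := wl_inj hb (hb'.wl m) l5
  exact not_noFix_wl hb' h2 ((k5.conj k2 hν).congr l6)

theorem Lam.cmp {a : DiagramGroup P w} {v v' : Cut P w} (h : Lam a v) (hfix : a • v' = v') :
    Cmp v v' := by
  obtain ⟨Γ₁, p, q, b, h1, h2, rfl, rfl, h5⟩ := h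
  induction v' using cut_ind with | _ Γ₂ p' q' hΓ₂
  unfold cj at hfix
  rw [smul_cut] at hfix
  have hfix := hfix.symm
  rw [cut_eq] at hfix
  obtain ⟨α', β', k1, k2, k3⟩ := hfix
  have hΓ : IsPath (p ++ q) (invL Γ₁ ++ Γ₂) (p' ++ q') := h1.inv.append hΓ₂
  have hH : Hty (p ++ q) (p' ++ q') (wl p b ++ (invL Γ₁ ++ Γ₂))
      ((invL Γ₁ ++ Γ₂) ++ pl p' q' α' β') := by
    have a1 := Hty.append_left h1.inv k3
    have a2 := (Hty.inv_append h1).append_right ((h2.wl p).append (h1.inv.append hΓ₂))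
    simp only [List.append_assoc, List.nil_append] at a1 a2 ⊢
    exact (a1.trans a2).symm
  have hc := map_cmp h1 (LL _ rfl h2 hΓ k1 k2 hH h5)
  rw [map_cut, map_cut] at hc
  have e1 : cut (Γ₁ ++ []) p q (h1.append (isPath_nil _)) = cut Γ₁ p q h1 :=
    cut_lists _ (List.append_nil _)
  have e2 : cut (Γ₁ ++ (invL Γ₁ ++ Γ₂)) p' q' (h1.append hΓ) = cut Γ₂ p' q' hΓ₂ := by
    apply cut_hty
    have := (Hty.append_inv h1).append_right hΓ₂
    rw [List.append_assoc] at this
    exact this
  rw [e1, e2] at hc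
  exact hc

theorem Lam.unique {a : DiagramGroup P w} {v v' : Cut P w} (h : Lam a v) (h' : Lam a v') :
    v = v' := by
  rcases h.cmp h'.fix with e | e | e
  · exact e
  · exact absurd h'.mem_R (h.not_R e)
  · exact absurd h.mem_R (h'.not_R e)

/-- Existence of the place. -/
theorem exists_lam_aux (a : DiagramGroup P w) : ∀ (n m : ℕ) (Γ : List (DE P)) (p q : List α)
    (b : List (DE P)) (h : IsPath w Γ (p ++ q)) (hb : IsPath q b q), b.length = n →
    q.length = m → a = cj Γ (wl p b) h (hb.wl p) → ∃ v, Lam a v := by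
  intro n
  induction n using Nat.strong_induction_on with
  | _ n ihn =>
    intro m
    induction m with
    | zero =>
      intro Γ p q b h hb _ hq ha
      refine ⟨cut Γ p q h, Γ, p, q, b, h, hb, rfl, ha, ?_⟩
      rintro t ⟨L, x, hL, ht⟩
      exact absurd (List.length_eq_zero_iff.mp hq) (ne_nil_of_head hL ht).1
    | succ m ihm =>
      intro Γ p q b h hb hbn hq ha
      by_cases hNF : NoFix P q b
      · exact ⟨cut Γ p q h, Γ, p, q, b, h, hb, rfl, ha, hNF⟩
      · unfold NoFix at hNF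
        push Not at hNF
        obtain ⟨t, ht, hfix⟩ := hNF
        obtain ⟨b₁, b₂, t', rfl, ht', hfix'⟩ := walk_fixed hb ht hfix
        obtain ⟨q₁, hb₁, hb₂⟩ := isPath_append.mp hb
        have hb' : IsPath q₁ (b₂ ++ b₁) q₁ := hb₂.append hb₁
        have hq₁ : q₁ ≠ [] := (ne_nil_of_head hb₁ ht').2
        have ho := tr_orig_zero hb₁ ht'
        have hv0 : Val P q₁ (.orig 0) := (ftok_zero hq₁).val
        have hfo : tr q₁ (b₂ ++ b₁) (.orig 0) = .orig 0 := by
          rw [← ho, ← tr_tr hb₁ hb₂ (tr_val hb₁ hv0).1] at hfix'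
          have h2 := tr_inj hb₁ (tr_val hb₂ (tr_val hb₁ hv0).1).1 hv0 hfix'
          rwa [tr_tr hb₂ hb₁ hv0] at h2
        obtain ⟨y, q₂, rfl⟩ := List.exists_cons_of_ne_nil hq₁
        obtain ⟨t₂, ht₂⟩ := exists_head hb' hq₁
        have ht₂' : t₂ = .orig 0 := by rw [← tr_orig_zero hb' ht₂, hfo]
        rw [ht₂'] at ht₂
        obtain ⟨q₃, b'', e1, k2, k3, k4, k5⟩ := lemC hb' ht₂
        have e1' : q₂ = q₃ := by
          simpa using e1
        subst e1'
        by_cases hex : ∃ e ∈ b₂ ++ b₁, e.a = []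
        · have hlt := k5 hex
          have hΓ' : IsPath w (Γ ++ wl p b₁) (p ++ (y :: q₂)) := h.append (hb₁.wl p)
          have hΓ'' : IsPath w (Γ ++ wl p b₁) ((p ++ [y]) ++ q₂) := by
            simpa using hΓ'
          refine ihn b''.length (by simp only [List.length_append] at hlt hbn ⊢; omega) q₂.length
            (Γ ++ wl p b₁) (p ++ [y]) q₂ b'' hΓ'' k2 rfl rfl ?_
          have s1 : cj (Γ ++ wl p b₁) (wl p (b₂ ++ b₁)) hΓ' (hb'.wl p) =
              cj (Γ ++ wl p b₁) (wl p (wl [y] b'')) hΓ' ((k2.wl [y]).wl p) :=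
            cj_congr hΓ' (k3.wl p)
          have s2 : a = cj (Γ ++ wl p b₁) (wl p (b₂ ++ b₁)) hΓ' (hb'.wl p) := by
            rw [ha, cj_move h (hb₁.wl p) (hb'.wl p)]
            symm
            apply cj_congr h
            have t1 := Hty.append_left (hb₁.append hb₂) (Hty.append_inv hb₁)
            have t2 := t1.wl p
            simp only [wl_append, List.append_assoc, List.append_nil, invL_wl] at t2 ⊢
            exact t2
          rw [s2, s1]
          unfold cj
          congr 1
          rw [wl_wl]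
        · push Not at hex
          have hq0 : q ≠ [] := (ne_nil_of_head hb₁ ht').1
          obtain ⟨z, q₄, rfl⟩ := List.exists_cons_of_ne_nil hq0
          have hne : ∀ e ∈ b₁ ++ b₂, e.a ≠ [] := by
            intro e he
            apply hex
            simp only [List.mem_append] at he ⊢
            exact he.symm
          obtain ⟨q₅, L', e2, l2, l3⟩ := strip hb hne
          have e2' : q₄ = q₅ := by simpa using e2
          subst e2'
          have hΓ'' : IsPath w Γ ((p ++ [z]) ++ q₄) := by simpa using h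
          refine ihm Γ (p ++ [z]) q₄ L' hΓ'' l2 ?_ (by simpa using hq) ?_
          · rw [← hbn, l3]; simp
          · rw [ha]
            unfold cj
            congr 1
            rw [l3, wl_wl]

theorem exists_lam (a : DiagramGroup P w) : ∃ v, Lam a v := by
  induction a using DiagramGroup.ind with | _ L hL
  refine exists_lam_aux (mk L hL) L.length w.length [] [] w L (isPath_nil w) hL rfl rfl ?_
  unfold cj
  rw [mk_eq]
  simpa using Hty.refl hL

/-- Elements commuting with `a` fix its place. -/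
theorem Lam.commute_fix {a : DiagramGroup P w} {v : Cut P w} (h : Lam a v)
    {c : DiagramGroup P w} (hc : Commute c a) : c • v = v := by
  have h1 := h.conj c
  have e : c * a * c⁻¹ = a := by rw [hc.eq]; group
  rw [e] at h1
  exact h1.unique h

section

variable {q : List α}

/-- Stabilisers of first tokens. -/
theorem ft_fix (x : FT P q) : ∃ v : Cut P q, ∀ g : DiagramGroup P q,
    g • x = x ↔ g ∈ Cut.R v := by
  have hp := pth_isPath x
  have hh := pth_head x
  obtain ⟨y, q', hq'⟩ := List.exists_cons_of_ne_nil (ne_nil_of_head hp hh).2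
  rw [hq'] at hp
  refine ⟨cut (pth x) [y] q' hp, fun g => ?_⟩
  constructor
  · intro h
    induction g using DiagramGroup.ind with | _ Δ hΔ
    have h1 : tr q Δ x.1 = x.1 := congrArg Subtype.val h
    have h2 : (act (Δ ++ pth x) (s0 P q)).head? = some x.1 := by
      rw [act_tr hΔ hp, List.head?_map, hh, Option.map_some, h1]
    obtain ⟨q'', B, k1, k2, k3⟩ := ft_char hp (hΔ.append hp) rfl hh h2
    have k1' : q' = q'' := by simpa using k1
    subst k1'
    refine ⟨pth x, [y], q', B, hp, k2, rfl, ?_⟩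
    unfold cj
    rw [mk_eq]
    have a1 := k3.append_right (IsPath.inv hp)
    have a2 := Hty.append_left hΔ (Hty.append_inv hp)
    rw [List.append_nil, ← List.append_assoc] at a2
    exact a2.symm.trans a1
  · rintro ⟨Γ', p', q'', β', h1, h2, h3, rfl⟩
    obtain ⟨ν, hν, e2⟩ := R_rep h2 h3.symm
    rw [e2]
    have hb := (hν.inv.append h2).append hν
    apply Subtype.ext
    unfold cj
    rw [smul_val]
    have hfull := (hp.append (hb.wl [y])).append (IsPath.inv hp)
    have h4 := tr_orig_zero hp hh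
    rw [← h4, tr_tr hfull hp (ftok_zero (by simp)).val]
    have a2 := Hty.append_left (hp.append (hb.wl [y])) (Hty.inv_append hp)
    rw [List.append_nil, ← List.append_assoc] at a2
    rw [tr_hty a2, h4]
    apply tr_orig_zero (hp.append (hb.wl [y]))
    have := head_wl (m := [y]) hp hb (by simp)
    rw [this, hh]

/-- Squares have no new fixed first tokens. -/
theorem sq_fix (g : DiagramGroup P q) (x : FT P q) (h : g • g • x = x) : g • x = x := by
  obtain ⟨v, hv⟩ := ft_fix x
  obtain ⟨v₀, hv₀⟩ := exists_lam g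
  rw [← mul_smul, hv] at h
  rw [hv]
  rcases hv₀.sq.cmp (R_fix_self h) with e | e | e
  · rw [← e]; exact hv₀.mem_R
  · exact absurd h (hv₀.sq.not_R e)
  · exact R_mono e hv₀.mem_R

end

end DG

end FileLam

section FileMain

/-! Finitely presented soluble diagram groups are abelian (MP_f61096_al). -/

namespace DG

universe u v

open DiagramGroup

variable {α : Type u} {P : Pres.{u, v} α} {w q : List α} {θ : P.ι × List α}

theorem cnt_append (L L' : List (DE P)) : cnt θ (L ++ L') = cnt θ L + cnt θ L' := by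
  induction L with
  | nil => simp [cnt]
  | cons e L ih =>
    rw [List.cons_append]
    simp only [cnt, ih]
    ring

theorem cnt_hty {x : List α} {L L' : List (DE P)} (h : Hty q x L L') : cnt θ L = cnt θ L' := by
  have h0 : IsPath (P := P) q [] ([] ++ q) := isPath_nil q
  have e1 := cf_wl_eq (θ := θ) L h0 h.left
  have e2 := cf_wl_eq (θ := θ) L' h0 h.right
  rw [wl_nil] at e1 e2
  rw [← e1, ← e2]
  exact cf_hty h (isPath_nil q) _

theorem cnt_wl {m : List α} (hm : m ≠ []) (L : List (DE P)) : cnt θ (wl m L) = 0 := by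
  induction L with
  | nil => rfl
  | cons e L ih =>
    rw [wl_cons]
    simp only [cnt, ih]
    rw [if_neg]
    · rfl
    · rintro ⟨h, -⟩
      simp [DE.wl, hm] at h

/-- The potential. -/
noncomputable def pot (θ : P.ι × List α) (x : FT P q) : ℤ := cnt θ (pth x)

theorem pot_eq {L : List (DE P)} {y : List α} (x : FT P q) (hL : IsPath q L y)
    (h : (act L (s0 P q)).head? = some x.1) : cnt θ L = pot θ x := by
  have hp := pth_isPath x
  have hh := pth_head x
  obtain ⟨z, q', hq'⟩ := List.exists_cons_of_ne_nil (ne_nil_of_head hp hh).2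
  obtain ⟨q'', B, k1, k2, k3⟩ := ft_char hp hL hq' hh h
  rw [cnt_hty k3, cnt_append, cnt_wl (by simp)]
  unfold pot
  ring

theorem pot_smul (b : List (DE P)) (hb : IsPath q b q) (x : FT P q) :
    pot θ (mk b hb • x) = cnt θ b + pot θ x := by
  have hp := pth_isPath x
  have hh := pth_head x
  rw [← pot_eq (θ := θ) (mk b hb • x) (hb.append hp), cnt_append]
  · rfl
  · rw [act_tr hb hp, List.head?_map, hh]
    rfl

open Classical in
theorem pot_adj {r : P.ι} {d : Bool} {b : List α} {x y : FT P q}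
    (h : LAdj P q r d b x.1 y.1) :
    pot θ y = pot θ x + (if r = θ.1 ∧ Conn P b θ.2 then sgn d else 0) := by
  obtain ⟨L, h1, h2, h3⟩ := h
  have hp : IsPath q (L ++ [⟨[], r, d, b⟩]) (DE.tgt ⟨[], r, d, b⟩) := h1.append ⟨rfl, rfl⟩
  rw [← pot_eq (θ := θ) y hp h3, ← pot_eq (θ := θ) x h1 h2, cnt_append]
  simp [cnt]

/-- Moves of the same type are related by an element of the group. -/
theorem ladj_rel {r : P.ι} {d : Bool} {b b' : List α} {x x' y y' : Tok P.ι}
    (h : LAdj P q r d b x x') (h' : LAdj P q r d b' y y') (hc : Conn P b b') :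
    ∃ (Δ : List (DE P)) (_ : IsPath q Δ q), tr q Δ x = y ∧ tr q Δ x' = y' := by
  have hx := h.left
  have hx' := h.right
  obtain ⟨L, h1, h2, h3⟩ := h
  obtain ⟨L', h1', h2', h3'⟩ := h'
  obtain ⟨ρ, hρ⟩ := hc
  have hs := P.side_ne r d
  have hs' := P.side_ne r (!d)
  have hρ' : IsPath (P.side r d ++ b') (wl (P.side r d) (invL ρ)) (P.side r d ++ b) :=
    hρ.inv.wl _
  have k1 : IsPath q L (P.side r d ++ b) := h1
  have k1' : IsPath q L' (P.side r d ++ b') := h1'
  have hΔ : IsPath q (L' ++ wl (P.side r d) (invL ρ) ++ invL L) q :=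
    (k1'.append hρ').append k1.inv
  have key : ∀ (M : List (DE P)) (z : List α), IsPath (P.side r d ++ b) M z →
      Hty q z (L' ++ wl (P.side r d) (invL ρ) ++ invL L ++ (L ++ M))
        (L' ++ (wl (P.side r d) (invL ρ) ++ M)) := by
    intro M z hM
    have a := Hty.append_left (k1'.append hρ') ((Hty.inv_append k1).append_right hM)
    simp only [List.append_assoc, List.nil_append] at a ⊢
    exact a
  refine ⟨_, hΔ, ?_, ?_⟩
  · have e1 := key [] _ (isPath_nil _)
    have e2 : (act (L' ++ wl (P.side r d) (invL ρ) ++ invL L ++ (L ++ [])) (s0 P q)).head? =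
        some y := by
      rw [act_hty e1 (good_s0 q), List.append_nil, head_wl k1' hρ.inv hs, h2']
    rw [List.append_nil, act_tr hΔ k1, List.head?_map, h2, Option.map_some, Option.some.injEq] at e2
    exact e2
  · have he : IsPath (P.side r d ++ b) [(⟨[], r, d, b⟩ : DE P)] (P.side r (!d) ++ b) :=
      ⟨rfl, rfl⟩
    have he' : IsPath (P.side r d ++ b') [(⟨[], r, d, b'⟩ : DE P)] (P.side r (!d) ++ b') :=
      ⟨rfl, rfl⟩
    have e1 := key _ _ he
    have hA : IsPath (P.side r d) [(⟨[], r, d, []⟩ : DE P)] (P.side r (!d)) := by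
      refine ⟨by simp [DE.src], by simp [DE.tgt, IsPath]⟩
    have ex := Hty.exchange hA hρ.inv
    have w1 : wr b' [(⟨[], r, d, []⟩ : DE P)] = [⟨[], r, d, b'⟩] := rfl
    have w2 : wr b [(⟨[], r, d, []⟩ : DE P)] = [⟨[], r, d, b⟩] := rfl
    rw [w1, w2] at ex
    have e3 := Hty.append_left k1' ex
    have e2 : (act (L' ++ wl (P.side r d) (invL ρ) ++ invL L ++ (L ++ [⟨[], r, d, b⟩]))
        (s0 P q)).head? = some y' := by
      rw [act_hty e1 (good_s0 q), ← act_hty e3 (good_s0 q), ← List.append_assoc,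
        head_wl (k1'.append he') hρ.inv hs', h3']
    rw [act_tr hΔ (k1.append he), List.head?_map, h3, Option.map_some, Option.some.injEq] at e2
    exact e2

/-- Elements without fixed first token whose conjugates commute with them have a non-zero
count. -/
theorem exists_cnt {b : List (DE P)} (hb : IsPath q b q) (hq : q ≠ []) (hNF : NoFix P q b)
    (hcomm : ∀ g : DiagramGroup P q, Commute (mk b hb) (g * mk b hb * g⁻¹)) :
    ∃ θ : P.ι × List α, cnt θ b ≠ 0 := by
  obtain ⟨D, z, hD, hadj, hend, hrev⟩ := (ftree P q).propH (fun g _ _ h => fadj_smul g h)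
    (fun g _ _ h => fadj_no_inv g h) sq_fix ⟨⟨_, ftok_zero hq⟩⟩ (mk b hb)
    (fun x hx => hNF x.1 x.2 (congrArg Subtype.val hx))
    (fun g x => by rw [← mul_smul, ← mul_smul, (hcomm g).eq])
  obtain ⟨r, d, b₀, h0⟩ := hadj 0 hD
  refine ⟨(r, b₀), ?_⟩
  have hstep : ∀ n, 1 ≤ n → n ≤ D → ∃ k : ℕ, pot (r, b₀) (z n) =
      pot (r, b₀) (z 0) + sgn d * (k + 1) := by
    intro n hn
    induction n, hn using Nat.le_induction with
    | base =>
      intro _
      refine ⟨0, ?_⟩
      rw [pot_adj h0, if_pos ⟨rfl, Conn.refl _⟩]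
      simp
    | succ n hn ih =>
      intro hnD
      obtain ⟨k, hk⟩ := ih (by omega)
      obtain ⟨r', d', b', h'⟩ := hadj n (by omega)
      rw [pot_adj h', hk]
      by_cases hc : r' = (r, b₀).1 ∧ Conn P b' (r, b₀).2
      · rw [if_pos hc]
        obtain ⟨hc1, hc2⟩ := hc
        simp only at hc1 hc2
        subst hc1
        by_cases hd : d' = d
        · subst hd
          exact ⟨k + 1, by push_cast; ring⟩
        · exfalso
          have hd' : d = !d' := by
            cases d <;> cases d' <;> simp_all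
          have h'' := h'.symm
          rw [← hd'] at h''
          obtain ⟨Δ, hΔ, e1, e2⟩ := ladj_rel h0 h'' hc2.symm
          refine hrev (n + 1) (by omega) hnD (mk Δ hΔ) (Subtype.ext e1) ?_
          have e3 : n + 1 - 1 = n := by omega
          rw [e3]
          exact Subtype.ext e2
      · rw [if_neg hc]
        exact ⟨k, by ring⟩
  obtain ⟨k, hk⟩ := hstep D hD le_rfl
  rw [hend, pot_smul] at hk
  have hk' : cnt (r, b₀) b = sgn d * (k + 1) := by linarith
  rw [hk']
  refine mul_ne_zero (sgn_ne d) ?_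
  positivity

/-- The system of cuts of a diagram group. -/
noncomputable def cutSys (P : Pres.{u, v} α) (w : List α) :
    CutSys (DiagramGroup P w) (Cut P w) (P.ι × List α) where
  lt := Cut.lt
  L := Cut.L
  R := Cut.R
  coc := cocC w
  lt_trans := lt_trans
  lt_irrefl := lt_irrefl
  lt_smul := fun g h => lt_smul g h
  decomp := stab_decomp
  comm := LR_comm
  R_fix := by
    rintro r u v hr (h | h)
    · exact R_fix_lt hr h
    · rw [h]; exact R_fix_self hr
  L_fix := by
    rintro l u v hl (h | h)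
    · exact L_fix_lt hl h
    · rw [h]; exact L_fix_self hl
  L_inv := L_inv
  R_inv := R_inv
  R_mono := R_mono
  R_conj := fun g h => R_conj g h
  f_R := fun θ hr h => cc_R hr h
  key := by
    intro a ha hcomm
    obtain ⟨v, hv⟩ := exists_lam a
    have hv' := hv
    obtain ⟨Γ, p, q, b, h1, h2, rfl, rfl, h5⟩ := hv
    have hq : q ≠ [] := by
      rintro rfl
      apply ha
      have hb : b = [] := by
        cases b with
        | nil => rfl
        | cons e b => exact absurd h2.1.symm (DE.src_ne e)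
      subst hb
      exact cj_nil_one h1
    obtain ⟨θ, hθ⟩ := exists_cnt h2 hq h5 (by
      intro g
      induction g using DiagramGroup.ind with | _ G hG
      have hGb : IsPath q (G ++ b ++ invL G) q := (hG.append h2).append hG.inv
      have h6 := hcomm (cj Γ (wl p G) h1 (hG.wl p))
      have e1 : cj Γ (wl p G) h1 (hG.wl p) * cj Γ (wl p b) h1 (h2.wl p) *
          (cj Γ (wl p G) h1 (hG.wl p))⁻¹ = cj Γ (wl p (G ++ b ++ invL G)) h1 (hGb.wl p) := by
        rw [cj_mul, cj_inv, cj_mul]
        congr 1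
        simp
      rw [e1, cj_commute] at h6
      rw [← wl_append, ← wl_append] at h6
      have h7 := wl_inj (h2.append hGb) (hGb.append h2) h6
      show mk b h2 * (mk G hG * mk b h2 * (mk G hG)⁻¹) =
        (mk G hG * mk b h2 * (mk G hG)⁻¹) * mk b h2
      rw [mk_inv, mk_mul, mk_mul, mk_mul, mk_mul, mk_eq]
      exact h7)
    refine ⟨cut Γ p q h1, θ, hv'.mem_R, ?_, fun c hc => hv'.commute_fix hc, ?_⟩
    · show cc w θ (cj Γ (wl p b) h1 (h2.wl p)) (cut Γ p q h1) ≠ 0
      rw [cc_R_self h1 h2]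
      exact hθ
    · intro t
      have h8 := (hv'.conj t).commute_fix (hcomm t)
      rcases hv'.cmp h8 with e | e | e
      · exact Or.inl e.symm
      · exact Or.inr (Or.inl e)
      · exact Or.inr (Or.inr e)

/-- Every finitely presented soluble diagram group is abelian. -/
theorem diagramGroup_comm (P : Pres.{u, v} α) (w : List α)
    [Group.IsSolvable (DiagramGroup P w)] [Group.IsFinitelyPresented (DiagramGroup P w)]
    (x y : DiagramGroup P w) : x * y = y * x :=
  (cutSys P w).comm_of_solvable_fp x y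

end DG

end FileMain

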