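import Mathlib

section FileRaw

/-! Semigroup presentations, the Squier complex, diagram groups (MP_f61096_al). -/

namespace DG

universe u v

/-- A semigroup presentation: an alphabet `α` and a family of relations `lhs i = rhs i`
between non-empty words. -/
structure Pres (α : Type u) where
  ι : Type v
  lhs : ι → List α
  rhs : ι → List α
  lhs_ne : ∀ i, lhs i ≠ []
  rhs_ne : ∀ i, rhs i ≠ []

variable {α : Type u} {P : Pres.{u, v} α}

/-- The two sides of the relation `r`. -/
def Pres.side (P : Pres.{u, v} α) (r : P.ι) (d : Bool) : List α := if d then P.lhs r else P.rhs r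

theorem Pres.side_ne (r : P.ι) (d : Bool) : P.side r d ≠ [] := by
  cases d
  · exact P.rhs_ne r
  · exact P.lhs_ne r

/-- A directed edge of the Squier complex: the word `a ++ side r d ++ b` is rewritten into
`a ++ side r (!d) ++ b`. -/
structure DE (P : Pres.{u, v} α) where
  a : List α
  r : P.ι
  d : Bool
  b : List α

/-- Initial word of a directed edge. -/
def DE.src (e : DE P) : List α := e.a ++ P.side e.r e.d ++ e.b

/-- Terminal word of a directed edge. -/
def DE.tgt (e : DE P) : List α := e.a ++ P.side e.r (!e.d) ++ e.b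

/-- The reversed edge. -/
def DE.inv (e : DE P) : DE P := ⟨e.a, e.r, !e.d, e.b⟩

@[simp] theorem DE.inv_src (e : DE P) : e.inv.src = e.tgt := rfl
@[simp] theorem DE.inv_tgt (e : DE P) : e.inv.tgt = e.src := by
  simp [DE.inv, DE.src, DE.tgt]
@[simp] theorem DE.inv_inv (e : DE P) : e.inv.inv = e := by
  simp [DE.inv]

/-- `IsPath w L w'`: the list `L` of directed edges is an edge path from `w` to `w'`. -/
def IsPath (w : List α) : List (DE P) → List α → Prop
  | [], w' => w = w'
  | e :: L, w' => w = e.src ∧ IsPath e.tgt L w'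

/-- Elementary homotopies: removing a backtrack, and replacing two consecutive sides of a square
by the other two sides. -/
inductive Step : List (DE P) → List (DE P) → Prop
  | cancel (L₁ : List (DE P)) (e : DE P) (L₂ : List (DE P)) :
      Step (L₁ ++ e :: e.inv :: L₂) (L₁ ++ L₂)
  | swap (L₁ : List (DE P)) (a : List α) (r₁ : P.ι) (d₁ : Bool) (b : List α) (r₂ : P.ι)
      (d₂ : Bool) (c : List α) (L₂ : List (DE P)) :
      Step
        (L₁ ++ ⟨a, r₁, d₁, b ++ P.side r₂ d₂ ++ c⟩ :: ⟨a ++ P.side r₁ (!d₁) ++ b, r₂, d₂, c⟩ :: L₂)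
        (L₁ ++ ⟨a ++ P.side r₁ d₁ ++ b, r₂, d₂, c⟩ :: ⟨a, r₁, d₁, b ++ P.side r₂ (!d₂) ++ c⟩ :: L₂)

/-- Homotopy of edge paths from `w` to `w'` (the equivalence relation on such paths generated by the
elementary homotopies). -/
inductive Hty (w w' : List α) : List (DE P) → List (DE P) → Prop
  | refl {L : List (DE P)} : IsPath w L w' → Hty w w' L L
  | step {L L' : List (DE P)} : IsPath w L w' → Step L L' → Hty w w' L L'
  | symm {L L' : List (DE P)} : Hty w w' L L' → Hty w w' L' L
  | trans {L L' L'' : List (DE P)} : Hty w w' L L' → Hty w w' L' L'' → Hty w w' L L''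

theorem isPath_nil (w : List α) : IsPath (P := P) w [] w := by
  simp only [IsPath]

theorem isPath_append {w w' : List α} {L₁ L₂ : List (DE P)} :
    IsPath w (L₁ ++ L₂) w' ↔ ∃ m, IsPath w L₁ m ∧ IsPath m L₂ w' := by
  induction L₁ generalizing w with
  | nil => simp [IsPath]
  | cons e L ih =>
    simp only [List.cons_append, IsPath, ih]
    constructor
    · rintro ⟨h, m, h1, h2⟩; exact ⟨m, ⟨h, h1⟩, h2⟩
    · rintro ⟨m, ⟨h, h1⟩, h2⟩; exact ⟨h, m, h1, h2⟩

theorem IsPath.append {w m w' : List α} {L₁ L₂ : List (DE P)} (h₁ : IsPath w L₁ m)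
    (h₂ : IsPath m L₂ w') : IsPath w (L₁ ++ L₂) w' := isPath_append.mpr ⟨m, h₁, h₂⟩

theorem IsPath.unique {w m m' : List α} {L : List (DE P)} (h : IsPath w L m)
    (h' : IsPath w L m') : m = m' := by
  induction L generalizing w with
  | nil => simp only [IsPath] at h h'; rw [← h, h']
  | cons e L ih => exact ih h.2 h'.2

/-- The inverse path. -/
def invL (L : List (DE P)) : List (DE P) := (L.map DE.inv).reverse

@[simp] theorem invL_nil : invL ([] : List (DE P)) = [] := rfl
@[simp] theorem invL_cons (e : DE P) (L : List (DE P)) : invL (e :: L) = invL L ++ [e.inv] := by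
  simp [invL]
@[simp] theorem invL_append (L L' : List (DE P)) : invL (L ++ L') = invL L' ++ invL L := by
  simp [invL]
@[simp] theorem invL_invL (L : List (DE P)) : invL (invL L) = L := by
  induction L with
  | nil => rfl
  | cons e L ih => simp [ih]
@[simp] theorem invL_length (L : List (DE P)) : (invL L).length = L.length := by
  simp [invL]

theorem IsPath.inv {w w' : List α} {L : List (DE P)} (h : IsPath w L w') :
    IsPath w' (invL L) w := by
  induction L generalizing w with
  | nil => exact h.symm
  | cons e L ih =>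
    obtain ⟨h1, h2⟩ := h
    rw [invL_cons]
    refine (ih h2).append ⟨by simp, ?_⟩
    rw [DE.inv_tgt]; exact h1.symm

theorem Step.isPath {w w' : List α} {L L' : List (DE P)} (hs : Step L L') (h : IsPath w L w') :
    IsPath w L' w' := by
  cases hs with
  | cancel L₁ e L₂ =>
    obtain ⟨m, h1, h2⟩ := isPath_append.mp h
    obtain ⟨h3, -, h4⟩ := h2
    rw [DE.inv_tgt] at h4
    rw [← h3] at h4
    exact h1.append h4
  | swap L₁ a r₁ d₁ b r₂ d₂ c L₂ =>
    obtain ⟨m, h1, h2⟩ := isPath_append.mp h
    obtain ⟨h3, -, h4⟩ := h2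
    refine h1.append ⟨?_, ?_, ?_⟩
    · rw [h3]; simp [DE.src]
    · simp [DE.src, DE.tgt]
    · simp only [DE.tgt, List.append_assoc] at h4 ⊢
      exact h4

namespace Hty

theorem isPath {w w' : List α} {L L' : List (DE P)} (h : Hty w w' L L') :
    IsPath w L w' ∧ IsPath w L' w' := by
  induction h with
  | refl h => exact ⟨h, h⟩
  | step h hs => exact ⟨h, hs.isPath h⟩
  | symm _ ih => exact ⟨ih.2, ih.1⟩
  | trans _ _ ih1 ih2 => exact ⟨ih1.1, ih2.2⟩

theorem left {w w' : List α} {L L' : List (DE P)} (h : Hty w w' L L') : IsPath w L w' :=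
  h.isPath.1
theorem right {w w' : List α} {L L' : List (DE P)} (h : Hty w w' L L') : IsPath w L' w' :=
  h.isPath.2

theorem append_left {w m w' : List α} {L₀ L L' : List (DE P)} (h₀ : IsPath w L₀ m)
    (h : Hty m w' L L') : Hty w w' (L₀ ++ L) (L₀ ++ L') := by
  induction h with
  | refl h => exact .refl (h₀.append h)
  | step h hs =>
    refine .step (h₀.append h) ?_
    cases hs with
    | cancel L₁ e L₂ =>
      have := Step.cancel (L₀ ++ L₁) e L₂
      simpa only [List.append_assoc] using this
    | swap L₁ a r₁ d₁ b r₂ d₂ c L₂ =>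
      have := Step.swap (L₀ ++ L₁) a r₁ d₁ b r₂ d₂ c L₂
      rw [List.append_assoc L₀ L₁, List.append_assoc L₀ L₁] at this
      exact this
  | symm _ ih => exact ih.symm
  | trans _ _ ih1 ih2 => exact ih1.trans ih2

theorem append_right {w m w' : List α} {L₀ L L' : List (DE P)} (h : Hty w m L L')
    (h₀ : IsPath m L₀ w') : Hty w w' (L ++ L₀) (L' ++ L₀) := by
  induction h with
  | refl h => exact .refl (h.append h₀)
  | step h hs =>
    refine .step (h.append h₀) ?_
    cases hs with
    | cancel L₁ e L₂ =>
      have := Step.cancel L₁ e (L₂ ++ L₀)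
      simpa only [List.append_assoc, List.cons_append] using this
    | swap L₁ a r₁ d₁ b r₂ d₂ c L₂ =>
      have := Step.swap L₁ a r₁ d₁ b r₂ d₂ c (L₂ ++ L₀)
      rw [List.append_assoc L₁, List.append_assoc L₁]
      exact this
  | symm _ ih => exact ih.symm
  | trans _ _ ih1 ih2 => exact ih1.trans ih2

theorem append {w m w' : List α} {L₁ L₁' L₂ L₂' : List (DE P)} (h₁ : Hty w m L₁ L₁')
    (h₂ : Hty m w' L₂ L₂') : Hty w w' (L₁ ++ L₂) (L₁' ++ L₂') :=
  (h₁.append_right h₂.left).trans (append_left h₁.right h₂)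

theorem append_inv {w w' : List α} {L : List (DE P)} (h : IsPath w L w') :
    Hty w w (L ++ invL L) [] := by
  induction L generalizing w with
  | nil => exact .refl rfl
  | cons e L ih =>
    obtain ⟨h1, h2⟩ := h
    have hp : IsPath w (e :: L ++ invL (e :: L)) w := by
      have : IsPath w (e :: L) w' := ⟨h1, h2⟩
      exact this.append this.inv
    have h3 := ih h2
    have he : IsPath w [e] e.tgt := ⟨h1, rfl⟩
    have he' : IsPath e.tgt [e.inv] w := ⟨rfl, by rw [DE.inv_tgt]; exact h1.symm⟩
    have h4 : Hty w w ([e] ++ ((L ++ invL L) ++ [e.inv])) ([e] ++ ([] ++ [e.inv])) :=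
      append_left he (h3.append_right he')
    have e1 : e :: L ++ invL (e :: L) = [e] ++ ((L ++ invL L) ++ [e.inv]) := by simp
    rw [e1]
    refine h4.trans (.step (he.append he') ?_)
    exact Step.cancel [] e []

theorem inv_append {w w' : List α} {L : List (DE P)} (h : IsPath w L w') :
    Hty w' w' (invL L ++ L) [] := by
  have := append_inv h.inv
  rwa [invL_invL] at this

theorem inv {w w' : List α} {L L' : List (DE P)} (h : Hty w w' L L') :
    Hty w' w (invL L) (invL L') := by
  -- L⁻¹ ~ L⁻¹ L' L'⁻¹ ~ L⁻¹ L L'⁻¹ ~ L'⁻¹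
  have h1 : Hty w' w (invL L ++ (L' ++ invL L')) (invL L) := by
    have := append_left h.left.inv (append_inv h.right)
    rwa [List.append_nil] at this
  have h2 : Hty w' w ((invL L ++ L) ++ invL L') (invL L') := by
    have := (inv_append h.left).append_right h.right.inv
    exact this
  have h3 : Hty w' w (invL L ++ (L ++ invL L')) (invL L ++ (L' ++ invL L')) :=
    append_left h.left.inv (h.append_right h.right.inv)
  rw [List.append_assoc] at h2
  exact h1.symm.trans (h3.symm.trans h2)

end Hty

/-- Left whiskering. -/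
def DE.wl (p : List α) (e : DE P) : DE P := ⟨p ++ e.a, e.r, e.d, e.b⟩
/-- Right whiskering. -/
def DE.wr (q : List α) (e : DE P) : DE P := ⟨e.a, e.r, e.d, e.b ++ q⟩

@[simp] theorem DE.wl_src (p : List α) (e : DE P) : (e.wl p).src = p ++ e.src := by
  simp [DE.wl, DE.src]
@[simp] theorem DE.wl_tgt (p : List α) (e : DE P) : (e.wl p).tgt = p ++ e.tgt := by
  simp [DE.wl, DE.tgt]
@[simp] theorem DE.wr_src (p : List α) (e : DE P) : (e.wr p).src = e.src ++ p := by
  simp [DE.wr, DE.src]
@[simp] theorem DE.wr_tgt (p : List α) (e : DE P) : (e.wr p).tgt = e.tgt ++ p := by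
  simp [DE.wr, DE.tgt]
@[simp] theorem DE.wl_inv (p : List α) (e : DE P) : (e.wl p).inv = e.inv.wl p := rfl
@[simp] theorem DE.wr_inv (p : List α) (e : DE P) : (e.wr p).inv = e.inv.wr p := rfl
@[simp] theorem DE.wl_nil (e : DE P) : e.wl [] = e := rfl
@[simp] theorem DE.wr_nil (e : DE P) : e.wr [] = e := by simp [DE.wr]
theorem DE.wl_wl (p q : List α) (e : DE P) : (e.wl q).wl p = e.wl (p ++ q) := by
  simp [DE.wl]
theorem DE.wr_wr (p q : List α) (e : DE P) : (e.wr p).wr q = e.wr (p ++ q) := by
  simp [DE.wr]
theorem DE.wl_wr (p q : List α) (e : DE P) : (e.wl p).wr q = (e.wr q).wl p := rfl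

/-- Left whiskering of paths. -/
def wl (p : List α) (L : List (DE P)) : List (DE P) := L.map (DE.wl p)
/-- Right whiskering of paths. -/
def wr (q : List α) (L : List (DE P)) : List (DE P) := L.map (DE.wr q)

@[simp] theorem wl_nil' (p : List α) : wl p ([] : List (DE P)) = [] := rfl
@[simp] theorem wr_nil' (p : List α) : wr p ([] : List (DE P)) = [] := rfl
@[simp] theorem wl_cons (p : List α) (e : DE P) (L : List (DE P)) :
    wl p (e :: L) = e.wl p :: wl p L := rfl
@[simp] theorem wr_cons (p : List α) (e : DE P) (L : List (DE P)) :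
    wr p (e :: L) = e.wr p :: wr p L := rfl
@[simp] theorem wl_append (p : List α) (L L' : List (DE P)) :
    wl p (L ++ L') = wl p L ++ wl p L' := by simp [wl]
@[simp] theorem wr_append (p : List α) (L L' : List (DE P)) :
    wr p (L ++ L') = wr p L ++ wr p L' := by simp [wr]
@[simp] theorem wl_length (p : List α) (L : List (DE P)) : (wl p L).length = L.length := by
  simp [wl]
@[simp] theorem wr_length (p : List α) (L : List (DE P)) : (wr p L).length = L.length := by
  simp [wr]
@[simp] theorem wl_nil (L : List (DE P)) : wl [] L = L := by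
  induction L with
  | nil => rfl
  | cons e L ih => simp [ih]
@[simp] theorem wr_nil (L : List (DE P)) : wr [] L = L := by
  induction L with
  | nil => rfl
  | cons e L ih => simp [ih]
theorem wl_wl (p q : List α) (L : List (DE P)) : wl p (wl q L) = wl (p ++ q) L := by
  induction L with
  | nil => rfl
  | cons e L ih => simp [ih, DE.wl_wl]
theorem wr_wr (p q : List α) (L : List (DE P)) : wr q (wr p L) = wr (p ++ q) L := by
  induction L with
  | nil => rfl
  | cons e L ih => simp [ih, DE.wr_wr]
theorem wl_wr (p q : List α) (L : List (DE P)) : wr q (wl p L) = wl p (wr q L) := by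
  induction L with
  | nil => rfl
  | cons e L ih => simp [ih, DE.wl_wr]
@[simp] theorem invL_wl (p : List α) (L : List (DE P)) : invL (wl p L) = wl p (invL L) := by
  induction L with
  | nil => rfl
  | cons e L ih => simp [ih]
@[simp] theorem invL_wr (p : List α) (L : List (DE P)) : invL (wr p L) = wr p (invL L) := by
  induction L with
  | nil => rfl
  | cons e L ih => simp [ih]

theorem IsPath.wl (p : List α) {w w' : List α} {L : List (DE P)} (h : IsPath w L w') :
    IsPath (p ++ w) (wl p L) (p ++ w') := by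
  induction L generalizing w with
  | nil => simp only [IsPath] at h; subst h; rfl
  | cons e L ih =>
    obtain ⟨h1, h2⟩ := h
    exact ⟨by rw [DE.wl_src, h1], by rw [DE.wl_tgt]; exact ih h2⟩

theorem IsPath.wr (p : List α) {w w' : List α} {L : List (DE P)} (h : IsPath w L w') :
    IsPath (w ++ p) (wr p L) (w' ++ p) := by
  induction L generalizing w with
  | nil => simp only [IsPath] at h; subst h; rfl
  | cons e L ih =>
    obtain ⟨h1, h2⟩ := h
    exact ⟨by rw [DE.wr_src, h1], by rw [DE.wr_tgt]; exact ih h2⟩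

theorem Hty.wl (p : List α) {w w' : List α} {L L' : List (DE P)} (h : Hty w w' L L') :
    Hty (p ++ w) (p ++ w') (DG.wl p L) (DG.wl p L') := by
  induction h with
  | refl h => exact .refl (h.wl p)
  | step h hs =>
    refine .step (h.wl p) ?_
    cases hs with
    | cancel L₁ e L₂ =>
      have := Step.cancel (DG.wl p L₁) (e.wl p) (DG.wl p L₂)
      simpa using this
    | swap L₁ a r₁ d₁ b r₂ d₂ c L₂ =>
      have := Step.swap (DG.wl p L₁) (p ++ a) r₁ d₁ b r₂ d₂ c (DG.wl p L₂)
      simpa [DE.wl] using this
  | symm _ ih => exact ih.symm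
  | trans _ _ ih1 ih2 => exact ih1.trans ih2

theorem Hty.wr (p : List α) {w w' : List α} {L L' : List (DE P)} (h : Hty w w' L L') :
    Hty (w ++ p) (w' ++ p) (DG.wr p L) (DG.wr p L') := by
  induction h with
  | refl h => exact .refl (h.wr p)
  | step h hs =>
    refine .step (h.wr p) ?_
    cases hs with
    | cancel L₁ e L₂ =>
      have := Step.cancel (DG.wr p L₁) (e.wr p) (DG.wr p L₂)
      simpa using this
    | swap L₁ a r₁ d₁ b r₂ d₂ c L₂ =>
      have := Step.swap (DG.wr p L₁) a r₁ d₁ b r₂ d₂ (c ++ p) (DG.wr p L₂)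
      simpa [DE.wr] using this
  | symm _ ih => exact ih.symm
  | trans _ _ ih1 ih2 => exact ih1.trans ih2

/-- Independent edges commute. -/
theorem Hty.swap_edges (e f : DE P) :
    Hty (e.src ++ f.src) (e.tgt ++ f.tgt) [e.wr f.src, f.wl e.tgt] [f.wl e.src, e.wr f.tgt] := by
  have hp : IsPath (e.src ++ f.src) [e.wr f.src, f.wl e.tgt] (e.tgt ++ f.tgt) :=
    ⟨by simp, by simp, by rw [DE.wl_tgt]; rfl⟩
  refine .step hp ?_
  have := Step.swap [] e.a e.r e.d (e.b ++ f.a) f.r f.d f.b []
  simpa [DE.wr, DE.wl, DE.src, DE.tgt] using this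

/-- Exchange law. -/
theorem Hty.exchange {p p' q q' : List α} {A B : List (DE P)} (hA : IsPath p A p')
    (hB : IsPath q B q') :
    Hty (p ++ q) (p' ++ q') (DG.wr q A ++ DG.wl p' B) (DG.wl p B ++ DG.wr q' A) := by
  have single : ∀ (e : DE P) {q q' : List α} {B : List (DE P)}, IsPath q B q' →
      Hty (e.src ++ q) (e.tgt ++ q') ([e.wr q] ++ DG.wl e.tgt B) (DG.wl e.src B ++ [e.wr q']) := by
    intro e q q' B hB
    induction B generalizing q with
    | nil =>
      simp only [IsPath] at hB
      subst hB
      exact .refl ⟨by simp, by simp [IsPath]⟩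
    | cons f B ih =>
      obtain ⟨h1, h2⟩ := hB
      subst h1
      have h3 := Hty.swap_edges e f
      have h4 := ih h2
      have h5 : IsPath (e.tgt ++ f.tgt) (DG.wl e.tgt B) (e.tgt ++ q') := h2.wl _
      have h6 := h3.append_right h5
      have h7 : IsPath (e.src ++ f.src) [f.wl e.src] (e.src ++ f.tgt) :=
        ⟨by simp, by simp [IsPath]⟩
      have h8 := Hty.append_left h7 h4
      have e1 : [e.wr f.src] ++ DG.wl e.tgt (f :: B) = [e.wr f.src, f.wl e.tgt] ++ DG.wl e.tgt B :=
        rfl
      have e2 : [f.wl e.src, e.wr f.tgt] ++ DG.wl e.tgt B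
          = [f.wl e.src] ++ ([e.wr f.tgt] ++ DG.wl e.tgt B) := rfl
      have e3 : DG.wl e.src (f :: B) ++ [e.wr q'] = [f.wl e.src] ++ (DG.wl e.src B ++ [e.wr q']) :=
        rfl
      rw [e1, e3]
      rw [e2] at h6
      exact h6.trans h8
  induction A generalizing p with
  | nil =>
    simp only [IsPath] at hA
    subst hA
    simpa using Hty.refl (hB.wl p)
  | cons e A ih =>
    obtain ⟨h1, h2⟩ := hA
    subst h1
    have h3 := ih h2
    have h4 := single e hB
    have h5 : IsPath (e.src ++ q) [e.wr q] (e.tgt ++ q) := ⟨by simp, by simp [IsPath]⟩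
    have h6 := Hty.append_left h5 h3
    have h7 : IsPath (e.tgt ++ q') (DG.wr q' A) (p' ++ q') := h2.wr _
    have h8 := h4.append_right h7
    have e1 : DG.wr q (e :: A) ++ DG.wl p' B = [e.wr q] ++ (DG.wr q A ++ DG.wl p' B) := rfl
    have e2 : [e.wr q] ++ (DG.wl e.tgt B ++ DG.wr q' A)
        = [e.wr q] ++ DG.wl e.tgt B ++ DG.wr q' A := rfl
    have e3 : DG.wl e.src B ++ DG.wr q' (e :: A) = DG.wl e.src B ++ [e.wr q'] ++ DG.wr q' A := by
      simp
    rw [e1, e3]
    rw [e2] at h6
    exact h6.trans h8

/-- Homotopy is an equivalence relation on the loops at `w`. -/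
def loopSetoid (P : Pres.{u, v} α) (w : List α) : Setoid {L : List (DE P) // IsPath w L w} where
  r x y := Hty w w x.1 y.1
  iseqv := ⟨fun x => .refl x.2, fun h => h.symm, fun h1 h2 => h1.trans h2⟩

/-- The diagram group `D(P, w)`: the fundamental group of the Squier complex at `w`, that is, the
group of homotopy classes of closed edge paths at `w`. -/
def DiagramGroup (P : Pres.{u, v} α) (w : List α) := Quotient (loopSetoid P w)

namespace DiagramGroup

variable {w : List α}

/-- The class of a closed path. -/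
def mk (L : List (DE P)) (h : IsPath w L w) : DiagramGroup P w :=
  Quotient.mk (loopSetoid P w) ⟨L, h⟩

theorem mk_eq {L L' : List (DE P)} {h : IsPath w L w} {h' : IsPath w L' w} :
    mk L h = mk L' h' ↔ Hty w w L L' := by
  constructor
  · intro e; exact Quotient.exact e
  · intro e; exact Quotient.sound (s := loopSetoid P w) e

theorem ind {p : DiagramGroup P w → Prop} (h : ∀ L hL, p (mk L hL)) (g : DiagramGroup P w) :
    p g := by
  induction g using Quotient.inductionOn with
  | _ x => exact h x.1 x.2

instance : Mul (DiagramGroup P w) :=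
  ⟨Quotient.map₂ (sa := loopSetoid P w) (sb := loopSetoid P w) (sc := loopSetoid P w)
    (fun x y => ⟨x.1 ++ y.1, x.2.append y.2⟩) (fun _ _ h _ _ h' => Hty.append h h')⟩
instance : One (DiagramGroup P w) := ⟨mk [] (isPath_nil w)⟩
instance : Inv (DiagramGroup P w) :=
  ⟨Quotient.map (sa := loopSetoid P w) (sb := loopSetoid P w)
    (fun x => ⟨invL x.1, x.2.inv⟩) (fun _ _ h => Hty.inv h)⟩

theorem mk_mul (L L' : List (DE P)) (h : IsPath w L w) (h' : IsPath w L' w) :
    mk L h * mk L' h' = mk (L ++ L') (h.append h') := rfl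
theorem one_def : (1 : DiagramGroup P w) = mk [] (isPath_nil w) := rfl
theorem mk_inv (L : List (DE P)) (h : IsPath w L w) : (mk L h)⁻¹ = mk (invL L) h.inv := rfl

instance : Group (DiagramGroup P w) :=
  Group.ofLeftAxioms
    (by
      intro a b c
      induction a using ind with | _ L hL
      induction b using ind with | _ M hM
      induction c using ind with | _ N hN
      simp only [mk_mul, List.append_assoc])
    (by
      intro a
      induction a using ind with | _ L hL
      rfl)
    (by
      intro a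
      induction a using ind with | _ L hL
      rw [mk_inv, mk_mul, one_def, mk_eq]
      exact Hty.inv_append hL)


end DiagramGroup

end DG

end FileRaw

section FileTok

/-! Tokens: a concrete model of the action of the diagram groupoid (MP_f61096_al). -/

namespace DG

universe u v

/-- Tokens: `orig n` is the `n`-th letter of the base word, `made r d c j` (see below) is the
`j`-th letter created when the relation `r` is applied in direction `d` to the list of tokens `c`. -/
inductive Tok (ι : Type v) where
  | orig (n : ℕ)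
  | mk (r : ι) (d : Bool) (n : ℕ) (c : Fin n → Tok ι) (j : ℕ)

/-- Created tokens. -/
def Tok.made {ι : Type v} (r : ι) (d : Bool) (c : List (Tok ι)) (j : ℕ) : Tok ι :=
  .mk r d c.length (fun i => c.get i) j

theorem list_get_inj {β : Type*} {c c' : List β} (h : c.length = c'.length)
    (h' : HEq (fun i => c.get i) (fun i => c'.get i)) : c = c' := by
  apply List.ext_getElem h
  intro i h1 h2
  have key : ∀ (n n' : ℕ) (hn : n = n') (f : Fin n → β) (g : Fin n' → β) (_ : HEq f g)
      (h1 : i < n) (h2 : i < n'), f ⟨i, h1⟩ = g ⟨i, h2⟩ := by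
    intro n n' hn f g hfg h1 h2
    subst hn
    rw [eq_of_heq hfg]
  exact key _ _ h _ _ h' h1 h2

theorem made_inj {ι : Type v} {r r' : ι} {d d' : Bool} {c c' : List (Tok ι)} {j j' : ℕ} :
    Tok.made r d c j = Tok.made r' d' c' j' ↔ r = r' ∧ d = d' ∧ c = c' ∧ j = j' := by
  constructor
  · intro h
    unfold Tok.made at h
    simp only [Tok.mk.injEq] at h
    obtain ⟨h1, h2, h3, h4, h5⟩ := h
    exact ⟨h1, h2, list_get_inj h3 h4, h5⟩
  · rintro ⟨rfl, rfl, rfl, rfl⟩; rfl

theorem made_ne_orig {ι : Type v} {r : ι} {d : Bool} {c : List (Tok ι)} {j n : ℕ} :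
    Tok.made r d c j ≠ Tok.orig n := by
  intro h
  unfold Tok.made at h
  cases h

theorem tok_cases {ι : Type v} (t : Tok ι) : (∃ n, t = .orig n) ∨ ∃ r d c j, t = .made r d c j := by
  cases t with
  | orig n => exact Or.inl ⟨n, rfl⟩
  | mk r d n c j =>
    right
    refine ⟨r, d, List.ofFn c, j, ?_⟩
    unfold Tok.made
    simp only [Tok.mk.injEq, true_and, List.length_ofFn, and_true]
    apply Function.hfunext
    · simp
    · intro a b hab
      apply heq_of_eq
      simp only [List.get_ofFn]
      congr 1
      have hn : n = (List.ofFn c).length := by simp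
      have key : ∀ (m : ℕ) (_ : n = m) (a : Fin n) (b : Fin m), HEq a b → a.1 = b.1 := by
        intro m hm a b hab
        subst hm
        rw [eq_of_heq hab]
      ext
      simpa using key _ hn a b hab

variable {α : Type u} {P : Pres.{u, v} α}

/-- Length of a side of a relation. -/
def len (P : Pres.{u, v} α) (r : P.ι) (d : Bool) : ℕ := (P.side r d).length

theorem len_pos (r : P.ι) (d : Bool) : 0 < len P r d := List.length_pos_of_ne_nil (P.side_ne r d)

/-- The block of tokens created by a move. -/
def block (P : Pres.{u, v} α) (r : P.ι) (d : Bool) (c : List (Tok P.ι)) : List (Tok P.ι) :=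
  (List.range (len P r (!d))).map (Tok.made r d c)

@[simp] theorem block_length (r : P.ι) (d : Bool) (c : List (Tok P.ι)) :
    (block P r d c).length = len P r (!d) := by simp [block]

theorem block_cons (r : P.ι) (d : Bool) (c : List (Tok P.ι)) :
    ∃ t, block P r d c = Tok.made r d c 0 :: t := by
  unfold block
  obtain ⟨k, hk⟩ : ∃ k, len P r (!d) = k + 1 := ⟨len P r (!d) - 1, by
    have := len_pos r (!d) (P := P); omega⟩
  rw [hk, List.range_succ_eq_map, List.map_cons]
  exact ⟨_, rfl⟩

theorem block_getElem (r : P.ι) (d : Bool) (c : List (Tok P.ι)) (j : ℕ)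
    (hj : j < (block P r d c).length) : (block P r d c)[j] = Tok.made r d c j := by
  simp [block]

theorem block_ne_nil (r : P.ι) (d : Bool) (c : List (Tok P.ι)) : block P r d c ≠ [] := by
  obtain ⟨t, ht⟩ := block_cons r d c
  rw [ht]; simp

theorem block_inj {r r' : P.ι} {d d' : Bool} {c c' : List (Tok P.ι)}
    (h : block P r d c = block P r' d' c') : r = r' ∧ d = d' ∧ c = c' := by
  obtain ⟨t, ht⟩ := block_cons r d c
  obtain ⟨t', ht'⟩ := block_cons r' d' c'
  rw [ht, ht'] at h
  simp only [List.cons.injEq, made_inj] at h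
  exact ⟨h.1.1, h.1.2.1, h.1.2.2.1⟩

theorem mem_block {r : P.ι} {d : Bool} {c : List (Tok P.ι)} {t : Tok P.ι} :
    t ∈ block P r d c ↔ ∃ j, j < len P r (!d) ∧ t = Tok.made r d c j := by
  simp only [block, List.mem_map, List.mem_range]
  constructor
  · rintro ⟨j, hj, rfl⟩; exact ⟨j, hj, rfl⟩
  · rintro ⟨j, hj, rfl⟩; exact ⟨j, hj, rfl⟩

open Classical in
/-- The effect of a move on the list of consumed tokens. -/
noncomputable def cs (P : Pres.{u, v} α) (r : P.ι) (d : Bool) (c : List (Tok P.ι)) :
    List (Tok P.ι) :=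
  if h : ∃ c', c = block P r (!d) c' then h.choose else block P r d c

theorem cs_block (r : P.ι) (d : Bool) (c : List (Tok P.ι)) :
    cs P r d (block P r (!d) c) = c := by
  unfold cs
  have h : ∃ c', block P r (!d) c = block P r (!d) c' := ⟨c, rfl⟩
  rw [dif_pos h]
  exact (block_inj h.choose_spec).2.2.symm

theorem cs_of_not {r : P.ι} {d : Bool} {c : List (Tok P.ι)}
    (h : ¬ ∃ c', c = block P r (!d) c') : cs P r d c = block P r d c := by
  unfold cs
  rw [dif_neg h]

/-- The label of a token over the base word `w`. -/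
def lab (P : Pres.{u, v} α) (w : List α) : Tok P.ι → Option α
  | .orig n => w[n]?
  | .mk r d _ _ j => (P.side r (!d))[j]?

theorem lab_made (w : List α) (r : P.ι) (d : Bool) (c : List (Tok P.ι)) (j : ℕ) :
    lab P w (.made r d c j) = (P.side r (!d))[j]? := rfl

/-- Valid tokens. -/
inductive Val (P : Pres.{u, v} α) (w : List α) : Tok P.ι → Prop
  | orig {n : ℕ} : n < w.length → Val P w (.orig n)
  | made {r : P.ι} {d : Bool} {c : List (Tok P.ι)} {j : ℕ} : (∀ t ∈ c, Val P w t) →
      c.map (lab P w) = (P.side r d).map some → j < len P r (!d) →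
      (¬ ∃ c', c = block P r (!d) c') → Val P w (.made r d c j)

theorem val_made {w : List α} {r : P.ι} {d : Bool} {c : List (Tok P.ι)} {j : ℕ}
    (h : Val P w (.made r d c j)) : (∀ t ∈ c, Val P w t) ∧
      c.map (lab P w) = (P.side r d).map some ∧ j < len P r (!d) ∧
      (¬ ∃ c', c = block P r (!d) c') := by
  generalize ht : Tok.made r d c j = t at h
  cases h with
  | orig _ => exact absurd ht made_ne_orig
  | made a b e f =>
    rw [made_inj] at ht
    obtain ⟨rfl, rfl, rfl, rfl⟩ := ht
    exact ⟨a, b, e, f⟩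

theorem val_orig {w : List α} {n : ℕ} (h : Val P w (.orig n)) : n < w.length := by
  generalize ht : Tok.orig n = t at h
  cases h with
  | orig h => cases ht; exact h
  | made _ _ _ _ => exact absurd ht.symm made_ne_orig

/-- `S` is a good list of tokens over `w` spelling the word `x`. -/
def Good (P : Pres.{u, v} α) (w x : List α) (S : List (Tok P.ι)) : Prop :=
  (∀ t ∈ S, Val P w t) ∧ S.map (lab P w) = x.map some

theorem Good.length {w x : List α} {S : List (Tok P.ι)} (h : Good P w x S) :
    S.length = x.length := by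
  have := congrArg List.length h.2
  simpa using this

theorem good_nil (w : List α) : Good P w [] [] := ⟨by simp, by simp⟩

theorem good_append {w x y : List α} {S T : List (Tok P.ι)} (h : Good P w x S)
    (h' : Good P w y T) : Good P w (x ++ y) (S ++ T) :=
  ⟨by intro t ht; rcases List.mem_append.mp ht with h1 | h1; exacts [h.1 t h1, h'.1 t h1],
    by rw [List.map_append, List.map_append, h.2, h'.2]⟩

theorem good_split {w x y : List α} {S : List (Tok P.ι)} (h : Good P w (x ++ y) S) :
    ∃ S₁ S₂, S = S₁ ++ S₂ ∧ Good P w x S₁ ∧ Good P w y S₂ := by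
  refine ⟨S.take x.length, S.drop x.length, (List.take_append_drop _ _).symm, ?_, ?_⟩
  · refine ⟨fun t ht => h.1 t (List.mem_of_mem_take ht), ?_⟩
    rw [List.map_take, h.2, List.map_append, List.take_left']
    simp
  · refine ⟨fun t ht => h.1 t (List.mem_of_mem_drop ht), ?_⟩
    rw [List.map_drop, h.2, List.map_append, List.drop_left']
    simp

theorem good_block {w : List α} {r : P.ι} {d : Bool} {c : List (Tok P.ι)}
    (h : Good P w (P.side r d) c) (hn : ¬ ∃ c', c = block P r (!d) c') :
    Good P w (P.side r (!d)) (block P r d c) := by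
  constructor
  · intro t ht
    obtain ⟨j, hj, rfl⟩ := mem_block.mp ht
    exact Val.made h.1 h.2 hj hn
  · apply List.ext_getElem
    · simp [len]
    · intro j h1 h2
      rw [List.getElem_map, block_getElem, List.getElem_map]
      have : j < (P.side r (!d)).length := by simpa using h2
      simp [lab_made, this]

theorem good_unblock {w : List α} {r : P.ι} {d : Bool} {c : List (Tok P.ι)}
    (h : ∀ t ∈ block P r (!d) c, Val P w t) :
    Good P w (P.side r (!d)) c ∧ ¬ ∃ c', c = block P r d c' := by
  obtain ⟨t, ht⟩ := block_cons r (!d) c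
  have h1 := h (Tok.made r (!d) c 0) (by rw [ht]; simp)
  obtain ⟨a, b, _, e⟩ := val_made h1
  rw [Bool.not_not] at e
  exact ⟨⟨a, b⟩, e⟩

theorem good_cs {w : List α} {r : P.ι} {d : Bool} {c : List (Tok P.ι)}
    (h : Good P w (P.side r d) c) : Good P w (P.side r (!d)) (cs P r d c) := by
  by_cases hn : ∃ c', c = block P r (!d) c'
  · obtain ⟨c', rfl⟩ := hn
    rw [cs_block]
    exact (good_unblock h.1).1
  · rw [cs_of_not hn]
    exact good_block h hn

theorem cs_cs {w : List α} {r : P.ι} {d : Bool} {c : List (Tok P.ι)}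
    (h : Good P w (P.side r d) c) : cs P r (!d) (cs P r d c) = c := by
  by_cases hn : ∃ c', c = block P r (!d) c'
  · obtain ⟨c', rfl⟩ := hn
    rw [cs_block]
    have := (good_unblock h.1).2
    rw [cs_of_not]
    simpa using this
  · rw [cs_of_not hn]
    have := cs_block (P := P) r (!d) c
    rwa [Bool.not_not] at this

/-- One move. -/
noncomputable def act1 (e : DE P) (S : List (Tok P.ι)) : List (Tok P.ι) :=
  S.take e.a.length ++ cs P e.r e.d ((S.drop e.a.length).take (len P e.r e.d)) ++
    S.drop (e.a.length + len P e.r e.d)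

theorem act1_eq (e : DE P) {S₁ c S₂ : List (Tok P.ι)} (h₁ : S₁.length = e.a.length)
    (h₂ : c.length = len P e.r e.d) : act1 e (S₁ ++ c ++ S₂) = S₁ ++ cs P e.r e.d c ++ S₂ := by
  unfold act1
  have e1 : (S₁ ++ c ++ S₂).take e.a.length = S₁ := by
    rw [List.append_assoc, ← h₁, List.take_left]
  have e2 : ((S₁ ++ c ++ S₂).drop e.a.length).take (len P e.r e.d) = c := by
    rw [List.append_assoc, ← h₁, List.drop_left, ← h₂, List.take_left]
  have e3 : (S₁ ++ c ++ S₂).drop (e.a.length + len P e.r e.d) = S₂ := by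
    rw [← h₁, ← h₂, ← List.length_append, List.drop_left]
  rw [e1, e2, e3]

/-- Decomposition of a good state along an edge. -/
theorem good_edge {w : List α} {e : DE P} {S : List (Tok P.ι)} (h : Good P w e.src S) :
    ∃ S₁ c S₂, S = S₁ ++ c ++ S₂ ∧ Good P w e.a S₁ ∧ Good P w (P.side e.r e.d) c ∧
      Good P w e.b S₂ ∧ act1 e S = S₁ ++ cs P e.r e.d c ++ S₂ := by
  obtain ⟨T, S₂, rfl, h1, h2⟩ := good_split h
  obtain ⟨S₁, c, rfl, h3, h4⟩ := good_split h1
  exact ⟨S₁, c, S₂, rfl, h3, h4, h2, act1_eq e h3.length h4.length⟩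

theorem good_act1 {w : List α} {e : DE P} {S : List (Tok P.ι)} (h : Good P w e.src S) :
    Good P w e.tgt (act1 e S) := by
  obtain ⟨S₁, c, S₂, rfl, h1, h2, h3, h4⟩ := good_edge h
  rw [h4]
  exact good_append (good_append h1 (good_cs h2)) h3

theorem act1_inv {w : List α} {e : DE P} {S : List (Tok P.ι)} (h : Good P w e.src S) :
    act1 e.inv (act1 e S) = S := by
  obtain ⟨S₁, c, S₂, rfl, h1, h2, h3, h4⟩ := good_edge h
  rw [h4, act1_eq e.inv h1.length (good_cs h2).length]
  show S₁ ++ cs P e.r (!e.d) (cs P e.r e.d c) ++ S₂ = _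
  rw [cs_cs h2]

/-- Action of a list of edges on states. -/
noncomputable def act (L : List (DE P)) (S : List (Tok P.ι)) : List (Tok P.ι) :=
  L.foldl (fun S e => act1 e S) S

@[simp] theorem act_nil (S : List (Tok P.ι)) : act [] S = S := rfl
@[simp] theorem act_cons (e : DE P) (L : List (DE P)) (S : List (Tok P.ι)) :
    act (e :: L) S = act L (act1 e S) := rfl
theorem act_append (L L' : List (DE P)) (S : List (Tok P.ι)) :
    act (L ++ L') S = act L' (act L S) := by
  simp [act, List.foldl_append]

theorem good_act {w x y : List α} {L : List (DE P)} {S : List (Tok P.ι)} (hL : IsPath x L y)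
    (h : Good P w x S) : Good P w y (act L S) := by
  induction L generalizing x S with
  | nil => simp only [IsPath] at hL; subst hL; exact h
  | cons e L ih =>
    obtain ⟨h1, h2⟩ := hL
    subst h1
    exact ih h2 (good_act1 h)

theorem act_step {w x y : List α} {L L' : List (DE P)} (hs : Step L L') (hL : IsPath x L y)
    {S : List (Tok P.ι)} (h : Good P w x S) : act L S = act L' S := by
  cases hs with
  | cancel L₁ e L₂ =>
    obtain ⟨m, h1, h2⟩ := isPath_append.mp hL
    rw [act_append, act_append, act_cons, act_cons]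
    have hg := good_act h1 h
    rw [h2.1] at hg
    rw [act1_inv hg]
  | swap L₁ a r₁ d₁ b r₂ d₂ c L₂ =>
    obtain ⟨m, h1, h2⟩ := isPath_append.mp hL
    rw [act_append, act_append, act_cons, act_cons, act_cons, act_cons]
    have hg := good_act h1 h
    rw [h2.1] at hg
    generalize act L₁ S = T at hg
    congr 1
    obtain ⟨T₁, x1, T₂, rfl, g1, g2, g3, g4⟩ := good_edge hg
    simp only at g1 g2 g3 g4
    obtain ⟨T₃, T₄, rfl, g5, g6⟩ := good_split g3
    obtain ⟨T₅, x2, rfl, g7, g8⟩ := good_split g5
    rw [g4]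
    have e1 : T₁ ++ cs P r₁ d₁ x1 ++ (T₅ ++ x2 ++ T₄) = (T₁ ++ cs P r₁ d₁ x1 ++ T₅) ++ x2 ++ T₄ := by
      simp
    rw [e1, act1_eq _ (good_append (good_append g1 (good_cs g2)) g7).length g8.length]
    have e2 : T₁ ++ x1 ++ (T₅ ++ x2 ++ T₄) = (T₁ ++ x1 ++ T₅) ++ x2 ++ T₄ := by simp
    rw [e2, act1_eq _ (good_append (good_append g1 g2) g7).length g8.length]
    have e3 : T₁ ++ x1 ++ T₅ ++ cs P r₂ d₂ x2 ++ T₄ = T₁ ++ x1 ++ (T₅ ++ cs P r₂ d₂ x2 ++ T₄) := by
      simp
    simp only
    rw [e3, act1_eq _ g1.length g2.length]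
    simp

theorem act_hty {w x y : List α} {L L' : List (DE P)} (hs : Hty x y L L')
    {S : List (Tok P.ι)} (h : Good P w x S) : act L S = act L' S := by
  induction hs with
  | refl _ => rfl
  | step hL hs => exact act_step hs hL h
  | symm _ ih => exact ih.symm
  | trans _ _ ih1 ih2 => exact ih1.trans ih2

/-- The initial state. -/
def s0 (P : Pres.{u, v} α) (w : List α) : List (Tok P.ι) := (List.range w.length).map Tok.orig

theorem good_s0 (w : List α) : Good P w w (s0 P w) := by
  constructor
  · intro t ht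
    simp only [s0, List.mem_map, List.mem_range] at ht
    obtain ⟨n, hn, rfl⟩ := ht
    exact Val.orig hn
  · apply List.ext_getElem
    · simp [s0]
    · intro j h1 h2
      have : j < w.length := by simpa using h2
      simp [s0, lab, this]

/-- The move `e` does not cancel at the state `S`. -/
def NCs (e : DE P) (S : List (Tok P.ι)) : Prop :=
  ¬ ∃ c', (S.drop e.a.length).take (len P e.r e.d) = block P e.r (!e.d) c'

/-- The path does not cancel, starting from the state `S`. -/
def NC : List (DE P) → List (Tok P.ι) → Prop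
  | [], _ => True
  | e :: L, S => NCs e S ∧ NC L (act1 e S)

theorem nc_append {L L' : List (DE P)} {S : List (Tok P.ι)} :
    NC (L ++ L') S ↔ NC L S ∧ NC L' (act L S) := by
  induction L generalizing S with
  | nil => simp [NC]
  | cons e L ih => simp [NC, ih, and_assoc]

theorem ncs_eq (e : DE P) {S₁ c S₂ : List (Tok P.ι)} (h₁ : S₁.length = e.a.length)
    (h₂ : c.length = len P e.r e.d) :
    NCs e (S₁ ++ c ++ S₂) ↔ ¬ ∃ c', c = block P e.r (!e.d) c' := by
  unfold NCs
  have e2 : ((S₁ ++ c ++ S₂).drop e.a.length).take (len P e.r e.d) = c := by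
    rw [List.append_assoc, ← h₁, List.drop_left, ← h₂, List.take_left]
  rw [e2]

end DG

end FileTok

section FileRed

/-! Reduced paths (MP_f61096_al). -/

namespace DG

universe u v

variable {α : Type u} {P : Pres.{u, v} α}

theorem append_len_split {β : Type*} {A B C D : List β} (h : A ++ B = C ++ D)
    (hl : C.length ≤ A.length) : ∃ M, A = C ++ M ∧ D = M ++ B := by
  rcases List.append_eq_append_iff.mp h with ⟨M, h1, h2⟩ | ⟨M, h1, h2⟩
  · have : M = [] := by
      have := congrArg List.length h1
      simp only [List.length_append] at this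
      exact List.length_eq_zero_iff.mp (by omega)
    subst this
    simp only [List.append_nil, List.nil_append] at h1 h2
    exact ⟨[], by simp [h1], by simp [h2]⟩
  · exact ⟨M, h1, h2⟩

theorem append_len_eq {β : Type*} {A B C D : List β} (h : A ++ B = C ++ D)
    (hl : A.length = C.length) : A = C ∧ B = D := List.append_inj h hl

theorem s0_orig (w : List α) : ∀ t ∈ s0 P w, ∃ n, t = Tok.orig n := by
  intro t ht
  simp only [s0, List.mem_map, List.mem_range] at ht
  obtain ⟨n, _, rfl⟩ := ht
  exact ⟨n, rfl⟩

/-- If a non-cancelling path ends in a state containing a complete block, the creation of that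
block can be moved to the end of the path. -/
theorem pull {w y : List α} {S₀ : List (Tok P.ι)} (hS₀ : Good P w y S₀)
    (ho : ∀ t ∈ S₀, ∃ n, t = Tok.orig n) {r : P.ι} {d : Bool} {c : List (Tok P.ι)}
    (L : List (DE P)) :
    ∀ {x : List α} {S₁ S₂ : List (Tok P.ι)}, IsPath y L x → NC L S₀ →
      act L S₀ = S₁ ++ block P r d c ++ S₂ →
      ∃ L' a b, a.length = S₁.length ∧ IsPath y L' (a ++ P.side r d ++ b) ∧
        Hty y x L (L' ++ [⟨a, r, d, b⟩]) ∧ NC L' S₀ ∧ act L' S₀ = S₁ ++ c ++ S₂ ∧
        L'.length + 1 = L.length := by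
  induction L using List.reverseRecOn with
  | nil =>
    intro x S₁ S₂ _ _ h
    exfalso
    obtain ⟨t, ht⟩ := block_cons (P := P) r d c
    have : Tok.made r d c 0 ∈ S₀ := by
      rw [act_nil] at h
      rw [h, ht]; simp
    obtain ⟨n, hn⟩ := ho _ this
    exact made_ne_orig hn
  | append_singleton L₀ e ih =>
    intro x S₁ S₂ hL hnc hS
    obtain ⟨m, hL₀, hm, hx⟩ := isPath_append.mp hL
    subst hm
    simp only [IsPath] at hx
    rw [nc_append] at hnc
    obtain ⟨hnc0, hnce, -⟩ := hnc
    have hg := good_act hL₀ hS₀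
    obtain ⟨T₁, ce, T₂, hT, g1, g2, g3, g4⟩ := good_edge hg
    have hcan : ¬ ∃ c', ce = block P e.r (!e.d) c' := by
      rw [hT, ncs_eq e g1.length g2.length] at hnce
      exact hnce
    rw [act_append, act_cons, act_nil, g4, cs_of_not hcan] at hS
    -- validity of the block
    have hgx : Good P w x (S₁ ++ block P r d c ++ S₂) := by
      have := good_act hL hS₀
      rw [act_append, act_cons, act_nil, g4, cs_of_not hcan, hS] at this
      exact this
    have hval : ∀ t ∈ block P r d c, Val P w t := by
      intro t ht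
      exact hgx.1 t (by simp [ht])
    have hcg : Good P w (P.side r d) c ∧ ¬ ∃ c', c = block P r (!d) c' := by
      have := good_unblock (P := P) (w := w) (r := r) (d := !d) (c := c) (by rwa [Bool.not_not])
      rwa [Bool.not_not] at this
    have hclen : c.length = len P r d := hcg.1.length
    rcases Nat.lt_or_ge T₁.length (S₁.length + (block P r d c).length) with hA | hA
    · rcases Nat.lt_or_ge S₁.length (T₁.length + (block P e.r e.d ce).length) with hB | hB
      · -- overlapping
        have hov : ∃ i, T₁.length ≤ i ∧ i < T₁.length + (block P e.r e.d ce).length ∧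
            S₁.length ≤ i ∧ i < S₁.length + (block P r d c).length := by
          have h1 : 0 < (block P e.r e.d ce).length := by rw [block_length]; exact len_pos _ _
          have h2 : 0 < (block P r d c).length := by rw [block_length]; exact len_pos _ _
          rcases le_total T₁.length S₁.length with h | h
          · exact ⟨S₁.length, h, hB, le_refl _, by omega⟩
          · exact ⟨T₁.length, le_refl _, by omega, h, hA⟩
        obtain ⟨i, i1, i2, i3, i4⟩ := hov
        have hi1 : (T₁ ++ block P e.r e.d ce ++ T₂)[i]? =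
            some (Tok.made e.r e.d ce (i - T₁.length)) := by
          rw [List.append_assoc, List.getElem?_append_right i1, List.getElem?_append_left (by omega),
            List.getElem?_eq_getElem (by omega), block_getElem]
        have hi2 : (S₁ ++ block P r d c ++ S₂)[i]? =
            some (Tok.made r d c (i - S₁.length)) := by
          rw [List.append_assoc, List.getElem?_append_right i3, List.getElem?_append_left (by omega),
            List.getElem?_eq_getElem (by omega), block_getElem]
        rw [hS, hi2] at hi1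
        simp only [Option.some.injEq, made_inj] at hi1
        obtain ⟨e1, e2, e3, e4⟩ := hi1
        have hlen : T₁.length = S₁.length := by omega
        have hS' := hS
        rw [List.append_assoc, List.append_assoc] at hS'
        obtain ⟨e5, e6⟩ := List.append_inj hS' hlen
        subst e5
        have e7 : block P e.r e.d ce = block P r d c := by rw [e1, e2, e3]
        rw [e7] at e6
        have e8 := List.append_cancel_left e6
        subst e8
        refine ⟨L₀, e.a, e.b, g1.length.symm, ?_, ?_, hnc0, ?_, by simp⟩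
        · rw [e1, e2]; exact hL₀
        · rw [e1, e2]; exact .refl hL
        · rw [hT, e3]
      · -- block of e to the left
        obtain ⟨M, hM1, hM2⟩ : ∃ M, S₁ = (T₁ ++ block P e.r e.d ce) ++ M ∧
            T₂ = M ++ (block P r d c ++ S₂) := by
          have h' : S₁ ++ (block P r d c ++ S₂) = (T₁ ++ block P e.r e.d ce) ++ T₂ := by
            rw [hS]; simp
          exact append_len_split h' (by simpa using hB)
        have hT' : act L₀ S₀ = (T₁ ++ ce ++ M) ++ block P r d c ++ S₂ := by
          rw [hT, hM2]; simp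
        obtain ⟨L', a, b, k1, k2, k3, k4, k5, k6⟩ := ih hL₀ hnc0 hT'
        have hsrc : a ++ P.side r (!d) ++ b = e.src := by
          have := k3.right
          obtain ⟨m', p1, p2, p3⟩ := isPath_append.mp this
          exact p3
        have hsrc' : a ++ (P.side r (!d) ++ b) = (e.a ++ P.side e.r e.d) ++ e.b := by
          rw [← List.append_assoc, hsrc]; rfl
        obtain ⟨m1, hm1, hm2⟩ := append_len_split hsrc' (by
          rw [k1]; simp only [List.length_append, g1.length]
          have := g2.length
          omega)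
        have hm1l : m1.length = M.length := by
          have h1 := congrArg List.length hm1
          rw [k1] at h1
          simp only [List.length_append, g1.length, g2.length] at h1
          omega
        refine ⟨L' ++ [⟨e.a, e.r, e.d, m1 ++ P.side r d ++ b⟩],
          e.a ++ P.side e.r (!e.d) ++ m1, b, ?_, ?_, ?_, ?_, ?_, ?_⟩
        · rw [hM1]
          simp only [List.length_append, g1.length, hm1l, block_length]
          rfl
        · refine k2.append ⟨?_, ?_⟩
          · rw [hm1]; simp [DE.src]
          · simp [DE.tgt, IsPath]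
        · have h1 : Hty y x (L₀ ++ [e]) (L' ++ [⟨a, r, d, b⟩] ++ [e]) :=
            k3.append_right ⟨rfl, hx⟩
          have h2 : Hty y x (L' ++ [⟨a, r, d, b⟩] ++ [e])
              (L' ++ [⟨e.a, e.r, e.d, m1 ++ P.side r d ++ b⟩] ++
                [⟨e.a ++ P.side e.r (!e.d) ++ m1, r, d, b⟩]) := by
            have hst := Step.swap (P := P) L' e.a e.r e.d m1 r d b []
            have he : e = ⟨e.a, e.r, e.d, m1 ++ P.side r (!d) ++ b⟩ := by
              have : m1 ++ P.side r (!d) ++ b = e.b := by rw [hm2]; simp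
              rw [this]
            have hst' : Step (L' ++ [⟨e.a, e.r, e.d, m1 ++ P.side r d ++ b⟩] ++
                [⟨e.a ++ P.side e.r (!e.d) ++ m1, r, d, b⟩])
                (L' ++ [⟨a, r, d, b⟩] ++ [e]) := by
              rw [hm1, he]
              simpa using hst
            refine (Hty.step ?_ hst').symm
            refine IsPath.append (m := e.a ++ P.side e.r (!e.d) ++ (m1 ++ P.side r d ++ b)) ?_ ?_
            · refine k2.append ⟨?_, ?_⟩
              · rw [hm1]; simp [DE.src]
              · simp [DE.tgt, IsPath]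
            · refine ⟨by simp [DE.src], ?_⟩
              rw [← hx, DE.tgt, DE.tgt, hm2]
              simp [IsPath]
          exact h1.trans h2
        · rw [nc_append]
          refine ⟨k4, ?_, trivial⟩
          rw [k5]
          have e1 : T₁ ++ ce ++ M ++ c ++ S₂ = T₁ ++ ce ++ (M ++ c ++ S₂) := by simp
          rw [e1]
          exact (ncs_eq (⟨e.a, e.r, e.d, m1 ++ P.side r d ++ b⟩ : DE P) g1.length
            g2.length).mpr hcan
        · rw [act_append, k5, act_cons, act_nil]
          have e1 : T₁ ++ ce ++ M ++ c ++ S₂ = T₁ ++ ce ++ (M ++ c ++ S₂) := by simp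
          rw [e1, act1_eq (⟨e.a, e.r, e.d, m1 ++ P.side r d ++ b⟩ : DE P) g1.length g2.length, hM1]
          simp only
          rw [cs_of_not hcan]
          simp
        · simp only [List.length_append, List.length_singleton]; omega
    · -- block of e to the right
      obtain ⟨M, hM1, hM2⟩ : ∃ M, T₁ = (S₁ ++ block P r d c) ++ M ∧
          S₂ = M ++ (block P e.r e.d ce ++ T₂) := by
        have h' : T₁ ++ (block P e.r e.d ce ++ T₂) = (S₁ ++ block P r d c) ++ S₂ := by
          rw [← hS]; simp
        exact append_len_split h' (by simpa using hA)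
      have hT' : act L₀ S₀ = S₁ ++ block P r d c ++ (M ++ ce ++ T₂) := by
        rw [hT, hM1]; simp
      obtain ⟨L', a, b, k1, k2, k3, k4, k5, k6⟩ := ih hL₀ hnc0 hT'
      have hsrc : a ++ P.side r (!d) ++ b = e.src := by
        have := k3.right
        obtain ⟨m', p1, p2, p3⟩ := isPath_append.mp this
        exact p3
      have hsrc' : e.a ++ (P.side e.r e.d ++ e.b) = (a ++ P.side r (!d)) ++ b := by
        rw [hsrc]; simp [DE.src]
      have hTl : e.a.length = S₁.length + len P r (!d) + M.length := by
        rw [← g1.length, hM1]; simp only [List.length_append, block_length]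
      obtain ⟨m1, hm1, hm2⟩ := append_len_split hsrc' (by
        simp only [List.length_append, k1, hTl]; unfold len; omega)
      have hm1l : m1.length = M.length := by
        have h1 := congrArg List.length hm1
        rw [hTl] at h1
        simp only [List.length_append, k1] at h1
        unfold len at h1
        omega
      refine ⟨L' ++ [⟨a ++ P.side r d ++ m1, e.r, e.d, e.b⟩],
        a, m1 ++ P.side e.r (!e.d) ++ e.b, k1, ?_, ?_, ?_, ?_, ?_⟩
      · refine k2.append ⟨?_, ?_⟩
        · rw [hm2]; simp [DE.src]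
        · simp [DE.tgt, IsPath]
      · have h1 : Hty y x (L₀ ++ [e]) (L' ++ [⟨a, r, d, b⟩] ++ [e]) :=
          k3.append_right ⟨rfl, hx⟩
        refine h1.trans (Hty.step h1.right ?_)
        have hst := Step.swap (P := P) L' a r d m1 e.r e.d e.b []
        have he : e = ⟨a ++ P.side r (!d) ++ m1, e.r, e.d, e.b⟩ := by
          rw [← hm1]
        have hb : b = m1 ++ P.side e.r e.d ++ e.b := by rw [hm2]; simp
        conv_lhs => rw [he, hb]
        simpa using hst
      · rw [nc_append]
        refine ⟨k4, ?_, trivial⟩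
        rw [k5]
        have e1 : S₁ ++ c ++ (M ++ ce ++ T₂) = (S₁ ++ c ++ M) ++ ce ++ T₂ := by simp
        rw [e1]
        refine (ncs_eq (⟨a ++ P.side r d ++ m1, e.r, e.d, e.b⟩ : DE P) ?_ g2.length).mpr hcan
        simp only [List.length_append, k1, hclen, hm1l]; rfl
      · rw [act_append, k5, act_cons, act_nil]
        have e1 : S₁ ++ c ++ (M ++ ce ++ T₂) = (S₁ ++ c ++ M) ++ ce ++ T₂ := by simp
        have e2 : (S₁ ++ c ++ M).length = (a ++ P.side r d ++ m1).length := by
          simp only [List.length_append, k1, hclen, hm1l]; rfl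
        rw [e1, act1_eq (⟨a ++ P.side r d ++ m1, e.r, e.d, e.b⟩ : DE P) e2 g2.length, hM2]
        simp only
        rw [cs_of_not hcan]
        simp
      · simp only [List.length_append, List.length_singleton]; omega

/-- Every path is homotopic to a non-cancelling one. -/
theorem red {w y : List α} {S₀ : List (Tok P.ι)} (hS₀ : Good P w y S₀)
    (ho : ∀ t ∈ S₀, ∃ n, t = Tok.orig n) (L : List (DE P)) : ∀ {x : List α}, IsPath y L x →
    ∃ L', Hty y x L L' ∧ NC L' S₀ ∧ (L' = L ∨ L'.length < L.length) := by
  induction L using List.reverseRecOn with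
  | nil => intro x hL; exact ⟨[], .refl hL, trivial, Or.inl rfl⟩
  | append_singleton L₀ e ih =>
    intro x hL
    obtain ⟨m, hL₀, hm, hx⟩ := isPath_append.mp hL
    subst hm
    obtain ⟨L', k1, k2, k3⟩ := ih hL₀
    have he : IsPath e.src [e] x := ⟨rfl, hx⟩
    by_cases hc : NCs e (act L' S₀)
    · refine ⟨L' ++ [e], k1.append_right he, nc_append.mpr ⟨k2, hc, trivial⟩, ?_⟩
      rcases k3 with h | h
      · left; rw [h]
      · right; simp only [List.length_append]; omega
    · have hg := good_act k1.right hS₀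
      obtain ⟨T₁, ce, T₂, hT, g1, g2, g3, g4⟩ := good_edge hg
      rw [hT, ncs_eq e g1.length g2.length, not_not] at hc
      obtain ⟨c', hc'⟩ := hc
      rw [hc'] at hT
      obtain ⟨L'', a, b, p1, p2, p3, p4, p5, p6⟩ := pull hS₀ ho L' k1.right k2 hT
      have hsrc : a ++ P.side e.r (!!e.d) ++ b = e.src := by
        obtain ⟨m', q1, q2, q3⟩ := isPath_append.mp p3.right
        exact q3
      rw [Bool.not_not] at hsrc
      unfold DE.src at hsrc
      rw [List.append_assoc, List.append_assoc] at hsrc
      obtain ⟨ha, hb⟩ := List.append_inj hsrc (by rw [p1]; exact g1.length)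
      have hb := List.append_cancel_left hb
      subst ha hb
      refine ⟨L'', ?_, p4, ?_⟩
      · have h1 : Hty y x (L₀ ++ [e]) (L' ++ [e]) := k1.append_right he
        have h2 : Hty y x (L' ++ [e]) (L'' ++ [e.inv] ++ [e]) := p3.append_right he
        have h3 : Step (L'' ++ [e.inv] ++ [e]) L'' := by
          have := Step.cancel L'' e.inv []
          simpa using this
        exact (h1.trans h2).trans (.step h2.right h3)
      · right
        simp only [List.length_append, List.length_singleton]
        rcases k3 with h | h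
        · rw [← h]; omega
        · omega

/-- A path acting trivially is homotopically trivial. -/
theorem faithful_one {w y : List α} {S₀ : List (Tok P.ι)} (hS₀ : Good P w y S₀)
    (ho : ∀ t ∈ S₀, ∃ n, t = Tok.orig n) {L : List (DE P)} {x : List α} (hL : IsPath y L x)
    (h : ∀ t ∈ act L S₀, ∃ n, t = Tok.orig n) : Hty y x L [] := by
  obtain ⟨L', k1, k2, k3⟩ := red hS₀ ho L hL
  have hact := act_hty k1 hS₀
  rw [hact] at h
  rcases List.eq_nil_or_concat L' with h' | ⟨L'', e, h'⟩
  · rwa [h'] at k1
  · exfalso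
    rw [List.concat_eq_append] at h'
    subst h'
    obtain ⟨m, hL₀, hm, hx⟩ := isPath_append.mp k1.right
    subst hm
    rw [nc_append] at k2
    obtain ⟨-, hnce, -⟩ := k2
    have hg := good_act hL₀ hS₀
    obtain ⟨T₁, ce, T₂, hT, g1, g2, g3, g4⟩ := good_edge hg
    have hcan : ¬ ∃ c', ce = block P e.r (!e.d) c' := by
      rw [hT, ncs_eq e g1.length g2.length] at hnce
      exact hnce
    rw [act_append, act_cons, act_nil, g4, cs_of_not hcan] at h
    obtain ⟨t, ht⟩ := block_cons (P := P) e.r e.d ce
    obtain ⟨n, hn⟩ := h (Tok.made e.r e.d ce 0) (by rw [ht]; simp)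
    exact made_ne_orig hn

theorem act1_head_of_ne {w : List α} {e : DE P} {S : List (Tok P.ι)} (h : Good P w e.src S)
    (ha : e.a ≠ []) : (act1 e S).head? = S.head? := by
  obtain ⟨S₁, c, S₂, rfl, h1, h2, h3, h4⟩ := good_edge h
  rw [h4]
  have : S₁ ≠ [] := by
    intro h
    apply ha
    rw [h] at h1
    exact List.length_eq_zero_iff.mp h1.length.symm
  obtain ⟨t, S₁', rfl⟩ := List.exists_cons_of_ne_nil this
  rfl

theorem act_head_of_ne {w x y : List α} {L : List (DE P)} {S : List (Tok P.ι)}
    (hL : IsPath x L y) (h : Good P w x S) (ha : ∀ e ∈ L, e.a ≠ []) :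
    (act L S).head? = S.head? := by
  induction L generalizing x S with
  | nil => rfl
  | cons e L ih =>
    obtain ⟨h1, h2⟩ := hL
    subst h1
    rw [act_cons, ih h2 (good_act1 h) (fun e he => ha e (List.mem_cons_of_mem _ he))]
    exact act1_head_of_ne h (ha e (List.mem_cons_self))

/-- Effect of a move at the left end. -/
theorem act1_left {w : List α} {e : DE P} {S : List (Tok P.ι)} (h : Good P w e.src S)
    (ha : e.a = []) : ∃ c S₂, S = c ++ S₂ ∧ Good P w (P.side e.r e.d) c ∧ Good P w e.b S₂ ∧
      act1 e S = cs P e.r e.d c ++ S₂ := by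
  obtain ⟨S₁, c, S₂, rfl, h1, h2, h3, h4⟩ := good_edge h
  rw [ha] at h1
  have : S₁ = [] := List.length_eq_zero_iff.mp h1.length
  subst this
  exact ⟨c, S₂, by simp, h2, h3, by rw [h4]; simp⟩

theorem nc_head {w y : List α} {S₀ : List (Tok P.ι)} (hS₀ : Good P w y S₀) {n : ℕ}
    (L : List (DE P)) : ∀ {x : List α}, IsPath y L x →
    NC L S₀ → (act L S₀).head? = some (.orig n) → ∀ e ∈ L, e.a ≠ [] := by
  induction L using List.reverseRecOn with
  | nil => intro x _ _ _ e he; simp at he
  | append_singleton L₀ e ih =>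
    intro x hL hnc h
    obtain ⟨m, hL₀, hm, hx⟩ := isPath_append.mp hL
    subst hm
    rw [nc_append] at hnc
    obtain ⟨hnc0, hnce, -⟩ := hnc
    have hg := good_act hL₀ hS₀
    have ha : e.a ≠ [] := by
      intro ha
      obtain ⟨c, S₂, h1, h2, h3, h4⟩ := act1_left hg ha
      have hcan : ¬ ∃ c', c = block P e.r (!e.d) c' := by
        have := (ncs_eq e (S₁ := []) (c := c) (S₂ := S₂) (by simp [ha]) h2.length).mp
          (by rw [List.nil_append, ← h1]; exact hnce)
        exact this
      rw [act_append, act_cons, act_nil, h4, cs_of_not hcan] at h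
      obtain ⟨t, ht⟩ := block_cons (P := P) e.r e.d c
      rw [ht] at h
      simp only [List.cons_append, List.head?_cons, Option.some.injEq] at h
      exact made_ne_orig h
    rw [act_append, act_cons, act_nil, act1_head_of_ne hg ha] at h
    intro f hf
    rcases List.mem_append.mp hf with hf | hf
    · exact ih hL₀ hnc0 h f hf
    · simp only [List.mem_singleton] at hf
      rw [hf]; exact ha

/-- A path whose moves do not touch the first letter. -/
theorem strip {y : α} {q x : List α} {L : List (DE P)} (hL : IsPath (y :: q) L x)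
    (ha : ∀ e ∈ L, e.a ≠ []) : ∃ q' L', x = y :: q' ∧ IsPath q L' q' ∧ L = wl [y] L' := by
  induction L generalizing q with
  | nil =>
    simp only [IsPath] at hL
    exact ⟨q, [], hL.symm, isPath_nil _, rfl⟩
  | cons e L ih =>
    obtain ⟨h1, h2⟩ := hL
    have hne := ha e List.mem_cons_self
    obtain ⟨z, a', hza⟩ := List.exists_cons_of_ne_nil hne
    unfold DE.src at h1
    rw [hza] at h1
    simp only [List.cons_append, List.cons.injEq] at h1
    obtain ⟨rfl, h1⟩ := h1
    have h3 : e.tgt = y :: (a' ++ P.side e.r (!e.d) ++ e.b) := by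
      unfold DE.tgt; rw [hza]; rfl
    rw [h3] at h2
    obtain ⟨q', L', k1, k2, k3⟩ := ih h2 (fun f hf => ha f (List.mem_cons_of_mem _ hf))
    refine ⟨q', ⟨a', e.r, e.d, e.b⟩ :: L', k1, ⟨?_, ?_⟩, ?_⟩
    · rw [h1]; rfl
    · exact k2
    · rw [k3, wl_cons]
      congr 1
      unfold DE.wl
      simp only [List.cons_append, List.nil_append, ← hza]

/-- Paths preserving the first token. -/
theorem lemC' {w : List α} {y : α} {q x : List α} {S₀ : List (Tok P.ι)}
    (hS₀ : Good P w (y :: q) S₀) (ho : ∀ t ∈ S₀, ∃ n, t = Tok.orig n)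
    {L : List (DE P)} {n : ℕ} (hL : IsPath (y :: q) L x)
    (h : (act L S₀).head? = some (.orig n)) :
    ∃ q' L', x = y :: q' ∧ IsPath q L' q' ∧ Hty (y :: q) x L (wl [y] L') ∧
      L'.length ≤ L.length ∧ ((∃ e ∈ L, e.a = []) → L'.length < L.length) := by
  obtain ⟨L₁, k1, k2, k3⟩ := red hS₀ ho L hL
  rw [act_hty k1 hS₀] at h
  have hne := nc_head hS₀ L₁ k1.right k2 h
  obtain ⟨q', L', e1, e2, e3⟩ := strip k1.right hne
  subst e3
  refine ⟨q', L', e1, e2, k1, ?_, ?_⟩
  · rcases k3 with h | h
    · rw [← h]; simp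
    · simp only [wl_length] at h; omega
  · rintro ⟨e, he, hea⟩
    rcases k3 with h | h
    · exfalso
      rw [← h] at he
      exact hne e he hea
    · simpa only [wl_length] using h

/-- Paths preserving the first token. -/
theorem lemC {y : α} {q x : List α} {L : List (DE P)} {n : ℕ} (hL : IsPath (y :: q) L x)
    (h : (act L (s0 P (y :: q))).head? = some (.orig n)) :
    ∃ q' L', x = y :: q' ∧ IsPath q L' q' ∧ Hty (y :: q) x L (wl [y] L') ∧
      L'.length ≤ L.length ∧ ((∃ e ∈ L, e.a = []) → L'.length < L.length) :=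
  lemC' (good_s0 _) (s0_orig _) hL h

end DG

end FileRed

section FileSub

/-! Substitutions of tokens (MP_f61096_al). -/

namespace DG

universe u v

variable {α : Type u} {P : Pres.{u, v} α}

/-- Substitution. -/
noncomputable def sub (P : Pres.{u, v} α) (σ : ℕ → Tok P.ι) : Tok P.ι → Tok P.ι
  | .orig n => σ n
  | .mk r d _ c j => (cs P r d (List.ofFn (fun i => sub P σ (c i)))).getD j (.orig 0)

theorem sub_orig (σ : ℕ → Tok P.ι) (n : ℕ) : sub P σ (.orig n) = σ n := by simp [sub]

theorem sub_made (σ : ℕ → Tok P.ι) (r : P.ι) (d : Bool) (c : List (Tok P.ι)) (j : ℕ) :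
    sub P σ (.made r d c j) = (cs P r d (c.map (sub P σ))).getD j (.orig 0) := by
  unfold Tok.made
  rw [sub]
  congr 2
  apply List.ext_getElem
  · simp
  · intro i h1 h2
    simp

/-- Good substitutions from `w` to `w'`. -/
def GSub (P : Pres.{u, v} α) (w w' : List α) (σ : ℕ → Tok P.ι) : Prop :=
  ∀ n, n < w.length → Val P w' (σ n) ∧ lab P w' (σ n) = w[n]?

/-- Substitution attached to a state. -/
def sig (S : List (Tok P.ι)) : ℕ → Tok P.ι := fun n => S.getD n (.orig 0)

theorem sig_gsub {w w' : List α} {S : List (Tok P.ι)} (h : Good P w' w S) :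
    GSub P w w' (sig S) := by
  intro n hn
  have hl : n < S.length := by rw [h.length]; exact hn
  have e : sig S n = S[n] := by simp [sig, List.getD, List.getElem?_eq_getElem hl]
  rw [e]
  refine ⟨h.1 _ (List.getElem_mem hl), ?_⟩
  have := congrArg (fun l => l[n]?) h.2
  simp only [List.getElem?_map, List.getElem?_eq_getElem hl, List.getElem?_eq_getElem hn,
    Option.map_some, Option.some.injEq] at this
  rw [this, List.getElem?_eq_getElem hn]

theorem good_map {w w' x : List α} {σ : ℕ → Tok P.ι}
    {S : List (Tok P.ι)} (h : Good P w x S)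
    (hv : ∀ t ∈ S, Val P w' (sub P σ t) ∧ lab P w' (sub P σ t) = lab P w t) :
    Good P w' x (S.map (sub P σ)) := by
  constructor
  · intro t ht
    obtain ⟨s, hs, rfl⟩ := List.mem_map.mp ht
    exact (hv s hs).1
  · rw [List.map_map, ← h.2]
    apply List.map_congr_left
    intro t ht
    exact (hv t ht).2

theorem val_sub {w w' : List α} {σ : ℕ → Tok P.ι} (hσ : GSub P w w' σ) {t : Tok P.ι}
    (h : Val P w t) : Val P w' (sub P σ t) ∧ lab P w' (sub P σ t) = lab P w t := by
  induction h with
  | @orig n hn =>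
    rw [sub_orig]
    exact hσ n hn
  | @made r d c j hc hl hj hn ih =>
    have hg : Good P w (P.side r d) c := ⟨hc, hl⟩
    have hg' : Good P w' (P.side r d) (c.map (sub P σ)) := good_map hg ih
    have h2 := good_cs hg'
    have hlen : j < (cs P r d (c.map (sub P σ))).length := by rw [h2.length]; exact hj
    have e : sub P σ (.made r d c j) = (cs P r d (c.map (sub P σ)))[j] := by
      rw [sub_made, List.getD, List.getElem?_eq_getElem hlen, Option.getD_some]
    rw [e]
    refine ⟨h2.1 _ (List.getElem_mem hlen), ?_⟩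
    have := congrArg (fun l => l[j]?) h2.2
    simp only [List.getElem?_map, List.getElem?_eq_getElem hlen, Option.map_some] at this
    have hj' : j < (P.side r (!d)).length := hj
    rw [List.getElem?_eq_getElem hj', Option.map_some, Option.some.injEq] at this
    rw [this, lab_made, List.getElem?_eq_getElem hj']

theorem good_sub {w w' x : List α} {σ : ℕ → Tok P.ι} (hσ : GSub P w w' σ)
    {S : List (Tok P.ι)} (h : Good P w x S) : Good P w' x (S.map (sub P σ)) :=
  good_map h (fun t ht => val_sub hσ (h.1 t ht))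

theorem block_map {w w' : List α} {σ : ℕ → Tok P.ι} (hσ : GSub P w w' σ) {r : P.ι} {d : Bool}
    {c : List (Tok P.ι)} (h : Good P w (P.side r d) c) :
    (block P r d c).map (sub P σ) = cs P r d (c.map (sub P σ)) := by
  have h2 := good_cs (good_sub hσ h)
  apply List.ext_getElem
  · rw [List.length_map, block_length, h2.length]; rfl
  · intro j h3 h4
    rw [List.getElem_map, block_getElem, sub_made, List.getD, List.getElem?_eq_getElem h4,
      Option.getD_some]

theorem cs_map {w w' : List α} {σ : ℕ → Tok P.ι} (hσ : GSub P w w' σ) {r : P.ι} {d : Bool}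
    {c : List (Tok P.ι)} (h : Good P w (P.side r d) c) :
    cs P r d (c.map (sub P σ)) = (cs P r d c).map (sub P σ) := by
  by_cases hn : ∃ c', c = block P r (!d) c'
  · obtain ⟨c', rfl⟩ := hn
    have hg := (good_unblock h.1).1
    rw [block_map hσ hg, cs_block]
    have := cs_cs (good_sub hσ hg)
    rwa [Bool.not_not] at this
  · rw [cs_of_not hn, block_map hσ h]

theorem act1_map {w w' : List α} {σ : ℕ → Tok P.ι} (hσ : GSub P w w' σ) {e : DE P}
    {S : List (Tok P.ι)} (h : Good P w e.src S) :
    act1 e (S.map (sub P σ)) = (act1 e S).map (sub P σ) := by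
  obtain ⟨S₁, c, S₂, rfl, h1, h2, h3, h4⟩ := good_edge h
  rw [h4, List.map_append, List.map_append, act1_eq e (by rw [List.length_map]; exact h1.length)
    (by rw [List.length_map]; exact h2.length), cs_map hσ h2]
  simp

theorem act_map {w w' x y : List α} {σ : ℕ → Tok P.ι} (hσ : GSub P w w' σ) {L : List (DE P)}
    (hL : IsPath x L y) {S : List (Tok P.ι)} (h : Good P w x S) :
    act L (S.map (sub P σ)) = (act L S).map (sub P σ) := by
  induction L generalizing x S with
  | nil => rfl
  | cons e L ih =>
    obtain ⟨h1, h2⟩ := hL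
    subst h1
    rw [act_cons, act_cons, act1_map hσ h, ih h2 (good_act1 h)]

theorem sub_congr {w : List α} {σ τ : ℕ → Tok P.ι} (h : ∀ n, n < w.length → σ n = τ n)
    {t : Tok P.ι} (ht : Val P w t) : sub P σ t = sub P τ t := by
  induction ht with
  | @orig n hn => rw [sub_orig, sub_orig, h n hn]
  | @made r d c j hc hl hj hn ih =>
    rw [sub_made, sub_made]
    have : c.map (sub P σ) = c.map (sub P τ) := List.map_congr_left ih
    rw [this]

theorem sub_sub {w w' w'' : List α} {σ τ : ℕ → Tok P.ι} (hσ : GSub P w w' σ)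
    (hτ : GSub P w' w'' τ) {t : Tok P.ι} (ht : Val P w t) :
    sub P τ (sub P σ t) = sub P (fun n => sub P τ (σ n)) t := by
  induction ht with
  | @orig n hn => rw [sub_orig, sub_orig]
  | @made r d c j hc hl hj hn ih =>
    have hg : Good P w (P.side r d) c := ⟨hc, hl⟩
    have hg' := good_sub hσ hg
    have h2 := good_cs hg'
    have hlen : j < (cs P r d (c.map (sub P σ))).length := by rw [h2.length]; exact hj
    have e : sub P σ (.made r d c j) = (cs P r d (c.map (sub P σ)))[j] := by
      rw [sub_made, List.getD, List.getElem?_eq_getElem hlen, Option.getD_some]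
    rw [e, sub_made]
    have e2 : c.map (sub P (fun n => sub P τ (σ n))) = (c.map (sub P σ)).map (sub P τ) := by
      rw [List.map_map]
      exact List.map_congr_left (fun t ht => (ih t ht).symm)
    rw [e2, cs_map hτ hg', List.getD, List.getElem?_map, List.getElem?_eq_getElem hlen]
    rfl

theorem sub_id {w : List α} {t : Tok P.ι} (ht : Val P w t) : sub P Tok.orig t = t := by
  induction ht with
  | @orig n hn => rw [sub_orig]
  | @made r d c j hc hl hj hn ih =>
    rw [sub_made]
    have e : c.map (sub P Tok.orig) = c := by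
      conv_rhs => rw [← List.map_id c]
      exact List.map_congr_left ih
    rw [e, cs_of_not hn, List.getD, List.getElem?_eq_getElem (by rw [block_length]; exact hj),
      block_getElem, Option.getD_some]

theorem s0_sig {w w' : List α} {S : List (Tok P.ι)} (h : Good P w' w S) :
    (s0 P w).map (sub P (sig S)) = S := by
  apply List.ext_getElem
  · rw [h.length]; simp [s0]
  · intro j h1 h2
    simp [s0, sub_orig, sig, List.getD, List.getElem?_eq_getElem h2]

/-- Acting on an arbitrary good state. -/
theorem act_sig {w x y : List α} {L : List (DE P)} (hL : IsPath x L y) {S : List (Tok P.ι)}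
    (h : Good P w x S) : act L S = (act L (s0 P x)).map (sub P (sig S)) := by
  conv_lhs => rw [← s0_sig h]
  exact act_map (sig_gsub h) hL (good_s0 x)

/-- Translation of tokens along a path `Γ` starting at `w`. -/
noncomputable def tr (w : List α) (Γ : List (DE P)) : Tok P.ι → Tok P.ι :=
  sub P (sig (act Γ (s0 P w)))

section tr

variable {w x y z : List α} {Γ Γ' L : List (DE P)} {t : Tok P.ι}

theorem act_tr (hΓ : IsPath w Γ x) (hL : IsPath x L y) :
    act (Γ ++ L) (s0 P w) = (act L (s0 P x)).map (tr w Γ) := by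
  rw [act_append]
  exact act_sig hL (good_act hΓ (good_s0 w))

theorem tr_val (hΓ : IsPath w Γ x) (ht : Val P x t) :
    Val P w (tr w Γ t) ∧ lab P w (tr w Γ t) = lab P x t :=
  val_sub (sig_gsub (good_act hΓ (good_s0 w))) ht

theorem tr_nil (ht : Val P w t) : tr w [] t = t := by
  unfold tr
  rw [act_nil]
  rw [sub_congr (τ := Tok.orig) _ ht, sub_id ht]
  intro n hn
  simp [sig, s0, List.getD, hn]

theorem tr_tr (hΓ : IsPath w Γ x) (hΓ' : IsPath x Γ' y) (ht : Val P y t) :
    tr w Γ (tr x Γ' t) = tr w (Γ ++ Γ') t := by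
  have h1 := sig_gsub (good_act hΓ (good_s0 (P := P) w))
  have hg := good_act hΓ' (good_s0 (P := P) x)
  have h2 := sig_gsub hg
  unfold tr
  rw [sub_sub h2 h1 ht]
  apply sub_congr _ ht
  intro n hn
  have e := act_tr hΓ hΓ'
  rw [e]
  have hl : n < (act Γ' (s0 P x)).length := by rw [hg.length]; exact hn
  simp only [sig, List.getD, List.getElem?_map, List.getElem?_eq_getElem hl, Option.map_some,
    Option.getD_some]
  rfl

theorem tr_hty (h : Hty w x Γ Γ') : tr w Γ = tr w Γ' := by
  unfold tr
  rw [act_hty h (good_s0 w)]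

theorem tr_inv_right (hΓ : IsPath w Γ x) (ht : Val P w t) : tr w Γ (tr x (invL Γ) t) = t := by
  rw [tr_tr hΓ hΓ.inv ht, tr_hty (Hty.append_inv hΓ), tr_nil ht]

theorem tr_inv_left (hΓ : IsPath w Γ x) (ht : Val P x t) : tr x (invL Γ) (tr w Γ t) = t := by
  rw [tr_tr hΓ.inv hΓ ht, tr_hty (Hty.inv_append hΓ), tr_nil ht]

end tr

/-- Cutting a state in two: the effect of a whiskered path. -/
theorem act_wl {w x y p : List α} {L : List (DE P)} (hL : IsPath x L y) {S₁ S₂ : List (Tok P.ι)}
    (h1 : S₁.length = p.length) (h2 : Good P w x S₂) :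
    act (wl p L) (S₁ ++ S₂) = S₁ ++ act L S₂ := by
  induction L generalizing x S₂ with
  | nil => rfl
  | cons e L ih =>
    obtain ⟨h3, h4⟩ := hL
    subst h3
    obtain ⟨T₁, c, T₂, rfl, g1, g2, g3, g4⟩ := good_edge h2
    have h5 := good_act1 h2
    rw [wl_cons, act_cons, act_cons]
    have e1 : act1 (e.wl p) (S₁ ++ (T₁ ++ c ++ T₂)) = S₁ ++ act1 e (T₁ ++ c ++ T₂) := by
      have e2 : S₁ ++ (T₁ ++ c ++ T₂) = (S₁ ++ T₁) ++ c ++ T₂ := by simp
      rw [e2, act1_eq (e.wl p) (by simp [DE.wl, h1, g1.length]) g2.length, g4]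
      simp [DE.wl]
    rw [e1]
    exact ih h4 h5

theorem act_wr {w x y p : List α} {L : List (DE P)} (hL : IsPath x L y) {S₁ S₂ : List (Tok P.ι)}
    (h2 : Good P w x S₁) :
    act (wr p L) (S₁ ++ S₂) = act L S₁ ++ S₂ := by
  induction L generalizing x S₁ with
  | nil => rfl
  | cons e L ih =>
    obtain ⟨h3, h4⟩ := hL
    subst h3
    obtain ⟨T₁, c, T₂, rfl, g1, g2, g3, g4⟩ := good_edge h2
    have h5 := good_act1 h2
    rw [wr_cons, act_cons, act_cons]
    have e1 : act1 (e.wr p) ((T₁ ++ c ++ T₂) ++ S₂) = act1 e (T₁ ++ c ++ T₂) ++ S₂ := by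
      have e2 : (T₁ ++ c ++ T₂) ++ S₂ = T₁ ++ c ++ (T₂ ++ S₂) := by simp
      rw [e2, act1_eq (e.wr p) (by simp [DE.wr, g1.length]) g2.length, g4]
      simp [DE.wr]
    rw [e1]
    exact ih h4 h5

/-- Injectivity of left whiskering. -/
theorem wl_inj_one {p q : List α} {L : List (DE P)} (hL : IsPath q L q)
    (h : Hty (p ++ q) (p ++ q) (wl p L) []) : Hty q q L [] := by
  obtain ⟨S₁, S₂, h1, h2, h3⟩ := good_split (good_s0 (P := P) (p ++ q))
  have ho : ∀ t ∈ S₂, ∃ n, t = Tok.orig n := by
    intro t ht
    exact s0_orig (P := P) (p ++ q) t (by rw [h1]; simp [ht])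
  refine faithful_one h3 ho hL ?_
  have h4 := act_hty h (good_s0 (P := P) (p ++ q))
  rw [act_nil, h1, act_wl hL h2.length h3] at h4
  rw [List.append_cancel_left h4]
  exact ho

theorem wr_inj_one {p q : List α} {L : List (DE P)} (hL : IsPath p L p)
    (h : Hty (p ++ q) (p ++ q) (wr q L) []) : Hty p p L [] := by
  obtain ⟨S₁, S₂, h1, h2, h3⟩ := good_split (good_s0 (P := P) (p ++ q))
  have ho : ∀ t ∈ S₁, ∃ n, t = Tok.orig n := by
    intro t ht
    exact s0_orig (P := P) (p ++ q) t (by rw [h1]; simp [ht])
  refine faithful_one h2 ho hL ?_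
  have h4 := act_hty h (good_s0 (P := P) (p ++ q))
  rw [act_nil, h1, act_wr hL h2] at h4
  rw [List.append_cancel_right h4]
  exact ho

theorem Hty.of_inv_append {w x : List α} {L L' : List (DE P)} (hL : IsPath w L x)
    (hL' : IsPath w L' x) (h : Hty x x (invL L ++ L') []) : Hty w x L L' := by
  have h1 : Hty w x (L ++ (invL L ++ L')) (L ++ []) := Hty.append_left hL h
  have h2 : Hty w x ((L ++ invL L) ++ L') ([] ++ L') := (Hty.append_inv hL).append_right hL'
  rw [List.append_nil] at h1
  rw [List.append_assoc] at h2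
  exact h1.symm.trans h2

theorem wl_inj {p q q' : List α} {L L' : List (DE P)} (hL : IsPath q L q') (hL' : IsPath q L' q')
    (h : Hty (p ++ q) (p ++ q') (wl p L) (wl p L')) : Hty q q' L L' := by
  apply Hty.of_inv_append hL hL'
  apply wl_inj_one (p := p) (hL.inv.append hL')
  have h1 := Hty.append_left (L₀ := invL (wl p L)) (hL.wl p).inv h.symm
  rw [wl_append]
  rw [invL_wl] at h1
  refine h1.trans ?_
  have := Hty.inv_append (hL.wl p)
  rwa [invL_wl] at this

theorem s0_cons_head (y : α) (q : List α) : (s0 P (y :: q)).head? = some (Tok.orig 0) := by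
  simp [s0, List.range_succ_eq_map]

/-- The first tokens characterise paths up to whiskered paths. -/
theorem ft_char {w x₁ x₂ : List α} {y : α} {q : List α} {Γ₁ Γ₂ : List (DE P)} {t : Tok P.ι}
    (h1 : IsPath w Γ₁ x₁) (h2 : IsPath w Γ₂ x₂) (hx : x₁ = y :: q)
    (h3 : (act Γ₁ (s0 P w)).head? = some t) (h4 : (act Γ₂ (s0 P w)).head? = some t) :
    ∃ q' B, x₂ = y :: q' ∧ IsPath q B q' ∧ Hty w x₂ Γ₂ (Γ₁ ++ wl [y] B) := by
  subst hx
  have hL : IsPath (y :: q) (invL Γ₁ ++ Γ₂) x₂ := h1.inv.append h2
  have e1 : (act (invL Γ₁ ++ Γ₂) (s0 P (y :: q))).head? = some (Tok.orig 0) := by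
    rw [act_tr h1.inv h2, List.head?_map, h4]
    have e2 := act_tr h1.inv h1
    rw [act_hty (Hty.inv_append h1) (good_s0 _)] at e2
    have e3 := congrArg List.head? e2
    rw [List.head?_map, h3] at e3
    rw [← e3, act_nil]
    exact s0_cons_head y q
  obtain ⟨q', L', k1, k2, k3, -, -⟩ := lemC hL e1
  refine ⟨q', L', k1, k2, ?_⟩
  have h5 : Hty w x₂ (Γ₁ ++ (invL Γ₁ ++ Γ₂)) (Γ₁ ++ wl [y] L') := Hty.append_left h1 k3
  have h6 : Hty w x₂ ((Γ₁ ++ invL Γ₁) ++ Γ₂) ([] ++ Γ₂) := (Hty.append_inv h1).append_right h2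
  rw [List.append_assoc] at h6
  exact h6.symm.trans h5

end DG

end FileSub

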